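import Pool.Agent.Q62.MS.Stm

/-! Project MS (helper62): the assembly. -/

set_option autoImplicit false

open Set Filter Topology TopologicalSpace Metric
open scoped Manifold ContDiff

universe u

namespace Pool.Agent.Q62.MS

theorem coe_npow {M : Type u} [TopologicalSpace M] (F : M ≃ₜ M) (k : ℕ) :
    ⇑(F ^ k : M ≃ₜ M) = F^[k] := by
  induction k with
  | zero => rfl
  | succ n ih =>
    rw [pow_succ, Function.iterate_succ, ← ih]
    rfl

theorem shad_iter {M : Type u} [MetricSpace M] (h1 : S_ITS.{u}) (F : M ≃ₜ M) (K : ℕ) (hK : 1 ≤ K)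
    (h : Shad (Cmap F F.continuous)) :
    Shad (Cmap (F ^ K : M ≃ₜ M) (F ^ K : M ≃ₜ M).continuous) := by
  have h2 := h1 M F F.continuous h K hK
  have h3 := coe_npow F K
  have h4 : ∀ (f : M → M) (hf : Continuous f), f = F^[K] → Shad (Cmap f hf) := by
    intro f hf e
    subst e
    exact h2
  exact h4 _ _ h3

theorem tend_shift {M : Type u} [TopologicalSpace M] (g : M ≃ₜ M) (x y : M) :
    Tendsto (fun n : ℕ => g^[n] x) atTop (𝓝 y) ↔ Tendsto (fun n : ℕ => g^[n] (g x)) atTop (𝓝 y) := by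
  have h : (fun n : ℕ => g^[n] (g x)) = fun n : ℕ => g^[n + 1] x := by
    funext n
    rw [Function.iterate_succ_apply]
  rw [h]
  exact (tendsto_add_atTop_iff_nat (f := fun n : ℕ => g^[n] x) 1).symm

theorem tend_shift' {M : Type u} [TopologicalSpace M] (g : M ≃ₜ M) (x y : M) :
    Tendsto (fun n : ℕ => g.symm^[n] x) atTop (𝓝 y) ↔
      Tendsto (fun n : ℕ => g.symm^[n] (g x)) atTop (𝓝 y) := by
  rw [tend_shift g.symm (g x) y, Homeomorph.symm_apply_apply]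

/-- assembly -/
theorem fin_of (h1 : S_ITS.{u}) (h2 : S_ESC.{u}) (h3 : S_CNT.{u}) (h4 : S_SEP.{u})
    (h5 : S_TWO.{u}) (h6 : S_CHA.{u}) (h7 : S_RAD.{u}) (h8 : S_PAI) (h9 : S_AVO)
    (h10 : S_RHO.{u}) (h11 : S_NBH.{u}) (h12 : S_PIE.{u}) (h13 : S_CON.{u}) (h14 : S_CVG.{u})
    (h15 : S_SNK.{u}) (h16 : S_MEA.{u}) (h17 : S_ITE.{u}) (h18 : S_PQG.{u}) (h19 : S_LO1.{u})
    (h20 : S_CYC.{u}) (h21 : S_BRA.{u}) (h22 : S_PAR.{u}) (h23 : S_CIR.{u}) (h24 : S_ONE.{u}) :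
    S_FIN.{u} := by
  intro d M _ _ _ _ _ F hd hF hS
  rcases Nat.lt_or_ge 1 d with hd2 | hd1
  · obtain ⟨K, hK, hg1, hg2, p, q, hp, hq, hpq, hp2, hq2, hGo, hGn⟩ :=
      h18 h6 h14 h15 h16 h17 d M F hd hF
    have hS' := shad_iter h1 F K hK hS
    obtain ⟨hA1, hA2, e, φ, ψ, R, hL⟩ := h6 d M (F ^ K : M ≃ₜ M) hg1 hg2 p hp
    obtain ⟨R', c, hRad⟩ := h7 d M (F ^ K : M ≃ₜ M) p _ _ e φ ψ R hL hA1 hp2
    obtain ⟨U, A, B, hU⟩ := h13 h8 h9 h10 h11 (h12) d M (F ^ K : M ≃ₜ M) p q e ψ R' c hd2 hRad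
      {x : M | Tendsto (fun n : ℕ => (F ^ K : M ≃ₜ M).symm^[n] x) atTop (𝓝 p) ∧
        Tendsto (fun n : ℕ => (F ^ K : M ≃ₜ M)^[n] x) atTop (𝓝 q)} hGo hGn
      (by
        intro x
        simp only [mem_setOf_eq]
        rw [← tend_shift (F ^ K : M ≃ₜ M) x q, ← tend_shift' (F ^ K : M ≃ₜ M) x p])
      (by
        intro hh
        have h5 := hh.2
        have h6 : (fun n : ℕ => (F ^ K : M ≃ₜ M)^[n] p) = fun _ => p := by
          funext n
          exact Function.iterate_fixed hp n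
        rw [h6] at h5
        exact hpq (tendsto_nhds_unique tendsto_const_nhds h5))
      (fun x hx => hx)
    exact h5 h2 (h3) (h4) M (F ^ K : M ≃ₜ M) p U A B hU hS'
  · have hd' : d = 1 := le_antisymm hd1 hd
    subst hd'
    haveI : LocallyConnectedSpace M := ChartedSpace.locallyConnectedSpace (EE 1) M
    obtain ⟨K, hK, P, Q, e, h, hC⟩ := h20 h6 h14 h17 h19 M F hF
    have hS' := shad_iter h1 F K hK hS
    exact h24 h21 h22 h23 M (F ^ K : M ≃ₜ M) P Q e h hC hS'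

end Pool.Agent.Q62.MS
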