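import Pool.Agent.Q62.MS.One

/-! Project MS (helper62): MS21. -/

set_option autoImplicit false

open Set Filter Topology TopologicalSpace Metric

universe u

namespace Pool.Agent.Q62.MS

section
variable {M : Type u} [MetricSpace M] {g : M ≃ₜ M} {q : M} {e : ℝ → M} {h : ℝ → ℝ}

theorem side_icc {s : Bool} {t : ℝ} (ht : t ∈ Side s) : t ∈ Icc (-1 : ℝ) 1 := by
  cases s
  · simp only [Side, Bool.false_eq_true, if_false, mem_Ioo] at ht
    exact ⟨ht.1.le, by linarith [ht.2]⟩
  · simp only [Side, if_true, mem_Ioo] at ht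
    exact ⟨by linarith [ht.1], ht.2.le⟩

theorem side_true {t : ℝ} : t ∈ Side true ↔ 0 < t ∧ t < 1 := by
  simp only [Side, if_true, mem_Ioo]

theorem side_false {t : ℝ} : t ∈ Side false ↔ -1 < t ∧ t < 0 := by
  simp only [Side, Bool.false_eq_true, if_false, mem_Ioo]

theorem arc_side (H : Arc1 g q e h) {s : Bool} {t : ℝ} (ht : t ∈ Side s) : h t ∈ Side s := by
  have h1 := H.h2 t (side_icc ht)
  have h2 := side_icc ht
  cases s
  · rw [side_false] at ht ⊢
    have h3 := H.hm h2 (by norm_num : (0 : ℝ) ∈ Icc (-1 : ℝ) 1) ht.2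
    rw [H.h0] at h3
    rw [abs_of_neg ht.2] at h1
    have h4 := (abs_le.1 h1).1
    exact ⟨by linarith, h3⟩
  · rw [side_true] at ht ⊢
    have h3 := H.hm (by norm_num : (0 : ℝ) ∈ Icc (-1 : ℝ) 1) h2 ht.1
    rw [H.h0] at h3
    rw [abs_of_pos ht.1] at h1
    have h4 := (abs_le.1 h1).2
    exact ⟨h3, by linarith⟩

theorem arc_side_iter (H : Arc1 g q e h) {s : Bool} {t : ℝ} (ht : t ∈ Side s) (n : ℕ) :
    h^[n] t ∈ Side s := by
  induction n with
  | zero => exact ht
  | succ n ih =>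
    rw [Function.iterate_succ_apply']
    exact arc_side H ih

theorem arc_fix (H : Arc1 g q e h) : g q = q := by
  have h1 := H.eh 0 (by norm_num)
  rw [H.h0, H.ep] at h1
  exact h1.symm

theorem h_fix (H : Arc1 g q e h) (n : ℕ) : h^[n] 0 = 0 := Function.iterate_fixed H.h0 n

theorem br_inv (H : Arc1 g q e h) (s : Bool) (x : M) : x ∈ Br g e s ↔ g x ∈ Br g e s := by
  constructor
  · rintro ⟨n, t, ht, hx⟩
    refine ⟨n, h t, arc_side H ht, ?_⟩
    rw [H.eh t (side_icc ht), ← hx, ← Function.iterate_succ_apply, Function.iterate_succ_apply']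
  · rintro ⟨n, t, ht, hx⟩
    refine ⟨n + 1, t, ht, ?_⟩
    rw [Function.iterate_succ_apply]
    exact hx

theorem br_inv_iter (H : Arc1 g q e h) (s : Bool) (n : ℕ) (x : M) :
    x ∈ Br g e s ↔ g^[n] x ∈ Br g e s := by
  induction n with
  | zero => rfl
  | succ n ih => rw [ih, br_inv H, Function.iterate_succ_apply']

theorem br_union (g : M ≃ₜ M) (e : ℝ → M) (s : Bool) :
    Br g e s = ⋃ n : ℕ, (g^[n]) ⁻¹' (e '' Side s) := by
  ext x
  simp only [Br, mem_setOf_eq, mem_iUnion, mem_preimage, mem_image]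
  constructor
  · rintro ⟨n, t, ht, hx⟩
    exact ⟨n, t, ht, hx.symm⟩
  · rintro ⟨n, t, ht, hx⟩
    exact ⟨n, t, ht, hx.symm⟩

theorem pre_conn (g : M ≃ₜ M) (n : ℕ) {S : Set M} (hS : IsConnected S) :
    IsConnected ((g^[n]) ⁻¹' S) := by
  have h1 : (g.symm^[n]) '' S = (g^[n]) ⁻¹' S := by
    have h2 : image (g.symm^[n]) = preimage (g^[n]) := image_eq_preimage_of_inverse
      (fun x => g_symm_iter g n x) (fun x => g_symm_iter g.symm n x)
    rw [h2]
  rw [← h1]
  exact hS.image _ (g.symm.continuous.iterate n).continuousOn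

theorem side_conn (s : Bool) : IsConnected (Side s) := by
  cases s
  · simp only [Side, Bool.false_eq_true, if_false]
    exact isConnected_Ioo (by norm_num)
  · simp only [Side, if_true]
    exact isConnected_Ioo (by norm_num)

theorem side_open (s : Bool) : IsOpen (Side s) ∧ Side s ⊆ Ioo (-1 : ℝ) 1 := by
  cases s
  · simp only [Side, Bool.false_eq_true, if_false]
    exact ⟨isOpen_Ioo, Ioo_subset_Ioo (by norm_num) (by norm_num)⟩
  · simp only [Side, if_true]
    exact ⟨isOpen_Ioo, Ioo_subset_Ioo (by norm_num) (by norm_num)⟩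

theorem br_tend (H : Arc1 g q e h) (s : Bool) (x : M) (hx : x ∈ Br g e s) :
    Tendsto (fun n : ℕ => g^[n] x) atTop (𝓝 q) := by
  obtain ⟨n, t, ht, hx⟩ := hx
  rw [← tendsto_add_atTop_iff_nat n]
  have e1 : (fun m : ℕ => g^[m + n] x) = fun m : ℕ => e (h^[m] t) := by
    funext m
    rw [Function.iterate_add_apply, hx]
    exact (arc_iter H t (side_icc ht) m).1
  rw [e1, Metric.tendsto_atTop]
  intro ε hε
  obtain ⟨τ, hτ, -, hs⟩ := arc_small H ε hε
  obtain ⟨n0, hn0⟩ := exists_pow_lt_of_lt_one hτ (by norm_num : (1 / 2 : ℝ) < 1)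
  refine ⟨n0, fun m hm => hs _ ?_⟩
  have h1 := (arc_iter H t (side_icc ht) m).2.1
  have h2 : |t| ≤ 1 := abs_le.2 ⟨(side_icc ht).1, (side_icc ht).2⟩
  have h3 : ((1 : ℝ) / 2) ^ m ≤ (1 / 2) ^ n0 :=
    pow_le_pow_of_le_one (by norm_num) (by norm_num) hm
  have h4 : (0 : ℝ) < (1 / 2) ^ m := by positivity
  nlinarith [abs_nonneg t]

theorem br_disj (H : Arc1 g q e h) : Disjoint (Br g e true) (Br g e false) := by
  rw [Set.disjoint_left]
  rintro x ⟨n, t, ht, hx⟩ ⟨m, t', ht', hx'⟩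
  have h1 := (arc_iter H t (side_icc ht) m)
  have h2 := (arc_iter H t' (side_icc ht') n)
  rw [← hx, ← Function.iterate_add_apply] at h1
  rw [← hx', ← Function.iterate_add_apply, add_comm] at h2
  have h3 := H.ei h1.2.2 h2.2.2 (h1.1.symm.trans h2.1)
  have h4 := arc_side_iter H ht m
  have h5 := arc_side_iter H ht' n
  rw [h3, side_true] at h4
  rw [side_false] at h5
  linarith [h4.1, h5.2]

theorem br_first (H : Arc1 g q e h) : g q = q ∧
  (∀ s, IsOpen (Br g e s) ∧ IsConnected (Br g e s) ∧ (∀ x, x ∈ Br g e s ↔ g x ∈ Br g e s) ∧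
    q ∉ Br g e s ∧ q ∈ closure (Br g e s) ∧
    ∀ x ∈ Br g e s, Tendsto (fun n : ℕ => g^[n] x) atTop (𝓝 q)) ∧
  Disjoint (Br g e true) (Br g e false) ∧
  (∀ x, Tendsto (fun n : ℕ => g^[n] x) atTop (𝓝 q) → x = q ∨ ∃ s, x ∈ Br g e s) := by
  refine ⟨arc_fix H, ?_, br_disj H, ?_⟩
  · intro s
    refine ⟨?_, ?_, br_inv H s, ?_, ?_, br_tend H s⟩
    · rw [br_union]
      exact isOpen_iUnion fun n =>
        (H.eo _ (side_open s).2 (side_open s).1).preimage (g.continuous.iterate n)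
    · rw [br_union]
      apply IsConnected.iUnion_of_chain
      · intro n
        apply pre_conn
        exact (side_conn s).image e (H.ec.mono fun t ht => side_icc ht)
      · intro n
        obtain ⟨t, ht⟩ := (side_conn s).nonempty
        refine ⟨g.symm^[n] (e t), ?_, ?_⟩
        · change g^[n] (g.symm^[n] (e t)) ∈ e '' Side s
          rw [g_symm_iter]
          exact ⟨t, ht, rfl⟩
        · change g^[n + 1] (g.symm^[n] (e t)) ∈ e '' Side s
          rw [Function.iterate_succ_apply', g_symm_iter]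
          exact ⟨h t, arc_side H ht, H.eh t (side_icc ht)⟩
    · rintro ⟨n, t, ht, hx⟩
      rw [Function.iterate_fixed (arc_fix H), ← H.ep] at hx
      have h1 := H.ei (by norm_num) (side_icc ht) hx
      rw [← h1] at ht
      cases s
      · rw [side_false] at ht; exact lt_irrefl _ ht.2
      · rw [side_true] at ht; exact lt_irrefl _ ht.1
    · rw [Metric.mem_closure_iff]
      intro ε hε
      obtain ⟨τ, hτ, hτ1, hs⟩ := arc_small H ε hε
      cases s
      · refine ⟨e (-(τ / 2)), ⟨0, -(τ / 2), ?_, rfl⟩, ?_⟩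
        · rw [side_false]; exact ⟨by linarith, by linarith⟩
        · rw [dist_comm]
          apply hs
          rw [abs_neg, abs_of_pos (by linarith)]
          linarith
      · refine ⟨e (τ / 2), ⟨0, τ / 2, ?_, rfl⟩, ?_⟩
        · rw [side_true]; exact ⟨by linarith, by linarith⟩
        · rw [dist_comm]
          apply hs
          rw [abs_of_pos (by linarith)]
          linarith
  · intro x hx
    have h1 : e '' Ioo (-1 : ℝ) 1 ∈ 𝓝 q :=
      (H.eo _ subset_rfl isOpen_Ioo).mem_nhds ⟨0, by norm_num, H.ep⟩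
    obtain ⟨n, hn⟩ := (hx.eventually h1).exists
    rcases arc_br H _ hn with h2 | ⟨s, h2⟩
    · left
      have h3 : g^[n] x = g^[n] q := by rw [h2, Function.iterate_fixed (arc_fix H)]
      exact g.injective.iterate n h3
    · right
      exact ⟨s, (br_inv_iter H s n x).2 h2⟩

theorem br_last (H : Arc1 g q e h) (t : ℝ) (ht : 0 < t) (ht1 : t < h 1) :
    IsConnected (Br g e true \ e '' Ioo (-t) t) ∧ e t ∈ Br g e true \ e '' Ioo (-t) t := by
  have hh1 := H.h2 1 (by norm_num)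
  have hle : h 1 ≤ 1 / 2 := by
    have := (abs_le.1 hh1).2
    simpa using this
  have htle : t < 1 := by linarith
  have ivt : ∀ y ∈ Icc (0 : ℝ) (h 1), ∃ s ∈ Icc (0 : ℝ) 1, h s = y := by
    intro y hy
    have h1 := intermediate_value_Icc (zero_le_one (α := ℝ))
      (H.hc.mono (Icc_subset_Icc (by norm_num) le_rfl))
    rw [H.h0] at h1
    exact h1 hy
  have ivt' : ∀ y : ℝ, 0 < y → y < h 1 → ∃ s : ℝ, 0 < s ∧ s < 1 ∧ h s = y := by
    intro y hy1 hy2
    obtain ⟨s, hs, hsy⟩ := ivt y ⟨hy1.le, hy2.le⟩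
    refine ⟨s, lt_of_le_of_ne hs.1 ?_, lt_of_le_of_ne hs.2 ?_, hsy⟩
    · intro h0
      rw [← h0, H.h0] at hsy
      linarith
    · intro h0
      rw [h0] at hsy
      linarith
  have hset : Br g e true \ e '' Ioo (-t) t = ⋃ n : ℕ, (g^[n]) ⁻¹' (e '' Ico t 1) := by
    classical
    ext x
    rw [mem_iUnion]
    constructor
    · rintro ⟨⟨n, t', ht', hx⟩, hx2⟩
      have hex : ∃ n : ℕ, ∃ t' : ℝ, 0 < t' ∧ t' < 1 ∧ g^[n] x = e t' := by
        rw [side_true] at ht'
        exact ⟨n, t', ht'.1, ht'.2, hx⟩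
      obtain ⟨t1, h1, h2, h3⟩ := Nat.find_spec hex
      refine ⟨Nat.find hex, ?_⟩
      rcases lt_or_ge t1 t with h4 | h4
      · exfalso
        rcases Nat.eq_zero_or_pos (Nat.find hex) with h5 | h5
        · rw [h5] at h3
          exact hx2 ⟨t1, ⟨by linarith, h4⟩, h3.symm⟩
        · obtain ⟨m, hm⟩ : ∃ m, Nat.find hex = m + 1 := ⟨Nat.find hex - 1, by omega⟩
          rw [hm, Function.iterate_succ_apply'] at h3
          obtain ⟨s, hs1, hs2, hs3⟩ := ivt' t1 h1 (by linarith)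
          rw [← hs3, H.eh s ⟨by linarith, hs2.le⟩] at h3
          have h6 := g.injective h3
          exact Nat.find_min hex (m := m) (by omega) ⟨s, hs1, hs2, h6⟩
      · exact ⟨t1, ⟨h4, h2⟩, h3.symm⟩
    · rintro ⟨n, t', ht', hx⟩
      refine ⟨⟨n, t', ?_, hx.symm⟩, ?_⟩
      · rw [side_true]; exact ⟨by linarith [ht'.1], ht'.2⟩
      · rintro ⟨s, hs, rfl⟩
        have hs' : s ∈ Icc (-1 : ℝ) 1 := ⟨by linarith [hs.1], by linarith [hs.2]⟩
        obtain ⟨i1, i2, i3⟩ := arc_iter H s hs' n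
        rw [i1] at hx
        have h1 := H.ei ⟨by linarith [ht'.1], ht'.2.le⟩ i3 hx
        have h2 : |s| < t := abs_lt.2 hs
        have h3 : ((1 : ℝ) / 2) ^ n ≤ 1 := pow_le_one₀ (by norm_num) (by norm_num)
        have h4 : |h^[n] s| < t := by nlinarith [abs_nonneg s]
        have h5 := (abs_lt.1 h4).2
        rw [← h1] at h5
        linarith [ht'.1]
  constructor
  · rw [hset]
    apply IsConnected.iUnion_of_chain
    · intro n
      apply pre_conn
      exact (isConnected_Ico htle).image e (H.ec.mono fun s hs => ⟨by linarith [hs.1], hs.2.le⟩)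
    · intro n
      obtain ⟨s, hs1, hs2, hs3⟩ := ivt' ((h 1 + t) / 2) (by linarith) (by linarith)
      have hs4 : s ∈ Icc (-1 : ℝ) 1 := ⟨by linarith, hs2.le⟩
      have h5 := (abs_le.1 (H.h2 s hs4)).2
      rw [abs_of_pos hs1, hs3] at h5
      refine ⟨g.symm^[n] (e s), ?_, ?_⟩
      · change g^[n] (g.symm^[n] (e s)) ∈ e '' Ico t 1
        rw [g_symm_iter]
        exact ⟨s, ⟨by linarith, hs2⟩, rfl⟩
      · change g^[n + 1] (g.symm^[n] (e s)) ∈ e '' Ico t 1
        rw [Function.iterate_succ_apply', g_symm_iter]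
        exact ⟨h s, ⟨by rw [hs3]; linarith, by rw [hs3]; linarith⟩, H.eh s hs4⟩
  · refine ⟨⟨0, t, by rw [side_true]; exact ⟨ht, htle⟩, rfl⟩, ?_⟩
    rintro ⟨s, hs, hse⟩
    have := H.ei ⟨by linarith [hs.1], by linarith [hs.2]⟩ ⟨by linarith, htle.le⟩ hse
    linarith [hs.2]

/-- reflection -/
theorem arc_neg (H : Arc1 g q e h) : Arc1 g q (fun t => e (-t)) (fun t => -h (-t)) where
  ec := by
    apply H.ec.comp continuous_neg.continuousOn
    intro t ht
    exact ⟨by linarith [ht.2], by linarith [ht.1]⟩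
  ei := by
    intro s hs t ht hst
    have h1 : -s ∈ Icc (-1 : ℝ) 1 := ⟨by linarith [hs.2], by linarith [hs.1]⟩
    have h2 : -t ∈ Icc (-1 : ℝ) 1 := ⟨by linarith [ht.2], by linarith [ht.1]⟩
    have := H.ei h1 h2 hst
    linarith
  eo := by
    intro O hO hOo
    have h1 : (fun t => e (-t)) '' O = e '' (Neg.neg '' O) := by
      rw [← image_comp]
      rfl
    rw [h1]
    apply H.eo
    · rintro _ ⟨t, ht, rfl⟩
      have := hO ht
      exact ⟨by linarith [this.2], by linarith [this.1]⟩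
    · exact (Homeomorph.neg ℝ).isOpenMap O hOo
  ep := by simp [H.ep]
  hc := by
    apply ContinuousOn.neg
    apply H.hc.comp continuous_neg.continuousOn
    intro t ht
    exact ⟨by linarith [ht.2], by linarith [ht.1]⟩
  hm := by
    intro s hs t ht hst
    have h1 : -s ∈ Icc (-1 : ℝ) 1 := ⟨by linarith [hs.2], by linarith [hs.1]⟩
    have h2 : -t ∈ Icc (-1 : ℝ) 1 := ⟨by linarith [ht.2], by linarith [ht.1]⟩
    have := H.hm h2 h1 (by linarith)
    dsimp only
    linarith
  h0 := by simp [H.h0]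
  h2 := by
    intro t ht
    have := H.h2 (-t) ⟨by linarith [ht.2], by linarith [ht.1]⟩
    rw [abs_neg] at this ⊢
    exact this
  eh := by
    intro t ht
    rw [neg_neg]
    exact H.eh (-t) ⟨by linarith [ht.2], by linarith [ht.1]⟩

end

theorem t_BRA : S_BRA.{u} := by
  intro M _ g q e h H
  obtain ⟨b1, b2, b3, b4⟩ := br_first H
  refine ⟨b1, b2, b3, b4, ?_⟩
  have Hn := arc_neg H
  have p1 : 0 < h 1 := by
    have := H.hm (by norm_num : (0 : ℝ) ∈ Icc (-1 : ℝ) 1) (by norm_num : (1 : ℝ) ∈ Icc (-1 : ℝ) 1)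
      zero_lt_one
    rwa [H.h0] at this
  have p2 : 0 < -h (-1) := by
    have := H.hm (by norm_num : (-1 : ℝ) ∈ Icc (-1 : ℝ) 1) (by norm_num : (0 : ℝ) ∈ Icc (-1 : ℝ) 1)
      (by norm_num)
    rw [H.h0] at this
    linarith
  have p3 : h 1 ≤ 1 / 2 := by
    have := (abs_le.1 (H.h2 1 (by norm_num))).2
    simpa using this
  refine ⟨min (h 1) (-h (-1)), lt_min p1 p2, lt_of_le_of_lt (min_le_left _ _) (by linarith),
    fun t ht1 ht2 => ?_⟩
  obtain ⟨l1, l2⟩ := br_last H t ht1 (lt_of_lt_of_le ht2 (min_le_left _ _))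
  obtain ⟨r1, r2⟩ := br_last Hn t ht1 (lt_of_lt_of_le ht2 (min_le_right _ _))
  have e1 : Br g (fun t => e (-t)) true = Br g e false := by
    ext x
    constructor
    · rintro ⟨n, s, hs, hx⟩
      rw [side_true] at hs
      exact ⟨n, -s, by rw [side_false]; exact ⟨by linarith, by linarith⟩, hx⟩
    · rintro ⟨n, s, hs, hx⟩
      rw [side_false] at hs
      refine ⟨n, -s, by rw [side_true]; exact ⟨by linarith, by linarith⟩, ?_⟩
      change g^[n] x = e (-(-s))
      rw [neg_neg]; exact hx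
  have e2 : (fun t => e (-t)) '' Ioo (-t) t = e '' Ioo (-t) t := by
    ext x
    constructor
    · rintro ⟨s, hs, hx⟩
      exact ⟨-s, ⟨by linarith [hs.2], by linarith [hs.1]⟩, hx⟩
    · rintro ⟨s, hs, hx⟩
      refine ⟨-s, ⟨by linarith [hs.2], by linarith [hs.1]⟩, ?_⟩
      change e (-(-s)) = x
      rw [neg_neg]; exact hx
  rw [e1, e2] at r1 r2
  exact ⟨l1, l2, r1, r2⟩

end Pool.Agent.Q62.MS
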