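import Pool.Agent.Q62.MS.Stm

/-! Project MS (helper62): MS6. -/

set_option autoImplicit false

open Set Filter Topology TopologicalSpace Metric
open scoped Manifold ContDiff

universe u

namespace Pool.Agent.Q62.MS

section
variable {d : ℕ} {M : Type u} [MetricSpace M] [ChartedSpace (EE d) M] [IsManifold (𝓡 d) 1 M]

omit [IsManifold (𝓡 d) 1 M] in
theorem der_comp {f g : M → M} (hf : ContMDiff (𝓡 d) (𝓡 d) 1 f) (hg : ContMDiff (𝓡 d) (𝓡 d) 1 g)
    (x : M) : Der (d := d) (g ∘ f) x = (Der (d := d) g (f x)).comp (Der (d := d) f x) := by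
  have h1 : MDifferentiableAt (𝓡 d) (𝓡 d) g (f x) := (hg (f x)).mdifferentiableAt (by norm_num)
  have h2 : MDifferentiableAt (𝓡 d) (𝓡 d) f x := (hf x).mdifferentiableAt (by norm_num)
  exact mfderiv_comp x h1 h2

omit [IsManifold (𝓡 d) 1 M] in
theorem der_id (x : M) : Der (d := d) (id : M → M) x = ContinuousLinearMap.id ℝ (EE d) :=
  mfderiv_id

omit [IsManifold (𝓡 d) 1 M] in
theorem der_inv (g : M ≃ₜ M) (hg : ContMDiff (𝓡 d) (𝓡 d) 1 g)
    (hg' : ContMDiff (𝓡 d) (𝓡 d) 1 g.symm) (p : M) (hp : g p = p) :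
    (Der (d := d) g p).comp (Der (d := d) g.symm p) = ContinuousLinearMap.id ℝ (EE d) ∧
    (Der (d := d) g.symm p).comp (Der (d := d) g p) = ContinuousLinearMap.id ℝ (EE d) := by
  have hp' : g.symm p = p := by
    conv_rhs => rw [← g.symm_apply_apply p, hp]
  constructor
  · have h1 := der_comp (d := d) hg' hg p
    rw [hp', g.self_comp_symm, der_id] at h1
    exact h1.symm
  · have h1 := der_comp (d := d) hg hg' p
    rw [hp, g.symm_comp_self, der_id] at h1
    exact h1.symm

theorem loc_half (f : M → M) (hf : ContMDiff (𝓡 d) (𝓡 d) 1 f) (p : M) (hp : f p = p) :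
    ContDiffAt ℝ 1 (fun z : EE d => extChartAt (𝓡 d) p (f ((extChartAt (𝓡 d) p).symm
      (z + extChartAt (𝓡 d) p p))) - extChartAt (𝓡 d) p p) 0 ∧
    HasFDerivAt (fun z : EE d => extChartAt (𝓡 d) p (f ((extChartAt (𝓡 d) p).symm
      (z + extChartAt (𝓡 d) p p))) - extChartAt (𝓡 d) p p) (Der (d := d) f p) 0 ∧
    extChartAt (𝓡 d) p (f ((extChartAt (𝓡 d) p).symm
      ((0 : EE d) + extChartAt (𝓡 d) p p))) - extChartAt (𝓡 d) p p = 0 ∧
    ∀ᶠ z in 𝓝 (0 : EE d), (extChartAt (𝓡 d) p).symm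
      (extChartAt (𝓡 d) p (f ((extChartAt (𝓡 d) p).symm
      (z + extChartAt (𝓡 d) p p))) - extChartAt (𝓡 d) p p + extChartAt (𝓡 d) p p) =
      f ((extChartAt (𝓡 d) p).symm (z + extChartAt (𝓡 d) p p)) := by
  have h0 : (extChartAt (𝓡 d) p).symm (extChartAt (𝓡 d) p p) = p := extChartAt_to_inv p
  have hadd : ContDiffAt ℝ 1 (fun z : EE d => z + extChartAt (𝓡 d) p p) 0 := by fun_prop
  have hadd' : HasFDerivAt (fun z : EE d => z + extChartAt (𝓡 d) p p)
      (ContinuousLinearMap.id ℝ (EE d)) 0 := (hasFDerivAt_id _).add_const _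
  refine ⟨?_, ?_, ?_, ?_⟩
  · have h1 := (contMDiffAt_iff.1 (hf p)).2
    rw [hp, ModelWithCorners.range_eq_univ, contDiffWithinAt_univ] at h1
    have h2 : ContDiffAt ℝ 1 (extChartAt (𝓡 d) p ∘ f ∘ (extChartAt (𝓡 d) p).symm)
        ((0 : EE d) + extChartAt (𝓡 d) p p) := by rw [zero_add]; exact h1
    exact (h2.comp (0 : EE d) hadd).sub contDiffAt_const
  · have h1 : HasMFDerivAt (𝓡 d) (𝓡 d) f p (mfderiv (𝓡 d) (𝓡 d) f p) :=
      ((hf p).mdifferentiableAt (by norm_num)).hasMFDerivAt
    have h2 := h1.2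
    rw [ModelWithCorners.range_eq_univ, hasFDerivWithinAt_univ] at h2
    unfold writtenInExtChartAt at h2
    rw [hp] at h2
    have h3 : HasFDerivAt (extChartAt (𝓡 d) p ∘ f ∘ (extChartAt (𝓡 d) p).symm)
        (Der (d := d) f p) ((0 : EE d) + extChartAt (𝓡 d) p p) := by
      rw [zero_add]; exact h2
    have h4 := (h3.comp (0 : EE d) hadd').sub_const (extChartAt (𝓡 d) p p)
    rw [ContinuousLinearMap.comp_id] at h4
    exact h4
  · rw [zero_add, h0, hp, sub_self]
  · have hc : ContinuousAt (fun z : EE d => f ((extChartAt (𝓡 d) p).symm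
        (z + extChartAt (𝓡 d) p p))) 0 := by
      apply ContinuousAt.comp
      · exact hf.continuous.continuousAt
      · have h1 : ContinuousAt (extChartAt (𝓡 d) p).symm ((0 : EE d) + extChartAt (𝓡 d) p p) := by
          rw [zero_add]; exact continuousAt_extChartAt_symm p
        exact ContinuousAt.comp (f := fun z : EE d => z + extChartAt (𝓡 d) p p) h1
          hadd.continuousAt
    have h2 : (extChartAt (𝓡 d) p).source ∈ 𝓝 (f ((extChartAt (𝓡 d) p).symm
        ((0 : EE d) + extChartAt (𝓡 d) p p))) := by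
      rw [zero_add, h0, hp]
      exact extChartAt_source_mem_nhds p
    filter_upwards [hc.eventually h2] with z hz
    rw [sub_add_cancel]
    exact (extChartAt (𝓡 d) p).left_inv hz

end

theorem t_CHA : S_CHA.{u} := by
  intro d M _ _ _ g hg hg' p hp
  have hp' : g.symm p = p := by
    conv_rhs => rw [← g.symm_apply_apply p, hp]
  obtain ⟨i1, i2⟩ := der_inv g hg hg' p hp
  refine ⟨i1, i2, ?_⟩
  obtain ⟨R, hR, hR'⟩ : ∃ R : ℝ, 0 < R ∧ closedBall (extChartAt (𝓡 d) p p) R ⊆
      (extChartAt (𝓡 d) p).target :=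
    Metric.nhds_basis_closedBall.mem_iff.1 (extChartAt_target_mem_nhds p)
  obtain ⟨f1, f2, f3, f4⟩ := loc_half (d := d) g hg p hp
  obtain ⟨s1, s2, s3, s4⟩ := loc_half (d := d) g.symm hg' p hp'
  have hmem : ∀ z ∈ closedBall (0 : EE d) R, z + extChartAt (𝓡 d) p p ∈
      (extChartAt (𝓡 d) p).target := by
    intro z hz
    apply hR'
    rw [mem_closedBall, dist_eq_norm, add_sub_cancel_right]
    rwa [mem_closedBall_zero_iff] at hz
  refine ⟨fun z => (extChartAt (𝓡 d) p).symm (z + extChartAt (𝓡 d) p p),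
    fun z => extChartAt (𝓡 d) p (g ((extChartAt (𝓡 d) p).symm
      (z + extChartAt (𝓡 d) p p))) - extChartAt (𝓡 d) p p,
    fun z => extChartAt (𝓡 d) p (g.symm ((extChartAt (𝓡 d) p).symm
      (z + extChartAt (𝓡 d) p p))) - extChartAt (𝓡 d) p p, R, ?_⟩
  exact
    { R0 := hR
      ec := (continuousOn_extChartAt_symm p).comp (by fun_prop) hmem
      ei := by
        intro z hz z' hz' he
        have h1 := (extChartAt (𝓡 d) p).symm.injOn (hmem z hz) (hmem z' hz') he
        exact add_right_cancel h1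
      eo := by
        intro O hO hOo
        have h1 : (fun z : EE d => (extChartAt (𝓡 d) p).symm (z + extChartAt (𝓡 d) p p)) '' O =
            (extChartAt (𝓡 d) p).symm '' ((fun z => z + extChartAt (𝓡 d) p p) '' O) := by
          rw [← image_comp]
          rfl
        have h2 : (fun z => z + extChartAt (𝓡 d) p p) '' O ⊆ (extChartAt (𝓡 d) p).target := by
          rintro _ ⟨z, hz, rfl⟩
          exact hmem z (ball_subset_closedBall (hO hz))
        rw [h1, PartialEquiv.symm_image_eq_source_inter_preimage _ h2]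
        apply (continuousOn_extChartAt p).isOpen_inter_preimage (isOpen_extChartAt_source p)
        exact (Homeomorph.addRight (extChartAt (𝓡 d) p p)).isOpenMap O hOo
      ep := by
        change (extChartAt (𝓡 d) p).symm ((0 : EE d) + extChartAt (𝓡 d) p p) = p
        rw [zero_add]
        exact extChartAt_to_inv p
      f1 := f1
      f2 := f2
      f0 := f3
      s1 := s1
      s2 := s2
      s0 := s3
      ef := f4
      es := s4 }

end Pool.Agent.Q62.MS
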