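import Pool.Agent.Q62.MS.Par

/-! Project MS (helper62): MS23. -/

set_option autoImplicit false

open Set Filter Topology TopologicalSpace Metric

universe u

namespace Pool.Agent.Q62.MS

theorem conn_cl {M : Type u} [MetricSpace M] {b u v : Set M} (hb : IsPreconnected b)
    (hu : IsClosed u) (hv : IsClosed v) (huv : Disjoint u v) (h : b ⊆ u ∪ v)
    (hne : (b ∩ u).Nonempty) : b ⊆ u := by
  rcases isPreconnected_iff_subset_of_disjoint_closed.1 hb u v hu hv h
    (by rw [huv.inter_eq, inter_empty]) with h1 | h1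
  · exact h1
  · obtain ⟨x, hx, hx2⟩ := hne
    exact absurd (h1 hx) (Set.disjoint_left.1 huv hx2)

/-- the hypothesis for the counting argument -/
theorem cir_core (hB : S_BRA.{u}) (hP : S_PAR.{u}) {M : Type u} [MetricSpace M] [CompactSpace M]
    [LocallyConnectedSpace M] {g : M ≃ₜ M} {P Q : Finset M} {e : M → ℝ → M}
    {h : M → ℝ → ℝ} (H : Cyc g P Q e h) (q : M) (hq : q ∈ Q) (t : ℝ) (ht : 0 < t) (ht1 : t < 1)
    (hf : IsConnected (Br g (e q) false \ e q '' Ioo (-t) t))
    (hf' : e q (-t) ∈ Br g (e q) false \ e q '' Ioo (-t) t)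
    (htr : IsConnected (Br g (e q) true \ e q '' Ioo (-t) t))
    (htr' : e q t ∈ Br g (e q) true \ e q '' Ioo (-t) t)
    (u v : Set M) (hu : IsClosed u) (hv : IsClosed v) (huv : Disjoint u v)
    (hX : connectedComponent q \ e q '' Ioo (-t) t = u ∪ v)
    (ha : e q (-t) ∈ u) (hb : e q t ∈ v) : False := by
  classical
  haveI : Nonempty M := ⟨q⟩
  obtain ⟨P1, P2, P3, P4⟩ := hP hB M g P Q e h H
  have Hq := H.snk q hq
  obtain ⟨gq, bq1, bq2, bq3, -⟩ := hB M g q (e q) (h q) Hq
  have hCcl : IsClosed (connectedComponent q) := isClosed_connectedComponent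
  -- fixed points
  have gfixP : ∀ r ∈ P, g.symm r = r := fun r hr => (hB M g.symm r (e r) (h r) (H.src r hr)).1
  have gfixP' : ∀ r ∈ P, g r = r := by
    intro r hr
    conv_rhs => rw [← g.apply_symm_apply r, gfixP r hr]
  have gfixQ : ∀ r ∈ Q, g r = r := fun r hr => (hB M g r (e r) (h r) (H.snk r hr)).1
  -- connectedness of branches
  have hCb : ∀ (b : Set M) (r : M), IsConnected b → r ∈ closure b → b ⊆ connectedComponent r := by
    intro b r hb hr
    have h1 : IsConnected (insert r b) := hb.subset_closure (subset_insert r b)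
      (insert_subset hr subset_closure)
    exact (subset_insert r b).trans
      (h1.isPreconnected.subset_connectedComponent (mem_insert r b))
  -- a fixed point which is not `q` is not in the arc
  have hfixarc : ∀ r, g r = r → r ≠ q → r ∉ e q '' Icc (-t) t := by
    rintro r hr hrq ⟨s, hs, rfl⟩
    apply hrq
    apply fix_eq hr
    have hs' : s ∈ Icc (-1 : ℝ) 1 := ⟨by linarith [hs.1], by linarith [hs.2]⟩
    rcases arc_br Hq (e q s) ⟨s, ⟨by linarith [hs.1], by linarith [hs.2]⟩, rfl⟩ with h1 | ⟨s', h1⟩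
    · exact absurd h1 hrq
    · exact (bq1 s').2.2.2.2.2 _ h1
  have hpq : ∀ r ∈ P, r ≠ q := fun r hr hh => H.dis r hr (hh ▸ hq)
  have harc : IsClosed (e q '' Icc (-t) t) := by
    apply IsCompact.isClosed
    apply isCompact_Icc.image_of_continuousOn
    exact Hq.ec.mono (Icc_subset_Icc (by linarith) ht1.le)
  -- the sources of the two branches at `q`
  have hend : ∀ (s : Bool) (w w' : Set M), IsClosed w → IsClosed w' → Disjoint w w' →
      connectedComponent q \ e q '' Ioo (-t) t = w ∪ w' →
      IsConnected (Br g (e q) s \ e q '' Ioo (-t) t) →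
      (∃ x ∈ Br g (e q) s \ e q '' Ioo (-t) t, x ∈ w) → ∀ p ∈ P, p ∈ closure (Br g (e q) s) →
      p ∈ w := by
    intro s w w' hw hw' hww hXw hcon hx p hp hpcl
    obtain ⟨x, hx1, hx2⟩ := hx
    have h1 : Br g (e q) s \ e q '' Ioo (-t) t ⊆ w := by
      apply conn_cl hcon.isPreconnected hw hw' hww
      · rw [← hXw]
        exact diff_subset_diff_left (hCb _ q (bq1 s).2.1 (bq1 s).2.2.2.2.1)
      · exact ⟨x, hx1, hx2⟩
    have h2 : p ∈ closure ((e q '' Icc (-t) t)ᶜ ∩ Br g (e q) s) :=
      harc.isOpen_compl.inter_closure ⟨hfixarc p (gfixP' p hp) (hpq p hp), hpcl⟩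
    have h3 : (e q '' Icc (-t) t)ᶜ ∩ Br g (e q) s ⊆ w := by
      refine Subset.trans ?_ h1
      rintro y ⟨hy1, hy2⟩
      exact ⟨hy2, fun hy3 => hy1 (image_mono Ioo_subset_Icc_self hy3)⟩
    exact (closure_minimal h3 hw) h2
  obtain ⟨pa, hpa, sa, hea⟩ := P2 q hq false
  obtain ⟨pb, hpb, sb, heb⟩ := P2 q hq true
  have hclP : ∀ p ∈ P, ∀ s, p ∈ closure (Br g.symm (e p) s) := fun p hp s =>
    ((hB M g.symm p (e p) (h p) (H.src p hp)).2.1 s).2.2.2.2.1
  have hpaU : pa ∈ u := by
    apply hend false u v hu hv huv hX hf ⟨_, hf', ha⟩ pa hpa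
    rw [hea]
    exact hclP pa hpa sa
  have hpbV : pb ∈ v := by
    apply hend true v u hv hu huv.symm (by rw [hX, union_comm]) htr ⟨_, htr', hb⟩ pb hpb
    rw [heb]
    exact hclP pb hpb sb
  have hqX : q ∉ u ∪ v := by
    rw [← hX]
    intro hh
    exact hh.2 ⟨0, ⟨by linarith, ht⟩, Hq.ep⟩
  -- other branches
  have hother : ∀ p ∈ P, ∀ s, ∀ q' ∈ Q, ∀ s', Br g.symm (e p) s = Br g (e q') s' → q' ≠ q →
      (p ∈ u ↔ q' ∈ u) := by
    intro p hp s q' hq' s' hbr hne
    obtain ⟨-, z1, -, -, -⟩ := hB M g q' (e q') (h q') (H.snk q' hq')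
    obtain ⟨v1, v2, v3, v4, v5, v6⟩ := z1 s'
    have hpcl : p ∈ closure (Br g (e q') s') := by rw [← hbr]; exact hclP p hp s
    have hcon : IsConnected (insert p (insert q' (Br g (e q') s'))) := by
      apply v2.subset_closure
      · exact (subset_insert _ _).trans (subset_insert _ _)
      · exact insert_subset hpcl (insert_subset v5 subset_closure)
    have hdis : ∀ x ∈ insert p (insert q' (Br g (e q') s')), x ∉ e q '' Ioo (-t) t := by
      rintro x hx hxV
      rcases hx with hx | hx | hx
      · rw [hx] at hxV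
        exact hfixarc p (gfixP' p hp) (hpq p hp) (image_mono Ioo_subset_Icc_self hxV)
      · rw [hx] at hxV
        exact hfixarc q' (gfixQ q' hq') hne (image_mono Ioo_subset_Icc_self hxV)
      · rcases arc_br Hq x (image_mono (Ioo_subset_Ioo (by linarith) ht1.le) hxV) with h1 | ⟨s2, h1⟩
        · rw [h1] at hx
          exact hne (fix_eq gq (v6 q hx)).symm
        · exact hne (P4 q' hq' q hq s' s2 ⟨x, hx, h1⟩).1
    have hmain : ∀ y ∈ insert p (insert q' (Br g (e q') s')), y ∈ u →
        insert p (insert q' (Br g (e q') s')) ⊆ u := by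
      intro y hy hyu
      apply conn_cl hcon.isPreconnected hu hv huv _ ⟨y, hy, hyu⟩
      intro x hx
      rw [← hX]
      refine ⟨?_, hdis x hx⟩
      have h1 := hcon.isPreconnected.subset_connectedComponent hy hx
      have h2 : y ∈ connectedComponent q := by
        have : y ∈ u ∪ v := Or.inl hyu
        rw [← hX] at this
        exact this.1
      rwa [connectedComponent_eq h2]
    constructor
    · intro hpu
      exact hmain p (mem_insert _ _) hpu (mem_insert_of_mem _ (mem_insert _ _))
    · intro hqu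
      exact hmain q' (mem_insert_of_mem _ (mem_insert _ _)) hqu (mem_insert _ _)
  -- counting
  choose! F hF G hG using P1
  have hcard : ((P.filter (· ∈ u)) ×ˢ (Finset.univ : Finset Bool)).card =
      (insert (q, false) ((Q.filter (· ∈ u)) ×ˢ (Finset.univ : Finset Bool))).card := by
    apply Finset.card_bij (fun r _ => (F r.1 r.2, G r.1 r.2))
    · rintro ⟨p, s⟩ hr
      rw [Finset.mem_product, Finset.mem_filter] at hr
      obtain ⟨⟨hp, hpu⟩, -⟩ := hr
      dsimp only at hp hpu ⊢
      rw [Finset.mem_insert, Finset.mem_product, Finset.mem_filter]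
      by_cases hh : F p s = q
      · left
        rw [Prod.mk.injEq]
        refine ⟨hh, ?_⟩
        by_contra hne
        have hne' : G p s = true := by simpa using hne
        have h1 := hG p hp s
        rw [hh, hne', heb] at h1
        obtain ⟨x, hx⟩ := ((hB M g.symm p (e p) (h p) (H.src p hp)).2.1 s).2.1.nonempty
        have h2 := (P3 p hp pb hpb s sb ⟨x, hx, h1 ▸ hx⟩).1
        exact Set.disjoint_left.1 huv hpu (h2 ▸ hpbV)
      · right
        exact ⟨⟨hF p hp s, (hother p hp s _ (hF p hp s) _ (hG p hp s) hh).1 hpu⟩,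
          Finset.mem_univ _⟩
    · rintro ⟨p, s⟩ hr ⟨p', s'⟩ hr' heq
      rw [Finset.mem_product, Finset.mem_filter] at hr hr'
      dsimp only at hr hr' heq
      rw [Prod.mk.injEq] at heq
      have h1 := hG p hr.1.1 s
      have h2 := hG p' hr'.1.1 s'
      rw [heq.1, heq.2, ← h2] at h1
      obtain ⟨x, hx⟩ := ((hB M g.symm p (e p) (h p) (H.src p hr.1.1)).2.1 s).2.1.nonempty
      obtain ⟨e1, e2⟩ := P3 p hr.1.1 p' hr'.1.1 s s' ⟨x, hx, h1 ▸ hx⟩
      rw [e1, e2]
    · rintro ⟨q', s'⟩ hr
      rw [Finset.mem_insert, Finset.mem_product, Finset.mem_filter] at hr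
      rcases hr with hr | hr
      · rw [Prod.mk.injEq] at hr
        refine ⟨(pa, sa), ?_, ?_⟩
        · rw [Finset.mem_product, Finset.mem_filter]
          exact ⟨⟨hpa, hpaU⟩, Finset.mem_univ _⟩
        · have h1 := hG pa hpa sa
          rw [← hea] at h1
          obtain ⟨x, hx⟩ := (bq1 false).2.1.nonempty
          obtain ⟨e1, e2⟩ := P4 q hq _ (hF pa hpa sa) false _ ⟨x, hx, h1 ▸ hx⟩
          dsimp only
          rw [← e1, ← e2, hr.1, hr.2]
      · dsimp only at hr
        obtain ⟨⟨hq', hqu⟩, -⟩ := hr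
        have hne : q' ≠ q := fun hh => hqX (Or.inl (hh ▸ hqu))
        obtain ⟨p, hp, s, hps⟩ := P2 q' hq' s'
        refine ⟨(p, s), ?_, ?_⟩
        · rw [Finset.mem_product, Finset.mem_filter]
          exact ⟨⟨hp, (hother p hp s q' hq' s' hps.symm hne).2 hqu⟩, Finset.mem_univ _⟩
        · have h1 := hG p hp s
          rw [← hps] at h1
          obtain ⟨x, hx⟩ := ((hB M g q' (e q') (h q') (H.snk q' hq')).2.1 s').2.1.nonempty
          obtain ⟨e1, e2⟩ := P4 q' hq' _ (hF p hp s) s' _ ⟨x, hx, h1 ▸ hx⟩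
          dsimp only
          rw [← e1, ← e2]
  rw [Finset.card_insert_of_notMem, Finset.card_product, Finset.card_product] at hcard
  · simp only [Finset.card_univ, Fintype.card_bool] at hcard
    omega
  · rw [Finset.mem_product, Finset.mem_filter]
    rintro ⟨⟨-, h1⟩, -⟩
    exact hqX (Or.inl h1)

theorem t_CIR : S_CIR.{u} := by
  intro hB hP M _ _ _ g P Q e h H q hq
  have Hq := H.snk q hq
  obtain ⟨gq, bq1, bq2, bq3, t0, ht0, ht01, ht⟩ := hB M g q (e q) (h q) Hq
  refine ⟨t0, ht0, ht01, fun t ht1 ht2 => ?_⟩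
  have htle : t < 1 := by linarith
  obtain ⟨a1, a2, a3, a4⟩ := ht t ht1 ht2
  have hCcl : IsClosed (connectedComponent q) := isClosed_connectedComponent
  have hCo : IsOpen (connectedComponent q) := isOpen_connectedComponent
  have hVo : IsOpen (e q '' Ioo (-t) t) :=
    Hq.eo _ (Ioo_subset_Ioo (by linarith) htle.le) isOpen_Ioo
  have hXcl : IsClosed (connectedComponent q \ e q '' Ioo (-t) t) :=
    hCcl.inter hVo.isClosed_compl
  have hCb : ∀ s, Br g (e q) s ⊆ connectedComponent q := by
    intro s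
    have h1 : IsConnected (insert q (Br g (e q) s)) :=
      (bq1 s).2.1.subset_closure (subset_insert q _)
      (insert_subset (bq1 s).2.2.2.2.1 subset_closure)
    exact (subset_insert q _).trans
      (h1.isPreconnected.subset_connectedComponent (mem_insert q _))
  have hbX : e q t ∈ connectedComponent q \ e q '' Ioo (-t) t := ⟨hCb true a2.1, a2.2⟩
  have haX : e q (-t) ∈ connectedComponent q \ e q '' Ioo (-t) t := ⟨hCb false a4.1, a4.2⟩
  refine ⟨⟨_, hbX⟩, ?_⟩
  rw [isPreconnected_iff_subset_of_fully_disjoint_closed hXcl]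
  -- symmetric statement
  have key : ∀ u v : Set M, IsClosed u → IsClosed v → Disjoint u v →
      connectedComponent q \ e q '' Ioo (-t) t = u ∪ v → e q (-t) ∈ u → v = ∅ := by
    intro u v hu hv huv hX ha
    by_cases hb : e q t ∈ v
    · exact absurd (cir_core hB hP H q hq t ht1 htle a3 a4 a1 a2 u v hu hv huv hX ha hb) not_false
    · by_contra hne
      have hvo : v = connectedComponent q ∩ (uᶜ ∩ (e q '' Icc (-t) t)ᶜ) := by
        ext x
        constructor
        · intro hx
          have h1 : x ∈ connectedComponent q \ e q '' Ioo (-t) t := by rw [hX]; exact Or.inr hx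
          refine ⟨h1.1, fun hh => Set.disjoint_left.1 huv hh hx, ?_⟩
          rintro ⟨s, hs, rfl⟩
          rcases eq_or_lt_of_le hs.1 with h2 | h2
          · rw [← h2] at hx
            exact Set.disjoint_left.1 huv ha hx
          · rcases eq_or_lt_of_le hs.2 with h3 | h3
            · rw [h3] at hx
              exact hb hx
            · exact h1.2 ⟨s, ⟨h2, h3⟩, rfl⟩
        · rintro ⟨h1, h2, h3⟩
          have h4 : x ∈ u ∪ v := by
            rw [← hX]
            exact ⟨h1, fun hh => h3 (image_mono Ioo_subset_Icc_self hh)⟩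
          exact h4.resolve_left h2
      have harc : IsClosed (e q '' Icc (-t) t) := by
        apply IsCompact.isClosed
        apply isCompact_Icc.image_of_continuousOn
        exact Hq.ec.mono (Icc_subset_Icc (by linarith) htle.le)
      have hvop : IsOpen v := by
        rw [hvo]
        exact hCo.inter (hu.isOpen_compl.inter harc.isOpen_compl)
      obtain ⟨x, hx⟩ := nonempty_iff_ne_empty.2 hne
      have hxC : x ∈ connectedComponent q := by rw [hvo] at hx; exact hx.1
      have h1 : connectedComponent q ⊆ v :=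
        isPreconnected_connectedComponent.subset_isClopen ⟨hv, hvop⟩ ⟨x, hxC, hx⟩
      have h2 : q ∈ u ∪ v := Or.inr (h1 mem_connectedComponent)
      rw [← hX] at h2
      exact h2.2 ⟨0, ⟨by linarith, ht1⟩, Hq.ep⟩
  intro u v hu hv hsub huv
  have hX : connectedComponent q \ e q '' Ioo (-t) t =
      (connectedComponent q \ e q '' Ioo (-t) t) ∩ u ∪
      (connectedComponent q \ e q '' Ioo (-t) t) ∩ v := by
    rw [← inter_union_distrib_left]
    exact (inter_eq_left.2 hsub).symm
  have hd : Disjoint ((connectedComponent q \ e q '' Ioo (-t) t) ∩ u)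
      ((connectedComponent q \ e q '' Ioo (-t) t) ∩ v) :=
    huv.mono inter_subset_right inter_subset_right
  rcases hsub haX with h1 | h1
  · left
    have h2 := key _ _ (hXcl.inter hu) (hXcl.inter hv) hd hX ⟨haX, h1⟩
    rw [h2, union_empty] at hX
    rw [hX]
    exact inter_subset_right
  · right
    have h2 := key _ _ (hXcl.inter hv) (hXcl.inter hu) hd.symm (by rw [union_comm]; exact hX)
      ⟨haX, h1⟩
    rw [h2, empty_union] at hX
    rw [hX]
    exact inter_subset_right

end Pool.Agent.Q62.MS
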