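import Pool.Agent.Q62.MS.Nbh

/-! Project MS (helper62): MS13. -/

set_option autoImplicit false

open Set Filter Topology TopologicalSpace Metric

universe u

namespace Pool.Agent.Q62.MS

/-- coordinates in the fundamental domain -/
noncomputable def Phi {d : ℕ} (r : ℝ) (ρ : EE d → ℝ) (ξ : EE d) (t : ℝ) : EE d :=
  ((1 - t) * r + t * ρ ξ) • ξ

/-- the data of the fundamental domain -/
structure Fund {d : ℕ} {M : Type u} [MetricSpace M] (g : M ≃ₜ M) (p : M) (e : EE d → M)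
    (h : EE d → EE d) (R c r : ℝ) (ρ : EE d → ℝ) : Prop where
  H : RadMod g p e h R c
  hr : 0 < r
  hrR : r < R
  rep : Rep g p (e '' closedBall 0 r)
  k3 : ∀ w ∈ closedBall (0 : EE d) r, ∃ z ∈ ball (0 : EE d) R, h z = w ∧ e z = g (e w)
  k4 : ∀ z ∈ closedBall (0 : EE d) R, e z ∈ interior (e '' closedBall 0 r) → ‖z‖ < r
  rc : ContinuousOn ρ (sphere 0 1)
  r1 : ∀ ξ : EE d, ‖ξ‖ = 1 → r < ρ ξ ∧ ρ ξ < R ∧ ‖h (ρ ξ • ξ)‖ = r ∧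
    ∀ s ∈ Icc 0 R, (‖h (s • ξ)‖ ≤ r ↔ s ≤ ρ ξ)

section
variable {d : ℕ} {M : Type u} [MetricSpace M] {g : M ≃ₜ M} {p : M} {e : EE d → M}
  {h : EE d → EE d} {R c r : ℝ} {ρ : EE d → ℝ}

theorem phi_norm (F : Fund g p e h R c r ρ) (ξ : EE d) (hξ : ‖ξ‖ = 1) (t : ℝ)
    (ht : t ∈ Icc (0 : ℝ) 1) : ‖Phi r ρ ξ t‖ = (1 - t) * r + t * ρ ξ ∧
      r ≤ (1 - t) * r + t * ρ ξ ∧ (1 - t) * r + t * ρ ξ ≤ ρ ξ := by
  have h1 := (F.r1 ξ hξ).1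
  have h2 : 0 ≤ (1 - t) * r := mul_nonneg (by linarith [ht.2]) F.hr.le
  have h3 : 0 ≤ t * ρ ξ := mul_nonneg ht.1 (by linarith [F.hr])
  refine ⟨?_, ?_, ?_⟩
  · unfold Phi
    rw [norm_smul, hξ, mul_one, Real.norm_eq_abs, abs_of_nonneg (by linarith)]
  · nlinarith [ht.1, ht.2]
  · nlinarith [ht.1, ht.2]

theorem phi_ball (F : Fund g p e h R c r ρ) (ξ : EE d) (hξ : ‖ξ‖ = 1) (t : ℝ)
    (ht : t ∈ Icc (0 : ℝ) 1) : Phi r ρ ξ t ∈ ball (0 : EE d) R := by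
  obtain ⟨h1, h2, h3⟩ := phi_norm F ξ hξ t ht
  rw [mem_ball_zero_iff, h1]
  linarith [(F.r1 ξ hξ).2.1]

theorem phi_h (F : Fund g p e h R c r ρ) (ξ : EE d) (hξ : ‖ξ‖ = 1) (t : ℝ)
    (ht : t ∈ Icc (0 : ℝ) 1) : ‖h (Phi r ρ ξ t)‖ ≤ r := by
  obtain ⟨h1, h2, h3⟩ := phi_norm F ξ hξ t ht
  have h4 := F.r1 ξ hξ
  have := F.hr
  exact (h4.2.2.2 _ ⟨by linarith, by linarith [h4.2.1]⟩).2 h3

theorem phi_inj (F : Fund g p e h R c r ρ) (ξ ξ' : EE d) (hξ : ‖ξ‖ = 1) (hξ' : ‖ξ'‖ = 1)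
    (t t' : ℝ) (ht : t ∈ Icc (0 : ℝ) 1) (ht' : t' ∈ Icc (0 : ℝ) 1)
    (he : Phi r ρ ξ t = Phi r ρ ξ' t') : ξ = ξ' ∧ t = t' := by
  obtain ⟨h1, h2, h3⟩ := phi_norm F ξ hξ t ht
  obtain ⟨h1', h2', h3'⟩ := phi_norm F ξ' hξ' t' ht'
  have h4 : (1 - t) * r + t * ρ ξ = (1 - t') * r + t' * ρ ξ' := by rw [← h1, ← h1', he]
  have hpos : 0 < (1 - t) * r + t * ρ ξ := lt_of_lt_of_le F.hr h2
  have h5 : ξ = ξ' := by
    unfold Phi at he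
    rw [← h4] at he
    exact smul_right_injective _ hpos.ne' he
  refine ⟨h5, ?_⟩
  rw [← h5] at h4
  have h6 := (F.r1 ξ hξ).1
  have h7 : (t - t') * (ρ ξ - r) = 0 := by linarith
  rcases mul_eq_zero.1 h7 with h8 | h8 <;> linarith

theorem phi_surj (F : Fund g p e h R c r ρ) (z : EE d) (hz : r < ‖z‖) (hzR : ‖z‖ < R)
    (hh : ‖h z‖ ≤ r) : ∃ ξ : EE d, ‖ξ‖ = 1 ∧ ∃ t ∈ Icc (0 : ℝ) 1, 0 < t ∧ z = Phi r ρ ξ t ∧
      (‖h z‖ < r → t < 1) ∧ (‖h z‖ = r → t = 1) := by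
  have hzn : 0 < ‖z‖ := lt_trans F.hr hz
  obtain ⟨ξ, hξd⟩ : ∃ ξ : EE d, ξ = ‖z‖⁻¹ • z := ⟨_, rfl⟩
  have hξ : ‖ξ‖ = 1 := by rw [hξd, norm_smul, norm_inv, norm_norm, inv_mul_cancel₀ hzn.ne']
  have hz1 : z = ‖z‖ • ξ := by rw [hξd, smul_smul, mul_inv_cancel₀ hzn.ne', one_smul]
  obtain ⟨q1, q2, q3, q4⟩ := F.r1 ξ hξ
  have h1 : ‖z‖ ≤ ρ ξ := (q4 ‖z‖ ⟨hzn.le, hzR.le⟩).1 (by rw [← hz1]; exact hh)
  have hD : 0 < ρ ξ - r := by linarith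
  refine ⟨ξ, hξ, (‖z‖ - r) / (ρ ξ - r), ⟨div_nonneg (by linarith) hD.le, ?_⟩, ?_, ?_, ?_, ?_⟩
  · rw [div_le_one hD]; linarith
  · exact div_pos (by linarith) hD
  · unfold Phi
    have h2 : (1 - (‖z‖ - r) / (ρ ξ - r)) * r + (‖z‖ - r) / (ρ ξ - r) * ρ ξ = ‖z‖ := by
      field_simp
      ring
    rw [h2]
    exact hz1
  · intro h2
    rw [div_lt_one hD]
    have h3 : ‖z‖ ≠ ρ ξ := by
      intro h4
      rw [← h4, ← hz1] at q3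
      linarith
    have h4 := lt_of_le_of_ne h1 h3
    linarith
  · intro h2
    rw [div_eq_one_iff_eq hD.ne']
    have m1 : ‖z‖ ∈ Icc 0 R := ⟨hzn.le, hzR.le⟩
    have m2 : ρ ξ ∈ Icc 0 R := ⟨by linarith, q2.le⟩
    have m3 : (fun s : ℝ => ‖h (s • ξ)‖) ‖z‖ = (fun s : ℝ => ‖h (s • ξ)‖) (ρ ξ) := by
      change ‖h (‖z‖ • ξ)‖ = ‖h (ρ ξ • ξ)‖
      rw [← hz1, h2, q3]
    have h3 := (F.H.mono ξ hξ).injOn m1 m2 m3
    rw [h3]

theorem phi_lev0 (ξ : EE d) : Phi r ρ ξ 0 = r • ξ := by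
  unfold Phi
  congr 1
  ring

/-- continuity along curves -/
theorem phi_cont (F : Fund g p e h R c r ρ) (P : ℝ → EE d) (T : ℝ → ℝ) (hP : Continuous P)
    (hP1 : ∀ t, ‖P t‖ = 1) (hT : Continuous T) : Continuous fun t => Phi r ρ (P t) (T t) := by
  have h1 : Continuous fun t => ρ (P t) :=
    F.rc.comp_continuous hP (fun t => by rw [mem_sphere_zero_iff_norm]; exact hP1 t)
  unfold Phi
  exact (((continuous_const.sub hT).mul continuous_const).add (hT.mul h1)).smul hP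

/-- index set of an arm -/
def Arm {d : ℕ} (P γ : ℝ → EE d) (t1 : ℝ) : Set (EE d × ℝ) :=
  (fun t => (P t, t)) '' Icc 0 1 ∪ (fun s => (γ s, t1)) '' Icc 0 1

/-- the arm in `M` -/
def ArmM {d : ℕ} {M : Type u} (e : EE d → M) (r : ℝ) (ρ : EE d → ℝ) (P γ : ℝ → EE d) (t1 : ℝ) :
    Set M := (fun x : EE d × ℝ => e (Phi r ρ x.1 x.2)) '' Arm P γ t1

theorem arm_unit {P γ : ℝ → EE d} {t1 : ℝ} (hP : ∀ t, ‖P t‖ = 1) (hγ : ∀ t, ‖γ t‖ = 1)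
    (ht : t1 ∈ Icc (0 : ℝ) 1) : ∀ x ∈ Arm P γ t1, ‖x.1‖ = 1 ∧ x.2 ∈ Icc (0 : ℝ) 1 := by
  rintro x (⟨t, ht', rfl⟩ | ⟨s, hs, rfl⟩)
  · exact ⟨hP t, ht'⟩
  · exact ⟨hγ s, ht⟩

theorem arm_cpt (F : Fund g p e h R c r ρ) (P γ : ℝ → EE d) (t1 : ℝ) (hP : Continuous P)
    (hP1 : ∀ t, ‖P t‖ = 1) (hγ : Continuous γ) (hγ1 : ∀ t, ‖γ t‖ = 1)
    (ht : t1 ∈ Icc (0 : ℝ) 1) (h0 : γ 0 = P t1) :
    IsCompact (ArmM e r ρ P γ t1) ∧ IsConnected (ArmM e r ρ P γ t1) := by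
  have e1 : ArmM e r ρ P γ t1 = (fun t => e (Phi r ρ (P t) t)) '' Icc 0 1 ∪
      (fun s => e (Phi r ρ (γ s) t1)) '' Icc 0 1 := by
    unfold ArmM Arm
    rw [image_union, ← image_comp, ← image_comp]
    rfl
  have c1 : ContinuousOn (fun t => e (Phi r ρ (P t) t)) (Icc 0 1) := by
    apply F.H.ec.comp (phi_cont F P (fun t => t) hP hP1 continuous_id).continuousOn
    intro t ht'
    exact ball_subset_closedBall (phi_ball F _ (hP1 t) t ht')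
  have c2 : ContinuousOn (fun s => e (Phi r ρ (γ s) t1)) (Icc 0 1) := by
    apply F.H.ec.comp (phi_cont F γ (fun _ => t1) hγ hγ1 continuous_const).continuousOn
    intro t ht'
    exact ball_subset_closedBall (phi_ball F _ (hγ1 t) t1 ht)
  rw [e1]
  constructor
  · exact (isCompact_Icc.image_of_continuousOn c1).union (isCompact_Icc.image_of_continuousOn c2)
  · apply IsConnected.union
    · refine ⟨e (Phi r ρ (P t1) t1), ⟨t1, ht, rfl⟩, ⟨0, ⟨le_rfl, zero_le_one⟩, ?_⟩⟩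
      dsimp only
      rw [h0]
    · exact (isConnected_Icc zero_le_one).image _ c1
    · exact (isConnected_Icc zero_le_one).image _ c2

theorem arm_p (F : Fund g p e h R c r ρ) (I : Set (EE d × ℝ))
    (hI : ∀ x ∈ I, ‖x.1‖ = 1 ∧ x.2 ∈ Icc (0 : ℝ) 1) :
    p ∉ (fun x : EE d × ℝ => e (Phi r ρ x.1 x.2)) '' I := by
  rintro ⟨x, hx, hxe⟩
  obtain ⟨h1, h2⟩ := hI x hx
  dsimp only at hxe
  rw [← F.H.ep] at hxe
  have h3 := F.H.ei (ball_subset_closedBall (phi_ball F _ h1 _ h2))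
    (mem_closedBall_self F.H.R0.le) hxe
  have h4 := phi_norm F _ h1 _ h2
  rw [h3, norm_zero] at h4
  linarith [F.hr, h4.1, h4.2.1]

theorem arm_w (F : Fund g p e h R c r ρ) (I : Set (EE d × ℝ))
    (hI : ∀ x ∈ I, ‖x.1‖ = 1 ∧ x.2 ∈ Icc (0 : ℝ) 1) :
    ∀ y ∈ (fun x : EE d × ℝ => e (Phi r ρ x.1 x.2)) '' I, g.symm y ∈ e '' closedBall 0 r := by
  rintro y ⟨x, hx, rfl⟩
  obtain ⟨h1, h2⟩ := hI x hx
  refine ⟨h (Phi r ρ x.1 x.2), ?_, F.H.eh _ (ball_subset_closedBall (phi_ball F _ h1 _ h2))⟩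
  rw [mem_closedBall_zero_iff]
  exact phi_h F _ h1 _ h2

/-- dynamical exclusion -/
theorem arm_excl (F : Fund g p e h R c r ρ) (I J : Set (EE d × ℝ))
    (hI : ∀ x ∈ I, ‖x.1‖ = 1 ∧ x.2 ∈ Icc (0 : ℝ) 1)
    (hJ : ∀ x ∈ J, ‖x.1‖ = 1 ∧ x.2 ∈ Icc (0 : ℝ) 1) (hIJ : ∀ x ∈ I, x ∉ J) (a a' : EE d)
    (ha' : ‖a'‖ = 1) (hga : g (e (r • a)) = e (Phi r ρ a' 1)) (hIa : ∀ x ∈ I, x.2 = 0 → x.1 = a)
    (hJa : ∀ x ∈ J, x.2 = 1 → x.1 ≠ a') :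
    ∀ n : ℕ, ∀ x ∈ (fun x : EE d × ℝ => e (Phi r ρ x.1 x.2)) '' I,
      g^[n] x ∉ (fun x : EE d × ℝ => e (Phi r ρ x.1 x.2)) '' J := by
  rintro n y ⟨x, hx, rfl⟩ hmem
  obtain ⟨h1, h2⟩ := hI x hx
  have hxb := ball_subset_closedBall (phi_ball F _ h1 _ h2)
  rcases Nat.eq_zero_or_pos n with h0 | h0
  · rw [h0] at hmem
    obtain ⟨x', hx', hxe⟩ := hmem
    obtain ⟨h1', h2'⟩ := hJ x' hx'
    have h3 := F.H.ei (ball_subset_closedBall (phi_ball F _ h1' _ h2')) hxb hxe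
    obtain ⟨h4, h5⟩ := phi_inj F _ _ h1' h1 _ _ h2' h2 h3
    apply hIJ x hx
    have : x' = x := Prod.ext h4 h5
    rw [← this]; exact hx'
  · obtain ⟨m, rfl⟩ : ∃ m, n = m + 1 := ⟨n - 1, by omega⟩
    have hU := arm_w F J hJ _ hmem
    rw [Function.iterate_succ_apply', g.symm_apply_apply] at hU
    rcases Nat.eq_zero_or_pos m with h3 | h3
    · rw [h3] at hU hmem
      obtain ⟨w, hw, hwe⟩ := hU
      have h4 : w = Phi r ρ x.1 x.2 :=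
        F.H.ei (closedBall_subset_closedBall F.hrR.le hw) hxb hwe
      rw [h4, mem_closedBall_zero_iff] at hw
      obtain ⟨n1, n2, n3⟩ := phi_norm F _ h1 _ h2
      rw [n1] at hw
      have h5 : x.2 * (ρ x.1 - r) = 0 := by linarith
      have h6 := (F.r1 _ h1).1
      have h7 : x.2 = 0 := by
        rcases mul_eq_zero.1 h5 with h8 | h8
        · exact h8
        · linarith
      have h8 := hIa x hx h7
      obtain ⟨x', hx', hxe⟩ := hmem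
      obtain ⟨h1', h2'⟩ := hJ x' hx'
      have h9 : e (Phi r ρ x'.1 x'.2) = e (Phi r ρ a' 1) := by
        rw [← hga, ← h8]
        have h10 : Phi r ρ x.1 x.2 = r • x.1 := by rw [h7, phi_lev0]
        rw [← h10]
        exact hxe
      have h11 := F.H.ei (ball_subset_closedBall (phi_ball F _ h1' _ h2'))
        (ball_subset_closedBall (phi_ball F _ ha' 1 ⟨zero_le_one, le_rfl⟩)) h9
      obtain ⟨h12, h13⟩ := phi_inj F _ _ h1' ha' _ _ h2' ⟨zero_le_one, le_rfl⟩ h11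
      exact hJa x' hx' h13 h12
    · have h4 : e (Phi r ρ x.1 x.2) ∈ interior (e '' closedBall 0 r) :=
        rep_down F.rep _ m 0 h3 hU
      have h5 := F.k4 _ hxb h4
      obtain ⟨n1, n2, n3⟩ := phi_norm F _ h1 _ h2
      linarith

theorem sph_near (hd : 2 ≤ d) (ξ : EE d) (hξ : ‖ξ‖ = 1) (δ : ℝ) (hδ : 0 < δ) :
    ∃ ξ' : EE d, ‖ξ'‖ = 1 ∧ ξ' ≠ ξ ∧ dist ξ' ξ < δ := by
  have hrank : 1 < Module.rank ℝ (EE d) := by
    apply Module.lt_rank_of_lt_finrank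
    rw [finrank_euclideanSpace_fin]
    exact_mod_cast hd
  have hpre := isPreconnected_sphere hrank (0 : EE d) 1
  have hne : -ξ ≠ ξ := by
    intro hh
    have h1 : (2 : ℝ) • ξ = 0 := by
      rw [two_smul]
      nth_rewrite 1 [← hh]
      simp
    rcases smul_eq_zero.1 h1 with h2 | h2
    · norm_num at h2
    · rw [h2, norm_zero] at hξ
      norm_num at hξ
  obtain ⟨x, hx, hx1, hx2⟩ := hpre (ball ξ δ) {ξ}ᶜ isOpen_ball isOpen_compl_singleton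
    (by
      intro y _
      by_cases hy : y = ξ
      · left; rw [hy]; exact mem_ball_self hδ
      · right; exact hy)
    ⟨ξ, by simpa using hξ, mem_ball_self hδ⟩ ⟨-ξ, by simpa using hξ, hne⟩
  exact ⟨x, by simpa using hx, hx2, hx1⟩

/-- a piece of an open set at a given level -/
theorem lev_piece (F : Fund g p e h R c r ρ) (hd : 2 ≤ d) (O : Set (EE d)) (hO : IsOpen O)
    (ξ : EE d) (hξ : ‖ξ‖ = 1) (t : ℝ) (hO1 : Phi r ρ ξ t ∈ O) (w : EE d) :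
    ∃ ξ' : EE d, ‖ξ'‖ = 1 ∧ ξ' ≠ w ∧ Phi r ρ ξ' t ∈ O := by
  by_cases hw : ξ = w
  · have hc : ContinuousWithinAt (fun ξ => Phi r ρ ξ t) (sphere 0 1) ξ := by
      have h1 := F.rc ξ (by simpa using hξ)
      unfold Phi
      exact (continuousWithinAt_const.add (continuousWithinAt_const.mul h1)).smul
        continuousWithinAt_id
    have h2 := hc.eventually (hO.mem_nhds hO1)
    rw [eventually_nhdsWithin_iff, Metric.eventually_nhds_iff] at h2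
    obtain ⟨δ, hδ, h3⟩ := h2
    obtain ⟨ξ', k1, k2, k3⟩ := sph_near hd ξ hξ δ hδ
    exact ⟨ξ', k1, hw ▸ k2, h3 k3 (by simpa using k1)⟩
  · exact ⟨ξ, hξ, hw, hO1⟩

/-- image of the inner boundary -/
theorem inner_img (F : Fund g p e h R c r ρ) (a : EE d) (ha : ‖a‖ = 1) :
    ∃ a' : EE d, ‖a'‖ = 1 ∧ g (e (r • a)) = e (Phi r ρ a' 1) ∧ h (Phi r ρ a' 1) = r • a := by
  have hn : ‖r • a‖ = r := by rw [norm_smul, ha, mul_one, Real.norm_eq_abs, abs_of_pos F.hr]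
  obtain ⟨z, hz, hz1, hz2⟩ := F.k3 (r • a) (by rw [mem_closedBall_zero_iff, hn])
  have hzR := mem_ball_zero_iff.1 hz
  have h1 := F.H.h2 z (ball_subset_closedBall hz)
  rw [hz1, hn] at h1
  have hr := F.hr
  obtain ⟨ξ, k1, t, k2, k3, k4, k5, k6⟩ := phi_surj F z (by linarith) hzR (by rw [hz1, hn])
  have k7 := k6 (by rw [hz1, hn])
  rw [k7] at k4
  exact ⟨ξ, k1, by rw [← k4, hz2], by rw [← k4, hz1]⟩

end

theorem t_CON : S_CON.{u} := by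
  intro hPAI hAVO hRHO hNBH hPIE d M _ _ g p q e h R c hd H G hGo hGn hGi hpG hGt
  obtain ⟨r0, hr0, hr0'⟩ := hNBH d M g p e h R c H
  obtain ⟨r2, hr2, hr2'⟩ := hPIE hNBH d M g p e h R c H G hGo hGn hGi hpG (fun x hx => (hGt x hx).1)
  obtain ⟨r, hr, hrr0, hrr2⟩ : ∃ r : ℝ, 0 < r ∧ r < r0 ∧ r < r2 :=
    ⟨min r0 r2 / 2, half_pos (lt_min hr0 hr2),
      lt_of_lt_of_le (half_lt_self (lt_min hr0 hr2)) (min_le_left _ _),
      lt_of_lt_of_le (half_lt_self (lt_min hr0 hr2)) (min_le_right _ _)⟩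
  obtain ⟨k1, k2, k3, k4⟩ := hr0' r hr hrr0
  obtain ⟨z0, z1, z2, z3, z4⟩ := hr2' r hr hrr2
  obtain ⟨ρ, hρc, hρ⟩ := hRHO d M g p e h R c H r hr k1
  have hrR : r < R := lt_trans z2 (mem_ball_zero_iff.1 z1)
  have F : Fund g p e h R c r ρ := ⟨H, hr, hrR, k2, k3, k4, hρc, hρ⟩
  -- the open set
  obtain ⟨O, hOd⟩ : ∃ O : Set (EE d), O = ball 0 R ∩ e ⁻¹' G := ⟨_, rfl⟩
  have hO : IsOpen O := by
    rw [hOd]
    exact (H.ec.mono ball_subset_closedBall).isOpen_inter_preimage isOpen_ball hGo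
  obtain ⟨ξ0, n0, t0, t01, t02, hz0, t03, -⟩ := phi_surj F z0 z2 (mem_ball_zero_iff.1 z1) z3.le
  have t04 := t03 z3
  have hz0O : Phi r ρ ξ0 t0 ∈ O := by rw [← hz0, hOd]; exact ⟨z1, z4⟩
  -- a second level
  obtain ⟨t2, ht2a, ht2b, ht2c, ht2O⟩ : ∃ t2 : ℝ, 0 < t2 ∧ t2 < 1 ∧ t2 ≠ t0 ∧
      Phi r ρ ξ0 t2 ∈ O := by
    have hc : Continuous (fun t => Phi r ρ ξ0 t) :=
      phi_cont F (fun _ => ξ0) (fun t => t) continuous_const (fun _ => n0) continuous_id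
    have h1 : ∀ᶠ t in 𝓝[≠] t0, Phi r ρ ξ0 t ∈ O :=
      nhdsWithin_le_nhds ((hO.preimage hc).mem_nhds hz0O)
    have h2 : ∀ᶠ t in 𝓝[≠] t0, 0 < t ∧ t < 1 := nhdsWithin_le_nhds (Ioo_mem_nhds t02 t04)
    obtain ⟨t, ⟨j1, j2⟩, j3⟩ := ((h1.and h2).and self_mem_nhdsWithin).exists
    exact ⟨t, j2.1, j2.2, j3, j1⟩
  -- the two directions
  obtain ⟨a, ha⟩ : ∃ a : EE d, ‖a‖ = 1 := ⟨ξ0, n0⟩
  obtain ⟨b, hb, hb1, hb2⟩ := inner_img F a ha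
  have hna : ‖-a‖ = 1 := by rw [norm_neg]; exact ha
  obtain ⟨c', hc', hc1, hc2⟩ := inner_img F (-a) hna
  have hbc : b ≠ c' := by
    intro hh
    rw [hh, hc2] at hb2
    have h1 : (2 * r) • a = 0 := by
      have h3 : r • a - r • (-a) = 0 := by rw [hb2, sub_self]
      rw [smul_neg, sub_neg_eq_add, ← add_smul] at h3
      rw [two_mul]; exact h3
    rcases smul_eq_zero.1 h1 with h2 | h2
    · linarith
    · rw [h2, norm_zero] at ha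
      norm_num at ha
  obtain ⟨P, Q, hPc, hQc, hPQ, hP0, hQ0, hP1, hQ1⟩ := hPAI d hd a b c' ha hb hc' hbc
  obtain ⟨ξ1, m1, m2, m3⟩ := lev_piece F hd O hO ξ0 n0 t0 hz0O (Q t0)
  obtain ⟨ξ2, l1, l2, l3⟩ := lev_piece F hd O hO ξ0 n0 t2 ht2O (P t2)
  obtain ⟨γ1, g1c, g11, g12, g13⟩ := hAVO d hd (P t0) ξ1 (Q t0) (hPQ t0).1 m1 (hPQ t0).2.1
    (hPQ t0).2.2 m2
  obtain ⟨γ2, g2c, g21, g22, g23⟩ := hAVO d hd (Q t2) ξ2 (P t2) (hPQ t2).2.1 l1 (hPQ t2).1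
    (hPQ t2).2.2.symm l2
  have T0 : t0 ∈ Icc (0 : ℝ) 1 := t01
  have T2 : t2 ∈ Icc (0 : ℝ) 1 := ⟨ht2a.le, ht2b.le⟩
  have uP : ∀ t, ‖P t‖ = 1 := fun t => (hPQ t).1
  have uQ : ∀ t, ‖Q t‖ = 1 := fun t => (hPQ t).2.1
  have hI := arm_unit (P := P) (γ := γ1) uP (fun t => (g11 t).1) T0
  have hJ := arm_unit (P := Q) (γ := γ2) uQ (fun t => (g21 t).1) T2
  have hIJ : ∀ x ∈ Arm P γ1 t0, x ∉ Arm Q γ2 t2 := by
    rintro x (⟨t, ht, rfl⟩ | ⟨s, hs, rfl⟩) (⟨t', ht', hx⟩ | ⟨s', hs', hx⟩)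
    · rw [Prod.mk.injEq] at hx
      rw [hx.2] at hx
      exact (hPQ t).2.2 hx.1.symm
    · rw [Prod.mk.injEq] at hx
      rw [← hx.2] at hx
      exact (g21 s').2 hx.1
    · rw [Prod.mk.injEq] at hx
      rw [hx.2] at hx
      exact (g11 s).2 hx.1.symm
    · rw [Prod.mk.injEq] at hx
      exact ht2c hx.2
  have hI0 : ∀ x ∈ Arm P γ1 t0, x.2 = 0 → x.1 = a := by
    rintro x (⟨t, ht, rfl⟩ | ⟨s, hs, rfl⟩) hx
    · dsimp only at hx ⊢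
      rw [hx, hP0]
    · dsimp only at hx
      linarith
  have hJ0 : ∀ x ∈ Arm Q γ2 t2, x.2 = 0 → x.1 = -a := by
    rintro x (⟨t, ht, rfl⟩ | ⟨s, hs, rfl⟩) hx
    · dsimp only at hx ⊢
      rw [hx, hQ0]
    · dsimp only at hx
      linarith
  have hI1 : ∀ x ∈ Arm P γ1 t0, x.2 = 1 → x.1 ≠ c' := by
    rintro x (⟨t, ht, rfl⟩ | ⟨s, hs, rfl⟩) hx
    · dsimp only at hx ⊢
      rw [hx, hP1]
      exact hbc
    · dsimp only at hx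
      linarith
  have hJ1 : ∀ x ∈ Arm Q γ2 t2, x.2 = 1 → x.1 ≠ b := by
    rintro x (⟨t, ht, rfl⟩ | ⟨s, hs, rfl⟩) hx
    · dsimp only at hx ⊢
      rw [hx, hQ1]
      exact hbc.symm
    · dsimp only at hx
      linarith
  obtain ⟨cA, nA⟩ := arm_cpt F P γ1 t0 hPc uP g1c (fun t => (g11 t).1) T0 g12
  obtain ⟨cB, nB⟩ := arm_cpt F Q γ2 t2 hQc uQ g2c (fun t => (g21 t).1) T2 g22
  have hGe : ∀ (ξ : EE d) (t : ℝ), Phi r ρ ξ t ∈ O →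
      Tendsto (fun n : ℕ => g^[n] (e (Phi r ρ ξ t))) atTop (𝓝 q) := by
    intro ξ t h1
    rw [hOd] at h1
    exact (hGt _ h1.2).2
  refine ⟨e '' closedBall 0 r, ArmM e r ρ P γ1 t0, ArmM e r ρ Q γ2 t2, ?_⟩
  exact
    { rep := k2
      cA := cA
      nA := nA
      pA := arm_p F _ hI
      wA := fun x hx => ⟨1, arm_w F _ hI x hx⟩
      gA := by
        refine ⟨e (Phi r ρ a 0), ⟨(a, 0), Or.inl ⟨0, ⟨le_rfl, zero_le_one⟩, ?_⟩, rfl⟩, ?_⟩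
        · dsimp only
          rw [hP0]
        · rw [phi_lev0, hb1]
          refine ⟨(b, 1), Or.inl ⟨1, ⟨zero_le_one, le_rfl⟩, ?_⟩, rfl⟩
          dsimp only
          rw [hP1]
      cB := cB
      nB := nB
      pB := arm_p F _ hJ
      wB := fun x hx => ⟨1, arm_w F _ hJ x hx⟩
      gB := by
        refine ⟨e (Phi r ρ (-a) 0), ⟨(-a, 0), Or.inl ⟨0, ⟨le_rfl, zero_le_one⟩, ?_⟩, rfl⟩, ?_⟩
        · dsimp only
          rw [hQ0]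
        · rw [phi_lev0, hc1]
          refine ⟨(c', 1), Or.inl ⟨1, ⟨zero_le_one, le_rfl⟩, ?_⟩, rfl⟩
          dsimp only
          rw [hQ1]
      dAB := arm_excl F _ _ hI hJ hIJ a b hb hb1 hI0 hJ1
      dBA := arm_excl F _ _ hJ hI (fun x hx hx2 => hIJ x hx2 hx) (-a) c' hc' hc1 hJ0 hI1
      lim := by
        refine ⟨e (Phi r ρ ξ1 t0), ⟨(ξ1, t0), Or.inr ⟨1, ⟨zero_le_one, le_rfl⟩, ?_⟩, rfl⟩,
          e (Phi r ρ ξ2 t2), ⟨(ξ2, t2), Or.inr ⟨1, ⟨zero_le_one, le_rfl⟩, ?_⟩, rfl⟩, q,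
          hGe _ _ m3, hGe _ _ l3⟩
        · dsimp only; rw [g13]
        · dsimp only; rw [g23] }

end Pool.Agent.Q62.MS
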