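import Pool.Agent.Q62.MS.Esc

/-! Project MS (helper62): MS3. -/

set_option autoImplicit false

open Set Filter Topology TopologicalSpace Metric

universe u

namespace Pool.Agent.Q62.MS

theorem zp_nat {M : Type u} [TopologicalSpace M] (g : M ≃ₜ M) (k : ℕ) :
    ⇑(g ^ (k : ℤ) : M ≃ₜ M) = g^[k] := by
  rw [zpow_natCast]
  induction k with
  | zero => rfl
  | succ n ih =>
    rw [pow_succ, Function.iterate_succ, ← ih]
    rfl

theorem zp_neg {M : Type u} [TopologicalSpace M] (g : M ≃ₜ M) (k : ℕ) :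
    ⇑(g ^ (-(k : ℤ)) : M ≃ₜ M) = g.symm^[k] := by
  rw [← zp_nat, zpow_neg, ← inv_zpow]
  rfl

theorem zp_add {M : Type u} [TopologicalSpace M] (g : M ≃ₜ M) (m n : ℤ) (x : M) :
    (g ^ (m + n) : M ≃ₜ M) x = (g ^ m : M ≃ₜ M) ((g ^ n : M ≃ₜ M) x) := by
  rw [zpow_add]
  rfl

theorem zp_one {M : Type u} [TopologicalSpace M] (g : M ≃ₜ M) (x : M) :
    (g ^ (1 : ℤ) : M ≃ₜ M) x = g x := by
  rw [zpow_one]

theorem cpt_of {M : Type u} [MetricSpace M] (S : Set M) (p : M) (hp : p ∈ S)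
    (h : ∀ O ∈ 𝓝 p, ∃ K ⊆ S, IsCompact K ∧ S \ O ⊆ K) : IsCompact S := by
  rw [isCompact_iff_ultrafilter_le_nhds]
  intro f hf
  by_cases hfp : (f : Filter M) ≤ 𝓝 p
  · exact ⟨p, hp, hfp⟩
  · rw [Filter.not_le] at hfp
    obtain ⟨O, hO, hOf⟩ := hfp
    obtain ⟨K, hKS, hK, hSK⟩ := h O hO
    have h1 : Oᶜ ∈ (f : Filter M) := Ultrafilter.compl_mem_iff_notMem.2 hOf
    have h2 : S ∈ (f : Filter M) := by simpa using hf
    have h3 : K ∈ (f : Filter M) := mem_of_superset (inter_mem h2 h1) hSK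
    obtain ⟨x, hx, hfx⟩ := (isCompact_iff_ultrafilter_le_nhds.1 hK) f (by simpa using h3)
    exact ⟨x, hKS hx, hfx⟩

theorem chain_conn {M : Type u} [MetricSpace M] (g : M ≃ₜ M) (A : Set M) (hA : IsConnected A)
    (gA : ∃ x ∈ A, g x ∈ A) (t : Set ℤ) (ht : t.OrdConnected) (hn : t.Nonempty) :
    IsConnected (⋃ n ∈ t, (g ^ n : M ≃ₜ M) '' A) := by
  apply IsConnected.biUnion_of_chain hn ht
  · intro n _
    exact hA.image _ (g ^ n : M ≃ₜ M).continuous.continuousOn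
  · intro n _ _
    obtain ⟨x, hx, hx2⟩ := gA
    refine ⟨(g ^ n : M ≃ₜ M) (g x), mem_image_of_mem _ hx2, x, hx, ?_⟩
    rw [Order.succ_eq_add_one, zp_add, zp_one]

theorem img_union {M : Type u} [MetricSpace M] (g : M ≃ₜ M) (C : Set M) (t t' : Set ℤ)
    (h : ∀ n, n ∈ t ↔ n + 1 ∈ t') :
    g '' (⋃ n ∈ t, (g ^ n : M ≃ₜ M) '' C) = ⋃ n ∈ t', (g ^ n : M ≃ₜ M) '' C := by
  ext x
  simp only [mem_image, mem_iUnion, exists_prop]
  constructor
  · rintro ⟨y, ⟨n, hn, c, hc, rfl⟩, rfl⟩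
    refine ⟨n + 1, (h n).1 hn, c, hc, ?_⟩
    rw [add_comm, zp_add, zp_one]
  · rintro ⟨n, hn, c, hc, rfl⟩
    refine ⟨(g ^ (n - 1) : M ≃ₜ M) c, ⟨n - 1, (h _).2 (by simpa using hn), c, hc, rfl⟩, ?_⟩
    have : n = 1 + (n - 1) := by ring
    conv_rhs => rw [this, zp_add, zp_one]

theorem t_CNT : S_CNT.{u} := by
  intro hE M _ _ g p U A B hL
  have hR := hL.rep
  have cC : IsCompact (A ∪ B) := hL.cA.union hL.cB
  have pC : p ∉ A ∪ B := fun h => h.elim hL.pA hL.pB
  have wC : ∀ x ∈ A ∪ B, ∃ n : ℕ, g.symm^[n] x ∈ U := fun x hx => hx.elim (hL.wA x) (hL.wB x)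
  have hE1 := (hE M g p U hR).1 (A ∪ B) cC wC
  obtain ⟨N2, hN2⟩ := (hE M g p U hR).2 (A ∪ B) cC pC
  -- (3)
  have c3 : ∀ O ∈ 𝓝 p, ∃ N0 : ℤ, ∀ N ≤ N0, LL g p (A ∪ B) N ⊆ O := by
    intro O hO
    obtain ⟨N1, hN1⟩ := hE1 O hO
    refine ⟨-(N1 : ℤ), fun N hN x hx => ?_⟩
    rcases hx with hx | hx
    · rw [mem_singleton_iff] at hx
      rw [hx]; exact mem_of_mem_nhds hO
    · simp only [mem_iUnion, mem_Iic, exists_prop] at hx
      obtain ⟨n, hn, c, hc, rfl⟩ := hx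
      obtain ⟨k, hk⟩ : ∃ k : ℕ, n = -(k : ℤ) := ⟨(-n).toNat, by omega⟩
      rw [hk, zp_neg]
      exact hN1 k (by omega) c hc
  -- closure points
  have hpcl : ∀ D : Set M, D ⊆ A ∪ B → D.Nonempty → ∀ N : ℤ,
      p ∈ closure (⋃ n ∈ Iic N, (g ^ n : M ≃ₜ M) '' D) := by
    intro D hD hne N
    rw [mem_closure_iff_nhds]
    intro O hO
    obtain ⟨N1, hN1⟩ := hE1 O hO
    obtain ⟨c, hc⟩ := hne
    have e : (max N1 (-N).toNat : ℕ) = max N1 (-N).toNat := rfl
    refine ⟨g.symm^[max N1 (-N).toNat] c, hN1 _ (le_max_left _ _) c (hD hc), ?_⟩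
    simp only [mem_iUnion, mem_Iic, exists_prop]
    refine ⟨-((max N1 (-N).toNat : ℕ) : ℤ), ?_, c, hc, by rw [zp_neg]⟩
    have := le_max_right N1 (-N).toNat
    omega
  have hqcl : ∀ (D : Set M) (q a : M), a ∈ D → Tendsto (fun n : ℕ => g^[n] a) atTop (𝓝 q) →
      ∀ N : ℤ, q ∈ closure (⋃ n ∈ Ici N, (g ^ n : M ≃ₜ M) '' D) := by
    intro D q a ha ht N
    apply mem_closure_of_tendsto ht
    filter_upwards [eventually_ge_atTop N.toNat] with n hn
    simp only [mem_iUnion, mem_Ici, exists_prop]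
    exact ⟨(n : ℤ), by omega, a, ha, by rw [zp_nat]⟩
  have cpt : ∀ N : ℤ, IsCompact (LL g p (A ∪ B) N) := by
    intro N
    apply cpt_of _ p (Or.inl rfl)
    intro O hO
    obtain ⟨N0, hN0⟩ := c3 O hO
    refine ⟨⋃ n ∈ Icc N0 N, (g ^ n : M ≃ₜ M) '' (A ∪ B), ?_, ?_, ?_⟩
    · intro x hx
      simp only [mem_iUnion, mem_Icc, exists_prop] at hx
      obtain ⟨n, hn, hx⟩ := hx
      right
      simp only [mem_iUnion, mem_Iic, exists_prop]
      exact ⟨n, hn.2, hx⟩
    · apply (finite_Icc N0 N).isCompact_biUnion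
      intro n _
      exact cC.image (g ^ n : M ≃ₜ M).continuous
    · rintro x ⟨hx, hxO⟩
      rcases hx with hx | hx
      · rw [mem_singleton_iff] at hx
        rw [hx] at hxO
        exact absurd (mem_of_mem_nhds hO) hxO
      · simp only [mem_iUnion, mem_Iic, exists_prop] at hx
        obtain ⟨n, hn, hx⟩ := hx
        simp only [mem_iUnion, mem_Icc, exists_prop]
        refine ⟨n, ⟨?_, hn⟩, hx⟩
        by_contra hcon
        apply hxO
        apply hN0 n (by omega)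
        right
        simp only [mem_iUnion, mem_Iic, exists_prop]
        exact ⟨n, le_refl _, hx⟩
  have conL : ∀ D : Set M, D ⊆ A ∪ B → IsConnected D → (∃ x ∈ D, g x ∈ D) → ∀ N : ℤ,
      IsConnected ({p} ∪ ⋃ n ∈ Iic N, (g ^ n : M ≃ₜ M) '' D) := by
    intro D hD hDc hg N
    apply (chain_conn g D hDc hg (Iic N) ordConnected_Iic ⟨N, le_refl N⟩).subset_closure
      subset_union_right
    intro x hx
    rcases hx with hx | hx
    · rw [mem_singleton_iff] at hx
      rw [hx]; exact hpcl D hD hDc.nonempty N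
    · exact subset_closure hx
  have c1 : ∀ N : ℤ, IsCompact (LL g p (A ∪ B) N) ∧ IsConnected (LL g p (A ∪ B) N) ∧
      IsCompact (TT g (A ∪ B) N) ∧ IsConnected (TT g (A ∪ B) N) := by
    intro N
    refine ⟨cpt N, ?_, isClosed_closure.isCompact, ?_⟩
    · have e : LL g p (A ∪ B) N = ({p} ∪ ⋃ n ∈ Iic N, (g ^ n : M ≃ₜ M) '' A) ∪
          ({p} ∪ ⋃ n ∈ Iic N, (g ^ n : M ≃ₜ M) '' B) := by
        unfold LL
        simp only [image_union, iUnion_union_distrib]
        ext x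
        simp only [mem_union]
        tauto
      rw [e]
      exact IsConnected.union ⟨p, Or.inl rfl, Or.inl rfl⟩
        (conL A subset_union_left hL.nA hL.gA N) (conL B subset_union_right hL.nB hL.gB N)
    · have e : TT g (A ∪ B) N = closure (⋃ n ∈ Ici N, (g ^ n : M ≃ₜ M) '' A) ∪
          closure (⋃ n ∈ Ici N, (g ^ n : M ≃ₜ M) '' B) := by
        unfold TT
        rw [← closure_union]
        congr 1
        simp only [image_union, iUnion_union_distrib]
      rw [e]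
      obtain ⟨a, ha, b, hb, q, hq1, hq2⟩ := hL.lim
      exact IsConnected.union ⟨q, hqcl A q a ha hq1 N, hqcl B q b hb hq2 N⟩
        (chain_conn g A hL.nA hL.gA (Ici N) ordConnected_Ici ⟨N, le_refl N⟩).closure
        (chain_conn g B hL.nB hL.gB (Ici N) ordConnected_Ici ⟨N, le_refl N⟩).closure
  refine ⟨c1, ?_, c3, ?_, ?_⟩
  · intro N
    constructor
    · unfold LL
      rw [image_union, image_singleton, hR.fp, img_union g (A ∪ B) (Iic N) (Iic (N + 1))]
      intro n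
      simp
    · unfold TT
      rw [Homeomorph.image_closure, img_union g (A ∪ B) (Ici N) (Ici (N + 1))]
      intro n
      simp
  · intro N hp
    have hp' : p ∈ closure (⋃ n ∈ Ici N, (g ^ n : M ≃ₜ M) '' (A ∪ B)) := hp
    rw [_root_.mem_closure_iff] at hp'
    have hop : IsOpen {x | g^[(N2 - N).toNat] x ∈ interior U} :=
      isOpen_interior.preimage (g.continuous.iterate _)
    obtain ⟨x, hx1, hx2⟩ := hp' _ hop (by
      change g^[(N2 - N).toNat] p ∈ interior U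
      rw [Function.iterate_fixed hR.fp]
      exact rep_nhds hR)
    simp only [mem_iUnion, mem_Ici, exists_prop] at hx2
    obtain ⟨n, hn, c, hc, rfl⟩ := hx2
    change g^[(N2 - N).toNat] ((g ^ n : M ≃ₜ M) c) ∈ interior U at hx1
    rw [← zp_nat, ← zp_add] at hx1
    obtain ⟨k, hk⟩ : ∃ k : ℕ, (((N2 - N).toNat : ℕ) : ℤ) + n = (k : ℤ) :=
      ⟨((((N2 - N).toNat : ℕ) : ℤ) + n).toNat, by omega⟩
    rw [hk, zp_nat] at hx1
    exact hN2 k (by omega) c hc (interior_subset hx1)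
  · intro η hη N0
    have hΓ : IsCompact (closure (Orb g (A ∪ B))) := isClosed_closure.isCompact
    have hmono : Monotone fun N : ℕ =>
        thickening (η / 2) (⋃ n ∈ Icc (-(N : ℤ)) N, (g ^ n : M ≃ₜ M) '' (A ∪ B)) := by
      intro N N' hNN
      apply thickening_subset_of_subset
      apply biUnion_subset_biUnion_left
      apply Icc_subset_Icc
      · have : (N : ℤ) ≤ N' := by exact_mod_cast hNN
        linarith
      · exact_mod_cast hNN
    obtain ⟨N1, hN1⟩ := hΓ.elim_directed_cover _ (fun N : ℕ => isOpen_thickening)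
      (by
        intro x hx
        rw [Metric.mem_closure_iff] at hx
        obtain ⟨y, hy, hxy⟩ := hx (η / 2) (by linarith)
        have hy' : ∃ n : ℤ, y ∈ (g ^ n : M ≃ₜ M) '' (A ∪ B) := by
          unfold Orb at hy
          rwa [mem_iUnion] at hy
        obtain ⟨n, hn⟩ := hy'
        rw [mem_iUnion]
        refine ⟨n.natAbs, ?_⟩
        rw [mem_thickening_iff]
        refine ⟨y, ?_, hxy⟩
        rw [mem_iUnion₂]
        exact ⟨n, ⟨by omega, by omega⟩, hn⟩) hmono.directed_le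
    refine ⟨max N0 N1, le_max_left _ _, ?_⟩
    have hsub1 : (⋃ n ∈ Icc (-(N1 : ℤ)) N1, (g ^ n : M ≃ₜ M) '' (A ∪ B)) ⊆
        LL g p (A ∪ B) (max N0 N1) := by
      intro x hx
      rw [mem_iUnion₂] at hx
      obtain ⟨n, hn, hx⟩ := hx
      right
      rw [mem_iUnion₂]
      exact ⟨n, le_trans hn.2 (le_max_right _ _), hx⟩
    have hsub2 : (⋃ n ∈ Icc (-(N1 : ℤ)) N1, (g ^ n : M ≃ₜ M) '' (A ∪ B)) ⊆
        TT g (A ∪ B) (-(max N0 N1)) := by
      intro x hx
      rw [mem_iUnion₂] at hx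
      obtain ⟨n, hn, hx⟩ := hx
      apply subset_closure
      rw [mem_iUnion₂]
      refine ⟨n, ?_, hx⟩
      have h1 : (N1 : ℤ) ≤ max N0 N1 := le_max_right _ _
      have h2 := hn.1
      change -(max N0 (N1 : ℤ)) ≤ n
      linarith
    have hin1 : LL g p (A ∪ B) (max N0 N1) ⊆ closure (Orb g (A ∪ B)) := by
      intro x hx
      rcases hx with hx | hx
      · rw [mem_singleton_iff] at hx
        rw [hx]
        have h1 := hpcl (A ∪ B) subset_rfl (hL.nA.nonempty.mono subset_union_left) 0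
        refine closure_mono ?_ h1
        intro z hz
        rw [mem_iUnion₂] at hz
        obtain ⟨n, _, hz⟩ := hz
        exact mem_iUnion.2 ⟨n, hz⟩
      · apply subset_closure
        rw [mem_iUnion₂] at hx
        obtain ⟨n, _, hx⟩ := hx
        exact mem_iUnion.2 ⟨n, hx⟩
    have hin2 : TT g (A ∪ B) (-(max N0 N1)) ⊆ closure (Orb g (A ∪ B)) := by
      apply closure_mono
      intro x hx
      rw [mem_iUnion₂] at hx
      obtain ⟨n, _, hx⟩ := hx
      exact mem_iUnion.2 ⟨n, hx⟩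
    have hfin : ∀ x ∈ closure (Orb g (A ∪ B)), ∃ y ∈ (⋃ n ∈ Icc (-(N1 : ℤ)) N1,
        (g ^ n : M ≃ₜ M) '' (A ∪ B)), dist x y ≤ η / 2 := by
      intro x hx
      have h1 := hN1 hx
      rw [mem_thickening_iff] at h1
      obtain ⟨y, hy, hxy⟩ := h1
      exact ⟨y, hy, hxy.le⟩
    have hle : hausdorffDist (LL g p (A ∪ B) (max N0 N1)) (TT g (A ∪ B) (-(max N0 N1))) ≤ η / 2 := by
      apply hausdorffDist_le_of_mem_dist (by linarith)
      · intro x hx
        obtain ⟨y, hy, hxy⟩ := hfin x (hin1 hx)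
        exact ⟨y, hsub2 hy, hxy⟩
      · intro x hx
        obtain ⟨y, hy, hxy⟩ := hfin x (hin2 hx)
        exact ⟨y, hsub1 hy, hxy⟩
    linarith

end Pool.Agent.Q62.MS
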