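import Pool.Agent.Q62.MS.Two

/-! Project MS (helper62): MS14, MS15. -/

set_option autoImplicit false

open Set Filter Topology TopologicalSpace Metric

universe u

namespace Pool.Agent.Q62.MS

theorem hp_nat {M : Type u} [TopologicalSpace M] (F : M ≃ₜ M) (k : ℕ) :
    ⇑(F ^ k : M ≃ₜ M) = F^[k] := by
  induction k with
  | zero => rfl
  | succ n ih =>
    rw [pow_succ, Function.iterate_succ, ← ih]
    rfl

theorem fin_pos {α : Type u} (S : Set α) (hS : S.Finite) (f : α → ℝ) (hf : ∀ a ∈ S, 0 < f a) :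
    ∃ ε : ℝ, 0 < ε ∧ ∀ a ∈ S, ε ≤ f a := by
  induction S, hS using Set.Finite.induction_on with
  | empty => exact ⟨1, one_pos, by simp⟩
  | @insert a s _ _ ih =>
    obtain ⟨ε, hε, h1⟩ := ih (fun b hb => hf b (mem_insert_of_mem _ hb))
    refine ⟨min ε (f a), lt_min hε (hf a (mem_insert _ _)), ?_⟩
    intro b hb
    rcases hb with hb | hb
    · rw [hb]; exact min_le_right _ _
    · exact le_trans (min_le_left _ _) (h1 b hb)

theorem fin_period {M : Type u} (F : M → M) (S : Set M) (hS : S.Finite)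
    (hp : ∀ x ∈ S, ∃ k : ℕ, 1 ≤ k ∧ F^[k] x = x) : ∃ k : ℕ, 1 ≤ k ∧ ∀ x ∈ S, F^[k] x = x := by
  induction S, hS using Set.Finite.induction_on with
  | empty => exact ⟨1, le_rfl, by simp⟩
  | @insert a s _ _ ih =>
    obtain ⟨k, hk, h1⟩ := ih (fun b hb => hp b (mem_insert_of_mem _ hb))
    obtain ⟨m, hm, h2⟩ := hp a (mem_insert _ _)
    refine ⟨m * k, Nat.mul_pos hm hk, ?_⟩
    intro b hb
    rcases hb with hb | hb
    · rw [hb, Function.iterate_mul]
      exact Function.iterate_fixed h2 k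
    · rw [mul_comm, Function.iterate_mul]
      exact Function.iterate_fixed (h1 b hb) m

theorem conv_orbit {M : Type u} [MetricSpace M] [CompactSpace M] (f : M → M) (hf : Continuous f)
    (Ω : Set M) (hΩ : Ω.Finite) (hfix : ∀ a ∈ Ω, f a = a) (x : M)
    (hcl : ∀ q, MapClusterPt q atTop (fun n : ℕ => f^[n] x) → q ∈ Ω) :
    ∃ q ∈ Ω, Tendsto (fun n : ℕ => f^[n] x) atTop (𝓝 q) := by
  have S1 : ∀ r : ℝ, 0 < r → ∀ᶠ n in atTop, ∃ a ∈ Ω, dist (f^[n] x) a < r := by
    intro r hr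
    by_contra hcon
    rw [not_eventually] at hcon
    have hW : IsCompact (⋃ a ∈ Ω, ball a r)ᶜ :=
      (isOpen_biUnion fun a _ => isOpen_ball).isClosed_compl.isCompact
    obtain ⟨q, hq, hq2⟩ := hW.exists_mapClusterPt_of_frequently (f := fun n : ℕ => f^[n] x)
      (l := atTop) (by
        apply hcon.mono
        intro n hn hn2
        rw [mem_iUnion₂] at hn2
        obtain ⟨a, ha, hn2⟩ := hn2
        exact hn ⟨a, ha, hn2⟩)
    apply hq
    rw [mem_iUnion₂]
    exact ⟨q, hcl q hq2, mem_ball_self hr⟩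
  obtain ⟨η, hη, hη'⟩ := fin_pos Ω.offDiag hΩ.offDiag (fun p => dist p.1 p.2)
    (fun p hp => dist_pos.2 hp.2.2)
  have hcont : ∀ a ∈ Ω, ∃ ρ : ℝ, 0 < ρ ∧ ∀ y, dist y a < ρ → dist (f y) a < η / 2 := by
    intro a ha
    obtain ⟨ρ, hρ, hρ'⟩ := Metric.continuous_iff.1 hf a (η / 2) (by linarith)
    refine ⟨ρ, hρ, fun y hy => ?_⟩
    have := hρ' y hy
    rwa [hfix a ha] at this
  choose! ρ hρ hρ' using hcont
  obtain ⟨ρ0, hρ0, hρ1⟩ := fin_pos Ω hΩ ρ hρ
  have hsep : ∀ a ∈ Ω, ∀ b ∈ Ω, ∀ y, dist y a < η / 2 → dist y b < η / 2 → a = b := by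
    intro a ha b hb y h1 h2
    by_contra hne
    have h3 := hη' (a, b) ⟨ha, hb, hne⟩
    have h4 := dist_triangle_left a b y
    dsimp only at h3
    linarith
  obtain ⟨N0, hN0⟩ := eventually_atTop.1 (S1 (min ρ0 (η / 2)) (lt_min hρ0 (by linarith)))
  obtain ⟨a0, ha0, h0⟩ := hN0 N0 le_rfl
  have hstay : ∀ n ≥ N0, dist (f^[n] x) a0 < min ρ0 (η / 2) := by
    intro n hn
    induction n, hn using Nat.le_induction with
    | base => exact h0
    | succ n hn ih =>
      obtain ⟨b, hb, h1⟩ := hN0 (n + 1) (by omega)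
      have h2 : dist (f^[n + 1] x) a0 < η / 2 := by
        rw [Function.iterate_succ_apply']
        exact hρ' a0 ha0 _ (lt_of_lt_of_le (lt_of_lt_of_le ih (min_le_left _ _)) (hρ1 a0 ha0))
      have h3 := hsep a0 ha0 b hb _ h2 (lt_of_lt_of_le h1 (min_le_right _ _))
      rw [h3]; exact h1
  refine ⟨a0, ha0, ?_⟩
  rw [Metric.tendsto_atTop]
  intro ε hε
  obtain ⟨N1, hN1⟩ := eventually_atTop.1 (S1 (min ε (η / 2)) (lt_min hε (by linarith)))
  refine ⟨max N0 N1, fun n hn => ?_⟩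
  obtain ⟨b, hb, h1⟩ := hN1 n (le_trans (le_max_right _ _) hn)
  have h2 := hstay n (le_trans (le_max_left _ _) hn)
  have h3 := hsep a0 ha0 b hb _ (lt_of_lt_of_le h2 (min_le_right _ _))
    (lt_of_lt_of_le h1 (min_le_right _ _))
  rw [h3]
  exact lt_of_lt_of_le h1 (min_le_left _ _)

theorem t_CVG : S_CVG.{u} := by
  intro M _ _ F hfin hper
  constructor
  · obtain ⟨k, hk, h1⟩ := fin_period F {x | NW F x} hfin (fun x hx => hper x hx)
    exact ⟨k, hk, h1⟩
  · intro k hk hfix x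
    have hg : ∀ n : ℕ, (F ^ k : M ≃ₜ M)^[n] = F^[k * n] := by
      intro n
      rw [hp_nat, ← Function.iterate_mul]
    have hfix' : ∀ a ∈ {x | NW F x}, (F ^ k : M ≃ₜ M) a = a := by
      intro a ha
      rw [hp_nat]; exact hfix a ha
    constructor
    · apply conv_orbit _ (F ^ k : M ≃ₜ M).continuous _ hfin hfix'
      intro q hq O hO
      have h1 := mapClusterPt_iff_frequently.1 hq O hO
      rw [frequently_atTop] at h1
      obtain ⟨n, -, hn⟩ := h1 0
      obtain ⟨m, hm, hm2⟩ := h1 (n + 1)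
      refine ⟨k * (m - n), Nat.mul_pos hk (by omega), _, hn, ?_⟩
      rw [hg] at hm2 ⊢
      rw [← Function.iterate_add_apply]
      have e1 : k * (m - n) + k * n = k * m := by
        rw [← mul_add]
        congr 1
        omega
      rw [e1]
      exact hm2
    · have hfix2 : ∀ a ∈ {x | NW F x}, (F ^ k : M ≃ₜ M).symm a = a := by
        intro a ha
        conv_rhs => rw [← (F ^ k : M ≃ₜ M).symm_apply_apply a, hfix' a ha]
      apply conv_orbit _ (F ^ k : M ≃ₜ M).symm.continuous _ hfin hfix2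
      intro q hq O hO
      have h1 := mapClusterPt_iff_frequently.1 hq O hO
      rw [frequently_atTop] at h1
      obtain ⟨n, -, hn⟩ := h1 0
      obtain ⟨m, hm, hm2⟩ := h1 (n + 1)
      refine ⟨k * (m - n), Nat.mul_pos hk (by omega), _, hm2, ?_⟩
      rw [← hg]
      have e1 : m = (m - n) + n := by omega
      have e2 : (F ^ k : M ≃ₜ M)^[m - n] ((F ^ k : M ≃ₜ M).symm^[m] x) =
          (F ^ k : M ≃ₜ M).symm^[n] x := by
        conv_lhs => rw [e1, Function.iterate_add_apply]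
        rw [Nat.add_sub_cancel]
        exact g_symm_iter _ _ _
      rw [e2]
      exact hn

end Pool.Agent.Q62.MS
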