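import Pool.Agent.Q62.MS.Two

/-! Project MS (helper62): MS19. -/

set_option autoImplicit false

open Set Filter Topology TopologicalSpace Metric

universe u

namespace Pool.Agent.Q62.MS

/-- the unit vector of the line -/
noncomputable def uu : EE 1 := EuclideanSpace.single 0 1

theorem uu_norm : ‖uu‖ = 1 := by
  unfold uu
  simp

theorem uu_coord (v : EE 1) : v = (v 0) • uu := by
  ext i
  fin_cases i
  simp [uu]

theorem uu_ne : uu ≠ 0 := by
  intro h
  have := uu_norm
  rw [h, norm_zero] at this
  norm_num at this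

/-- linear maps of the line are multiplications -/
theorem lin_one (T : EE 1 →L[ℝ] EE 1) (v : EE 1) : T v = ((T uu) 0) • v := by
  conv_lhs => rw [uu_coord v, map_smul, uu_coord (T uu)]
  rw [smul_smul, mul_comm, ← smul_smul, ← uu_coord]

theorem norm_coord (v : EE 1) : ‖v‖ = |v 0| := by
  conv_lhs => rw [uu_coord v, norm_smul, uu_norm, mul_one, Real.norm_eq_abs]

theorem t_LO1 : S_LO1.{u} := by
  intro M _ g q A A' B e φ ψ R H hAA hAB hA
  obtain ⟨b, hb⟩ : ∃ b : ℝ, b = (B uu) 0 := ⟨_, rfl⟩
  have hAv : ∀ v : EE 1, A v = (b ^ 2) • v := by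
    intro v
    rw [hAB]
    change B (B v) = _
    rw [lin_one B (B v), lin_one B v, smul_smul, ← hb, pow_two]
  obtain ⟨a, ha⟩ : ∃ a : ℝ, a = b ^ 2 := ⟨_, rfl⟩
  rw [← ha] at hAv
  have ha0 : 0 < a := by
    have h1 : 0 ≤ a := by rw [ha]; positivity
    refine lt_of_le_of_ne h1 ?_
    intro h2
    have h3 := congrArg (fun T : EE 1 →L[ℝ] EE 1 => T uu) hAA
    change A' (A uu) = uu at h3
    rw [hAv, ← h2, zero_smul, map_zero] at h3
    exact uu_ne h3.symm
  have ha1 : a < 1 / 2 := by
    have h1 := A.le_opNorm uu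
    rw [hAv, norm_smul, uu_norm, mul_one, mul_one, Real.norm_eq_abs, abs_of_pos ha0] at h1
    linarith
  obtain ⟨η, hη, hη1, hη2⟩ : ∃ η : ℝ, 0 < η ∧ η < a ∧ a + η < 1 / 2 := by
    have hm : 0 < min a (1 / 2 - a) := lt_min ha0 (by linarith)
    refine ⟨min a (1 / 2 - a) / 2, half_pos hm, ?_, ?_⟩
    · exact lt_of_lt_of_le (half_lt_self hm) (min_le_left _ _)
    · have := lt_of_lt_of_le (half_lt_self hm) (min_le_right a (1 / 2 - a))
      linarith
  have hstr : HasStrictFDerivAt φ A 0 := H.f1.hasStrictFDerivAt' H.f2 (by norm_num)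
  have h1 := hstr.isLittleO.def hη
  have h1' : ∃ r : ℝ, 0 < r ∧ ∀ z ∈ ball (0 : EE 1) r, ∀ z' ∈ ball (0 : EE 1) r,
      ‖φ z - φ z' - A (z - z')‖ ≤ η * ‖z - z'‖ := by
    rw [nhds_prod_eq, Filter.eventually_prod_iff] at h1
    obtain ⟨pa, ha, pb, hb, hab⟩ := h1
    obtain ⟨r1, hr1, hr1'⟩ := Metric.eventually_nhds_iff_ball.1 ha
    obtain ⟨r2, hr2, hr2'⟩ := Metric.eventually_nhds_iff_ball.1 hb
    refine ⟨min r1 r2, lt_min hr1 hr2, ?_⟩
    intro z hz z' hz'
    exact hab (hr1' z (ball_subset_ball (min_le_left _ _) hz))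
      (hr2' z' (ball_subset_ball (min_le_right _ _) hz'))
  obtain ⟨r, hr, hr'⟩ := h1'
  obtain ⟨r', hr0, hr0'⟩ := Metric.eventually_nhds_iff_ball.1 H.ef
  obtain ⟨s, hs, k1, k2, k3⟩ : ∃ s : ℝ, 0 < s ∧ s < r ∧ s < r' ∧ s < R := by
    have hm : 0 < min r (min r' R) := lt_min hr (lt_min hr0 H.R0)
    refine ⟨min r (min r' R) / 2, half_pos hm, ?_, ?_, ?_⟩
    · exact lt_of_lt_of_le (half_lt_self hm) (min_le_left _ _)
    · exact lt_of_lt_of_le (half_lt_self hm) (le_trans (min_le_right _ _) (min_le_left _ _))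
    · exact lt_of_lt_of_le (half_lt_self hm) (le_trans (min_le_right _ _) (min_le_right _ _))
  have hnorm : ∀ t : ℝ, ‖(s * t) • uu‖ = s * |t| := by
    intro t
    rw [norm_smul, uu_norm, mul_one, Real.norm_eq_abs, abs_mul, abs_of_pos hs]
  have hle : ∀ t ∈ Icc (-1 : ℝ) 1, ‖(s * t) • uu‖ ≤ s := by
    intro t ht
    rw [hnorm]
    have : |t| ≤ 1 := abs_le.2 ⟨ht.1, ht.2⟩
    nlinarith
  have hcoord : ∀ t : ℝ, ((s * t) • uu) 0 = s * t := by
    intro t
    simp [uu]
  -- the basic estimate
  have hest : ∀ t ∈ Icc (-1 : ℝ) 1, ∀ t' ∈ Icc (-1 : ℝ) 1,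
      |(φ ((s * t) • uu)) 0 - (φ ((s * t') • uu)) 0 - a * (s * t - s * t')| ≤
        η * (s * |t - t'|) := by
    intro t ht t' ht'
    have h2 := hr' _ (mem_ball_zero_iff.2 (lt_of_le_of_lt (hle t ht) k1)) _
      (mem_ball_zero_iff.2 (lt_of_le_of_lt (hle t' ht') k1))
    rw [hAv, norm_coord, norm_coord] at h2
    have h3 : (φ ((s * t) • uu) - φ ((s * t') • uu) - a • ((s * t) • uu - (s * t') • uu)) 0 =
        (φ ((s * t) • uu)) 0 - (φ ((s * t') • uu)) 0 - a * (s * t - s * t') := by
      simp [uu]
    have h4 : ((s * t) • uu - (s * t') • uu) 0 = s * (t - t') := by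
      simp [uu]
      ring
    rw [h3, h4, abs_mul, abs_of_pos hs] at h2
    exact h2
  have h0 : φ ((s * 0) • uu) = 0 := by rw [mul_zero, zero_smul, H.f0]
  refine ⟨fun t => e ((s * t) • uu), fun t => (φ ((s * t) • uu)) 0 / s, ?_⟩
  exact
    { ec := by
        apply H.ec.comp (by fun_prop)
        intro t ht
        rw [mem_closedBall_zero_iff]
        linarith [hle t ht]
      ei := by
        intro t ht t' ht' hee
        have h2 := H.ei (mem_closedBall_zero_iff.2 (by linarith [hle t ht]))
          (mem_closedBall_zero_iff.2 (by linarith [hle t' ht'])) hee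
        have h3 := congrArg (fun v : EE 1 => v 0) h2
        dsimp only at h3
        rw [hcoord, hcoord] at h3
        exact mul_left_cancel₀ hs.ne' h3
      eo := by
        intro O hO hOo
        have h2 : (fun t : ℝ => e ((s * t) • uu)) '' O = e '' {v : EE 1 | v 0 / s ∈ O} := by
          ext x
          constructor
          · rintro ⟨t, ht, rfl⟩
            refine ⟨(s * t) • uu, ?_, rfl⟩
            rw [mem_setOf_eq, hcoord, mul_div_cancel_left₀ _ hs.ne']
            exact ht
          · rintro ⟨v, hv, rfl⟩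
            refine ⟨v 0 / s, hv, ?_⟩
            dsimp only
            rw [mul_div_cancel₀ _ hs.ne', ← uu_coord]
        rw [h2]
        apply H.eo
        · intro v hv
          have h3 := hO hv
          rw [mem_ball_zero_iff, norm_coord]
          have h4 : |v 0 / s| < 1 := abs_lt.2 h3
          rw [abs_div, abs_of_pos hs, div_lt_one hs] at h4
          linarith
        · exact hOo.preimage (by fun_prop)
      ep := by
        change e ((s * 0) • uu) = q
        rw [mul_zero, zero_smul, H.ep]
      hc := by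
        apply LipschitzOnWith.continuousOn (K := 1)
        apply LipschitzOnWith.of_dist_le_mul
        intro t ht t' ht'
        have h2 := hest t ht t' ht'
        rw [Real.dist_eq, Real.dist_eq, NNReal.coe_one, one_mul, ← sub_div, abs_div,
          abs_of_pos hs, div_le_iff₀ hs]
        have h3 : |(φ ((s * t) • uu)) 0 - (φ ((s * t') • uu)) 0| ≤
            |(φ ((s * t) • uu)) 0 - (φ ((s * t') • uu)) 0 - a * (s * t - s * t')| +
            |a * (s * t - s * t')| := by
          have := abs_add_le ((φ ((s * t) • uu)) 0 - (φ ((s * t') • uu)) 0 -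
            a * (s * t - s * t')) (a * (s * t - s * t'))
          rwa [sub_add_cancel] at this
        have h4 : |a * (s * t - s * t')| = a * (s * |t - t'|) := by
          rw [← mul_sub, abs_mul, abs_mul, abs_of_pos ha0, abs_of_pos hs]
        rw [h4] at h3
        have h5 : 0 ≤ s * |t - t'| := by positivity
        nlinarith
      hm := by
        intro t ht t' ht' htt
        have h2 := hest t' ht' t ht
        have h3 := (abs_le.1 h2).1
        dsimp only
        rw [div_lt_div_iff_of_pos_right hs]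
        rw [abs_of_pos (by linarith)] at h3
        have h4 : 0 < s * (t' - t) := mul_pos hs (by linarith)
        nlinarith
      h0 := by
        dsimp only
        rw [h0]
        simp
      h2 := by
        intro t ht
        have h2 := hest t ht 0 ⟨by norm_num, by norm_num⟩
        rw [h0] at h2
        have h3 : ((0 : EE 1)) 0 = 0 := rfl
        rw [h3, sub_zero, mul_zero, sub_zero, sub_zero] at h2
        rw [abs_div, abs_of_pos hs, div_le_iff₀ hs]
        have h4 : |(φ ((s * t) • uu)) 0| ≤ |(φ ((s * t) • uu)) 0 - a * (s * t)| +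
            |a * (s * t)| := by
          have := abs_add_le ((φ ((s * t) • uu)) 0 - a * (s * t)) (a * (s * t))
          rwa [sub_add_cancel] at this
        have h5 : |a * (s * t)| = a * (s * |t|) := by
          rw [abs_mul, abs_mul, abs_of_pos ha0, abs_of_pos hs]
        rw [h5] at h4
        have h6 : 0 ≤ s * |t| := by positivity
        nlinarith
      eh := by
        intro t ht
        dsimp only
        rw [mul_div_cancel₀ _ hs.ne', ← uu_coord]
        exact hr0' _ (mem_ball_zero_iff.2 (lt_of_le_of_lt (hle t ht) k2)) }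

end Pool.Agent.Q62.MS
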