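import Pool.Agent.Q62.MS.Two

/-! Project MS (helper62): MS24. -/

set_option autoImplicit false

open Set Filter Topology TopologicalSpace Metric

universe u

namespace Pool.Agent.Q62.MS

theorem Cyc.inv {M : Type u} [MetricSpace M] {g : M ≃ₜ M} {P Q : Finset M} {e : M → ℝ → M}
    {h : M → ℝ → ℝ} (H : Cyc g P Q e h) : Cyc g.symm Q P e h where
  dis := fun x hx hx2 => H.dis x hx2 hx
  snk := H.src
  src := H.snk
  fut := H.pas
  pas := H.fut
  ne := H.ne'
  ne' := H.ne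

theorem arc_iter {M : Type u} [MetricSpace M] {g : M ≃ₜ M} {q : M} {e : ℝ → M} {h : ℝ → ℝ}
    (H : Arc1 g q e h) (s : ℝ) (hs : s ∈ Icc (-1 : ℝ) 1) (n : ℕ) :
    g^[n] (e s) = e (h^[n] s) ∧ |h^[n] s| ≤ |s| * (1 / 2) ^ n ∧ h^[n] s ∈ Icc (-1 : ℝ) 1 := by
  have hs' : |s| ≤ 1 := abs_le.2 ⟨hs.1, hs.2⟩
  induction n with
  | zero => exact ⟨rfl, by simp, hs⟩
  | succ n ih =>
    obtain ⟨i1, i2, i3⟩ := ih
    rw [Function.iterate_succ_apply', Function.iterate_succ_apply', i1]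
    have h2 := H.h2 _ i3
    have h3 : |h (h^[n] s)| ≤ |s| * (1 / 2) ^ (n + 1) := by
      rw [pow_succ]
      linarith
    refine ⟨(H.eh _ i3).symm, h3, ?_⟩
    have h4 : |h (h^[n] s)| ≤ 1 := by
      have h5 : ((1 : ℝ) / 2) ^ (n + 1) ≤ 1 := pow_le_one₀ (by norm_num) (by norm_num)
      have h6 : (0 : ℝ) ≤ (1 / 2) ^ (n + 1) := by positivity
      nlinarith [abs_nonneg s]
    exact ⟨(abs_le.1 h4).1, (abs_le.1 h4).2⟩

/-- small arcs are in small balls -/
theorem arc_small {M : Type u} [MetricSpace M] {g : M ≃ₜ M} {q : M} {e : ℝ → M} {h : ℝ → ℝ}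
    (H : Arc1 g q e h) (r : ℝ) (hr : 0 < r) :
    ∃ τ : ℝ, 0 < τ ∧ τ ≤ 1 ∧ ∀ s : ℝ, |s| < τ → dist (e s) q < r := by
  have hc := H.ec 0 (by norm_num)
  rw [Metric.continuousWithinAt_iff] at hc
  obtain ⟨τ, hτ, hτ'⟩ := hc r hr
  refine ⟨min τ 1, lt_min hτ one_pos, min_le_right _ _, fun s hs => ?_⟩
  rw [← H.ep]
  apply hτ'
  · have := (abs_lt.1 (lt_of_lt_of_le hs (min_le_right _ _)))
    exact ⟨this.1.le, this.2.le⟩
  · rw [Real.dist_eq, sub_zero]
    exact lt_of_lt_of_le hs (min_le_left _ _)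

theorem arc_comp {M : Type u} [MetricSpace M] {g : M ≃ₜ M} {q : M} {e : ℝ → M} {h : ℝ → ℝ}
    (H : Arc1 g q e h) : e '' Icc (-1 : ℝ) 1 ⊆ connectedComponent q := by
  apply IsPreconnected.subset_connectedComponent
  · exact isPreconnected_Icc.image e H.ec
  · exact ⟨0, by norm_num, H.ep⟩

theorem arc_end {M : Type u} [MetricSpace M] {g : M ≃ₜ M} {q : M} {e : ℝ → M} {h : ℝ → ℝ}
    (H : Arc1 g q e h) (t : ℝ) (ht : 0 < t) (ht1 : t < 1) :
    e t ∈ connectedComponent q \ e '' Ioo (-t) t := by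
  refine ⟨arc_comp H ⟨t, ⟨by linarith, ht1.le⟩, rfl⟩, ?_⟩
  rintro ⟨s, hs, hse⟩
  have := H.ei ⟨by linarith [hs.1], by linarith [hs.2]⟩ ⟨by linarith, ht1.le⟩ hse
  linarith [hs.2]

/-- the two sides of an arc are in the branches -/
theorem arc_br {M : Type u} [MetricSpace M] {g : M ≃ₜ M} {q : M} {e : ℝ → M} {h : ℝ → ℝ}
    (H : Arc1 g q e h) (y : M) (hy : y ∈ e '' Ioo (-1 : ℝ) 1) : y = q ∨ ∃ s, y ∈ Br g e s := by
  obtain ⟨t, ht, rfl⟩ := hy
  rcases lt_trichotomy t 0 with h1 | h1 | h1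
  · right
    exact ⟨false, 0, t, by simpa [Side] using ⟨ht.1, h1⟩, rfl⟩
  · left
    rw [h1, H.ep]
  · right
    exact ⟨true, 0, t, by simpa [Side] using ⟨h1, ht.2⟩, rfl⟩

theorem fix_eq {M : Type u} [MetricSpace M] {g : M ≃ₜ M} {x y : M} (hx : g x = x)
    (h : Tendsto (fun n : ℕ => g^[n] x) atTop (𝓝 y)) : x = y := by
  have h6 : (fun n : ℕ => g^[n] x) = fun _ => x := by
    funext n
    exact Function.iterate_fixed hx n
  rw [h6] at h
  exact tendsto_nhds_unique tendsto_const_nhds h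

theorem t_ONE : S_ONE.{u} := by
  intro hB hP hCi M _ _ _ g P Q e h H hSh
  obtain ⟨p, hp⟩ := H.ne
  obtain ⟨q, hq, s', hb⟩ := (hP hB M g P Q e h H).1 p hp true
  have Hp := H.src p hp
  have Hq := H.snk q hq
  have par3 := (hP hB M g P Q e h H).2.2.1
  have par4 := (hP hB M g P Q e h H).2.2.2
  obtain ⟨gp, bp1, bp2, bp3, -⟩ := hB M g.symm p (e p) (h p) Hp
  obtain ⟨gq, bq1, bq2, bq3, -⟩ := hB M g q (e q) (h q) Hq
  have gp' : g p = p := by
    conv_rhs => rw [← g.apply_symm_apply p, gp]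
  obtain ⟨b0, hb0⟩ : ∃ b0 : Set M, b0 = Br g (e q) s' := ⟨_, rfl⟩
  have hb0' : b0 = Br g.symm (e p) true := by rw [hb0, hb]
  obtain ⟨o1, o2, o3, o4, o5, o6⟩ := bq1 s'
  rw [← hb0] at o1 o2 o3 o4 o5 o6
  obtain ⟨w1, w2, w3, w4, w5, w6⟩ := bp1 true
  rw [← hb0'] at w1 w2 w3 w4 w5 w6
  have hpq : p ≠ q := fun hh => H.dis p hp (hh ▸ hq)
  -- the component
  have hCb : ∀ (b : Set M) (r : M), IsConnected b → r ∈ closure b → b ⊆ connectedComponent r := by
    intro b r hb hr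
    have h1 : IsConnected (insert r b) := hb.subset_closure (subset_insert r b)
      (insert_subset hr subset_closure)
    exact (subset_insert r b).trans
      (h1.isPreconnected.subset_connectedComponent (mem_insert r b))
  obtain ⟨C, hC⟩ : ∃ C : Set M, C = connectedComponent q := ⟨_, rfl⟩
  have hbC : b0 ⊆ C := by rw [hC]; exact hCb b0 q o2 o5
  have hCp : connectedComponent p = C := by
    obtain ⟨x, hx⟩ := o2.nonempty
    have h1 := hCb b0 p w2 w5 hx
    have h2 := hCb b0 q o2 o5 hx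
    rw [hC]
    rw [connectedComponent_eq h1, connectedComponent_eq h2]
  have hCo : IsOpen C := by rw [hC]; exact isOpen_connectedComponent
  have hCc : IsClosed C := by rw [hC]; exact isClosed_connectedComponent
  have hqC : q ∈ C := by rw [hC]; exact mem_connectedComponent
  have hpC : p ∈ C := by rw [← hCp]; exact mem_connectedComponent
  have hgC : ∀ x, x ∈ C ↔ g x ∈ C := by
    have gq' : g.symm q = q := by
      conv_rhs => rw [← g.symm_apply_apply q, gq]
    have h1 : g '' C ⊆ C := by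
      rw [hC]
      apply IsPreconnected.subset_connectedComponent
      · exact isPreconnected_connectedComponent.image g g.continuous.continuousOn
      · exact ⟨q, mem_connectedComponent, gq⟩
    have h2 : g.symm '' C ⊆ C := by
      rw [hC]
      apply IsPreconnected.subset_connectedComponent
      · exact isPreconnected_connectedComponent.image g.symm g.symm.continuous.continuousOn
      · exact ⟨q, mem_connectedComponent, gq'⟩
    intro x
    refine ⟨fun hx => h1 ⟨x, hx, rfl⟩, fun hx => h2 ⟨g x, hx, g.symm_apply_apply x⟩⟩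
  -- fixed points
  have gfixP : ∀ r ∈ P, g.symm r = r := fun r hr => (hB M g.symm r (e r) (h r) (H.src r hr)).1
  have gfixQ : ∀ r ∈ Q, g r = r := fun r hr => (hB M g r (e r) (h r) (H.snk r hr)).1
  -- `P2`
  have hcl : IsOpen (b0 ∪ {p, q})ᶜ := by
    rw [isOpen_iff_mem_nhds]
    intro x hx
    simp only [mem_compl_iff, mem_union, mem_insert_iff, mem_singleton_iff, not_or] at hx
    obtain ⟨x1, x2, x3⟩ := hx
    obtain ⟨O, hO, hxO, hOb⟩ : ∃ O : Set M, IsOpen O ∧ x ∈ O ∧ ∀ y ∈ O, y ∉ b0 := by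
      by_cases hxP : x ∈ P
      · have Hx := H.src x hxP
        refine ⟨e x '' Ioo (-1 : ℝ) 1, Hx.eo _ subset_rfl isOpen_Ioo, ⟨0, by norm_num, Hx.ep⟩, ?_⟩
        intro y hy hyb
        rcases arc_br Hx y hy with h1 | ⟨s, h1⟩
        · rw [h1] at hyb
          exact x2 (fix_eq (gfixP x hxP) (w6 x hyb))
        · rw [hb0'] at hyb
          exact x2 (par3 x hxP p hp s true ⟨y, h1, hyb⟩).1
      · by_cases hxQ : x ∈ Q
        · have Hx := H.snk x hxQ
          refine ⟨e x '' Ioo (-1 : ℝ) 1, Hx.eo _ subset_rfl isOpen_Ioo,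
            ⟨0, by norm_num, Hx.ep⟩, ?_⟩
          intro y hy hyb
          rcases arc_br Hx y hy with h1 | ⟨s, h1⟩
          · rw [h1] at hyb
            exact x3 (fix_eq (gfixQ x hxQ) (o6 x hyb))
          · rw [hb0] at hyb
            exact x3 (par4 x hxQ q hq s s' ⟨y, h1, hyb⟩).1
        · obtain ⟨q', hq', hlim⟩ := H.fut x hxP
          obtain ⟨-, z1, -, z3, -⟩ := hB M g q' (e q') (h q') (H.snk q' hq')
          rcases z3 x hlim with h1 | ⟨s, h1⟩
          · exact absurd (h1 ▸ hq') hxQ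
          · refine ⟨Br g (e q') s, (z1 s).1, h1, ?_⟩
            intro y hy hyb
            rw [hb0] at hyb
            obtain ⟨e1, e2⟩ := par4 q' hq' q hq s s' ⟨y, hy, hyb⟩
            apply x1
            rw [hb0, ← e1, ← e2]
            exact h1
    have h1 : O ∩ ({p}ᶜ ∩ {q}ᶜ) ∈ 𝓝 x :=
      inter_mem (hO.mem_nhds hxO) (inter_mem (isOpen_compl_singleton.mem_nhds x2)
        (isOpen_compl_singleton.mem_nhds x3))
    refine mem_of_superset h1 ?_
    rintro y ⟨y1, y2, y3⟩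
    simp only [mem_compl_iff, mem_union, mem_insert_iff, mem_singleton_iff, not_or]
    exact ⟨hOb y y1, y2, y3⟩
  obtain ⟨P2, hP2⟩ : ∃ P2 : Set M, P2 = C ∩ (b0 ∪ {p, q})ᶜ := ⟨_, rfl⟩
  have hP2o : IsOpen P2 := by rw [hP2]; exact hCo.inter hcl
  have hP2g : ∀ x, g x ∈ P2 → x ∈ P2 := by
    intro x hx
    rw [hP2] at hx ⊢
    refine ⟨(hgC x).2 hx.1, ?_⟩
    have h2 := hx.2
    simp only [mem_compl_iff, mem_union, mem_insert_iff, mem_singleton_iff, not_or] at h2 ⊢
    refine ⟨fun hh => h2.1 ((o3 x).1 hh), fun hh => h2.2.1 (by rw [hh, gp']),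
      fun hh => h2.2.2 (by rw [hh, gq])⟩
  have hP2g' : ∀ (n : ℕ) x, g^[n] x ∈ P2 → x ∈ P2 := by
    intro n
    induction n with
    | zero => exact fun x hx => hx
    | succ n ih =>
      intro x hx
      rw [Function.iterate_succ_apply'] at hx
      exact ih x (hP2g _ hx)
  have hb0g' : ∀ (n : ℕ) x, g^[n] x ∈ b0 → x ∈ b0 := by
    intro n
    induction n with
    | zero => exact fun x hx => hx
    | succ n ih =>
      intro x hx
      rw [Function.iterate_succ_apply'] at hx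
      exact ih x ((o3 _).2 hx)
  have hdisj : Disjoint b0 P2 := by
    rw [Set.disjoint_left]
    intro x hx hx2
    rw [hP2] at hx2
    exact hx2.2 (Or.inl hx)
  obtain ⟨x1, hx1⟩ := o2.nonempty
  obtain ⟨x2, hx2⟩ : P2.Nonempty := by
    obtain ⟨v1, v2, v3, v4, v5, v6⟩ := bp1 false
    obtain ⟨x, hx⟩ := v2.nonempty
    refine ⟨x, ?_⟩
    rw [hP2]
    refine ⟨?_, ?_⟩
    · rw [← hCp]; exact hCb _ p v2 v5 hx
    · simp only [mem_compl_iff, mem_union, mem_insert_iff, mem_singleton_iff, not_or]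
      refine ⟨?_, ?_, ?_⟩
      · intro hh
        rw [hb0'] at hh
        exact Set.disjoint_left.1 bp2 hh hx
      · intro hh
        exact v4 (hh ▸ hx)
      · intro hh
        have h1 := v6 x hx
        rw [hh] at h1
        have gq' : g.symm q = q := by
          conv_rhs => rw [← g.symm_apply_apply q, gq]
        exact hpq (fix_eq gq' h1).symm
  have hx2C : x2 ∈ C := by rw [hP2] at hx2; exact hx2.1
  have hx2n : x2 ≠ p ∧ x2 ≠ q := by
    rw [hP2] at hx2
    have h2 := hx2.2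
    simp only [mem_compl_iff, mem_union, mem_insert_iff, mem_singleton_iff, not_or] at h2
    exact h2.2
  have hx1n : x1 ≠ p ∧ x1 ≠ q := ⟨fun hh => w4 (hh ▸ hx1), fun hh => o4 (hh ▸ hx1)⟩
  -- `ε`
  obtain ⟨ε1, hε1, he1⟩ := Metric.isOpen_iff.1 o1 x1 hx1
  obtain ⟨ε2, hε2, he2⟩ := Metric.isOpen_iff.1 hP2o x2 hx2
  obtain ⟨ε3, hε3, he3⟩ := Metric.isOpen_iff.1 (Hq.eo _ subset_rfl isOpen_Ioo) q
    ⟨0, by norm_num, Hq.ep⟩
  obtain ⟨ε4, hε4, he4⟩ := Metric.isOpen_iff.1 (Hp.eo _ subset_rfl isOpen_Ioo) p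
    ⟨0, by norm_num, Hp.ep⟩
  obtain ⟨ε5, hε5, he5⟩ := hCc.isCompact.exists_thickening_subset_open hCo subset_rfl
  obtain ⟨ε, hε, k1, k2, k3, k4, k5⟩ : ∃ κ : ℝ, 0 < κ ∧ κ ≤ ε1 ∧ κ ≤ ε2 ∧ κ ≤ ε3 ∧ κ ≤ ε4 ∧
      κ ≤ ε5 := by
    refine ⟨min (min ε1 ε2) (min ε3 (min ε4 ε5)),
      lt_min (lt_min hε1 hε2) (lt_min hε3 (lt_min hε4 hε5)), ?_, ?_, ?_, ?_, ?_⟩
    · exact le_trans (min_le_left _ _) (min_le_left _ _)
    · exact le_trans (min_le_left _ _) (min_le_right _ _)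
    · exact le_trans (min_le_right _ _) (min_le_left _ _)
    · exact le_trans (min_le_right _ _) (le_trans (min_le_right _ _) (min_le_left _ _))
    · exact le_trans (min_le_right _ _) (le_trans (min_le_right _ _) (min_le_right _ _))
  obtain ⟨δ, hδ, hsh⟩ := hSh ε hε
  -- `t`
  obtain ⟨r, hr, r1, r2, r3, r4, r5⟩ : ∃ κ : ℝ, 0 < κ ∧ κ ≤ δ / 4 ∧ κ ≤ dist x1 p ∧
      κ ≤ dist x1 q ∧ κ ≤ dist x2 p ∧ κ ≤ dist x2 q := by
    have d1 := dist_pos.2 hx1n.1
    have d2 := dist_pos.2 hx1n.2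
    have d3 := dist_pos.2 hx2n.1
    have d4 := dist_pos.2 hx2n.2
    refine ⟨min (min (δ / 4) (dist x1 p)) (min (dist x1 q) (min (dist x2 p) (dist x2 q))),
      lt_min (lt_min (by linarith) d1) (lt_min d2 (lt_min d3 d4)), ?_, ?_, ?_, ?_, ?_⟩
    · exact le_trans (min_le_left _ _) (min_le_left _ _)
    · exact le_trans (min_le_left _ _) (min_le_right _ _)
    · exact le_trans (min_le_right _ _) (min_le_left _ _)
    · exact le_trans (min_le_right _ _) (le_trans (min_le_right _ _) (min_le_left _ _))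
    · exact le_trans (min_le_right _ _) (le_trans (min_le_right _ _) (min_le_right _ _))
  obtain ⟨τ1, hτ1, -, hs1⟩ := arc_small Hq r hr
  obtain ⟨τ2, hτ2, -, hs2⟩ := arc_small Hp r hr
  obtain ⟨τ3, hτ3, hτ31, hX⟩ := hCi hB hP M g P Q e h H q hq
  obtain ⟨τ4, hτ4, hτ41, hY⟩ := hCi hB hP M g.symm Q P e h H.inv p hp
  obtain ⟨t, ht, t1, t2, t3, t4⟩ : ∃ t : ℝ, 0 < t ∧ t < τ1 ∧ t < τ2 ∧ t < τ3 ∧ t < τ4 := by
    have hm : 0 < min (min τ1 τ2) (min τ3 τ4) := lt_min (lt_min hτ1 hτ2) (lt_min hτ3 hτ4)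
    have hlt : min (min τ1 τ2) (min τ3 τ4) / 2 < min (min τ1 τ2) (min τ3 τ4) := half_lt_self hm
    refine ⟨min (min τ1 τ2) (min τ3 τ4) / 2, half_pos hm, ?_, ?_, ?_, ?_⟩
    · exact lt_of_lt_of_le hlt (le_trans (min_le_left _ _) (min_le_left _ _))
    · exact lt_of_lt_of_le hlt (le_trans (min_le_left _ _) (min_le_right _ _))
    · exact lt_of_lt_of_le hlt (le_trans (min_le_right _ _) (min_le_left _ _))
    · exact lt_of_lt_of_le hlt (le_trans (min_le_right _ _) (min_le_right _ _))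
  have htle : t < 1 := by linarith
  have hX' := hX t ht t3
  have hY' := hY t ht t4
  rw [← hC] at hX'
  rw [hCp] at hY'
  have endq := arc_end Hq t ht htle
  have endp := arc_end Hp t ht htle
  rw [← hC] at endq
  rw [hCp] at endp
  obtain ⟨X, hXd⟩ : ∃ X : Set M, X = C \ e q '' Ioo (-t) t := ⟨_, rfl⟩
  obtain ⟨Y, hYd⟩ : ∃ Y : Set M, Y = C \ e p '' Ioo (-t) t := ⟨_, rfl⟩
  rw [← hXd] at hX' endq
  rw [← hYd] at hY' endp
  have cptX : IsCompact X := by
    rw [hXd]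
    exact (hCc.inter (Hq.eo _ (Ioo_subset_Ioo (by linarith) htle.le) isOpen_Ioo).isClosed_compl).isCompact
  have cptY : IsCompact Y := by
    rw [hYd]
    exact (hCc.inter (Hp.eo _ (Ioo_subset_Ioo (by linarith) htle.le) isOpen_Ioo).isClosed_compl).isCompact
  have smq : ∀ s ∈ Ioo (-t) t, dist (e q s) q < r := fun s hs =>
    hs1 s (abs_lt.2 ⟨by linarith [hs.1], by linarith [hs.2]⟩)
  have smp : ∀ s ∈ Ioo (-t) t, dist (e p s) p < r := fun s hs =>
    hs2 s (abs_lt.2 ⟨by linarith [hs.1], by linarith [hs.2]⟩)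
  have hx1Y : x1 ∈ Y := by
    rw [hYd]
    refine ⟨hbC hx1, ?_⟩
    rintro ⟨s, hs, hse⟩
    have := smp s hs
    rw [hse] at this
    linarith
  have hx2Y : x2 ∈ Y := by
    rw [hYd]
    refine ⟨hx2C, ?_⟩
    rintro ⟨s, hs, hse⟩
    have := smp s hs
    rw [hse] at this
    linarith
  have hHd : hausdorffDist X Y < δ := by
    have hle : hausdorffDist X Y ≤ δ / 2 := by
      apply hausdorffDist_le_of_mem_dist (by linarith)
      · intro x hx
        by_cases hxY : x ∈ Y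
        · exact ⟨x, hxY, by rw [dist_self]; linarith⟩
        · refine ⟨e p t, endp, ?_⟩
          rw [hYd] at hxY
          have hxC : x ∈ C := by rw [hXd] at hx; exact hx.1
          have h1 : x ∈ e p '' Ioo (-t) t := by
            by_contra hcon
            exact hxY ⟨hxC, hcon⟩
          obtain ⟨s, hs, rfl⟩ := h1
          have h2 := smp s hs
          have h3 : dist (e p t) p < r := hs2 t (by rw [abs_of_pos ht]; exact t2)
          have h4 := dist_triangle_right (e p s) (e p t) p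
          linarith
      · intro x hx
        by_cases hxY : x ∈ X
        · exact ⟨x, hxY, by rw [dist_self]; linarith⟩
        · refine ⟨e q t, endq, ?_⟩
          rw [hXd] at hxY
          have hxC : x ∈ C := by rw [hYd] at hx; exact hx.1
          have h1 : x ∈ e q '' Ioo (-t) t := by
            by_contra hcon
            exact hxY ⟨hxC, hcon⟩
          obtain ⟨s, hs, rfl⟩ := h1
          have h2 := smq s hs
          have h3 : dist (e q t) q < r := hs1 t (by rw [abs_of_pos ht]; exact t1)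
          have h4 := dist_triangle_right (e q s) (e q t) q
          linarith
    linarith
  -- `J`
  obtain ⟨n0, hn0⟩ := exists_pow_lt_of_lt_one ht (by norm_num : (1 / 2 : ℝ) < 1)
  obtain ⟨J, hJ⟩ : ∃ J : ℕ, J = n0 + 1 := ⟨_, rfl⟩
  have hJt : ((1 : ℝ) / 2) ^ J < t := by
    rw [hJ, pow_succ]
    have : (0 : ℝ) < (1 / 2) ^ n0 := by positivity
    linarith
  have hin : ∀ (f : M ≃ₜ M) (r : M) (e : ℝ → M) (h : ℝ → ℝ), Arc1 f r e h →
      ∀ x ∈ e '' Ioo (-1 : ℝ) 1, f^[J] x ∈ e '' Ioo (-t) t := by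
    intro f r e h Hr x hx
    obtain ⟨s, hs, rfl⟩ := hx
    obtain ⟨i1, i2, i3⟩ := arc_iter Hr s ⟨hs.1.le, hs.2.le⟩ J
    rw [i1]
    refine ⟨_, ?_, rfl⟩
    have h1 : |s| ≤ 1 := abs_le.2 ⟨hs.1.le, hs.2.le⟩
    have h2 : (0 : ℝ) < (1 / 2) ^ J := by positivity
    have h3 : |h^[J] s| < t := by nlinarith [abs_nonneg s]
    exact ⟨(abs_lt.1 h3).1, (abs_lt.1 h3).2⟩
  -- continua
  let XC : CM M := ⟨⟨⟨X, cptX⟩, hX'.nonempty⟩, hX'⟩
  let YC : CM M := ⟨⟨⟨Y, cptY⟩, hY'.nonempty⟩, hY'⟩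
  have ginv : ∀ K : CM M, Cmap g g.continuous (Cmap g.symm g.symm.continuous K) = K := by
    intro K
    apply Subtype.ext
    apply SetLike.coe_injective
    change g '' (g.symm '' (K.1 : Set M)) = (K.1 : Set M)
    rw [← image_comp, g.self_comp_symm, image_id]
  let y : ℕ → CM M := fun j => if j < J then (Cmap g.symm g.symm.continuous)^[J - j] XC
    else (Cmap g g.continuous)^[j - J] YC
  have hy1 : ∀ j, j < J → y j = (Cmap g.symm g.symm.continuous)^[J - j] XC :=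
    fun j hj => by simp [y, hj]
  have hy2 : ∀ j, J ≤ j → y j = (Cmap g g.continuous)^[j - J] YC :=
    fun j hj => by simp [y, not_lt.mpr hj]
  have hps : ∀ n, dist (Cmap g g.continuous (y n)) (y (n + 1)) < δ := by
    intro n
    rcases Nat.lt_or_ge n J with h1 | h1
    · have e1 : J - n = (J - (n + 1)) + 1 := by omega
      rw [hy1 n h1, e1, Function.iterate_succ_apply', ginv]
      rcases Nat.lt_or_ge (n + 1) J with h2 | h2
      · rw [hy1 (n + 1) h2, dist_self]; exact hδ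
      · rw [hy2 (n + 1) h2]
        have e2 : J - (n + 1) = 0 := by omega
        have e3 : n + 1 - J = 0 := by omega
        rw [e2, e3]
        exact hHd
    · rw [hy2 n h1, hy2 (n + 1) (by omega), ← Function.iterate_succ_apply' (Cmap g g.continuous)]
      have e1 : n + 1 - J = (n - J).succ := by omega
      rw [e1, dist_self]; exact hδ
  obtain ⟨K, hK⟩ := hsh y hps
  have near1 : ∀ n, ∀ z ∈ (K.1 : Set M), ∃ x ∈ ((y n).1 : Set M), dist (g^[n] z) x < ε := by
    intro n z hz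
    apply cm_near (hK n)
    rw [cm_iter]
    exact mem_image_of_mem _ hz
  have near2 : ∀ n, ∀ x ∈ ((y n).1 : Set M), ∃ z ∈ (K.1 : Set M), dist (g^[n] z) x < ε := by
    intro n x hx
    have h := hK n
    rw [dist_comm] at h
    obtain ⟨w, hw, hw2⟩ := cm_near h hx
    rw [cm_iter] at hw
    obtain ⟨z, hz, rfl⟩ := hw
    exact ⟨z, hz, by rw [dist_comm]; exact hw2⟩
  have hy0 : ((y 0).1 : Set M) = g.symm^[J] '' X := by
    rw [hy1 0 (by omega), Nat.sub_zero, cm_iter]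
    rfl
  have hyJ : ((y J).1 : Set M) = Y := by
    rw [hy2 J le_rfl, Nat.sub_self]
    rfl
  have hy2J : ((y (J + J)).1 : Set M) = g^[J] '' Y := by
    rw [hy2 (J + J) (by omega), Nat.add_sub_cancel, cm_iter]
    rfl
  have hXC : X ⊆ C := by rw [hXd]; exact diff_subset
  have gCn : ∀ n : ℕ, ∀ x ∈ C, g.symm^[n] x ∈ C := by
    intro n
    induction n with
    | zero => exact fun x hx => hx
    | succ n ih =>
      intro x hx
      rw [Function.iterate_succ_apply', hgC, Homeomorph.apply_symm_apply]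
      exact ih x hx
  have hKC : ∀ z ∈ (K.1 : Set M), z ∈ C := by
    intro z hz
    obtain ⟨x, hx, hd⟩ := near1 0 z hz
    rw [hy0] at hx
    obtain ⟨x', hx', rfl⟩ := hx
    apply he5
    rw [mem_thickening_iff]
    exact ⟨_, gCn J x' (hXC hx'), lt_of_lt_of_le hd k5⟩
  have hqK : q ∉ (K.1 : Set M) := by
    intro hqK
    obtain ⟨x, hx, hd⟩ := near1 0 q hqK
    rw [hy0] at hx
    obtain ⟨x', hx', rfl⟩ := hx
    have h1 : g.symm^[J] x' ∈ e q '' Ioo (-1 : ℝ) 1 := by
      apply he3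
      rw [mem_ball, dist_comm]
      exact lt_of_lt_of_le hd k3
    have h2 := hin g q (e q) (h q) Hq _ h1
    rw [g_symm_iter] at h2
    rw [hXd] at hx'
    exact hx'.2 h2
  have hpK : p ∉ (K.1 : Set M) := by
    intro hpK
    obtain ⟨x, hx, hd⟩ := near1 (J + J) p hpK
    rw [hy2J] at hx
    obtain ⟨x', hx', rfl⟩ := hx
    rw [Function.iterate_fixed gp'] at hd
    have h1 : g^[J] x' ∈ e p '' Ioo (-1 : ℝ) 1 := by
      apply he4
      rw [mem_ball, dist_comm]
      exact lt_of_lt_of_le hd k4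
    have h2 := hin g.symm p (e p) (h p) Hp _ h1
    have h3 : g.symm^[J] (g^[J] x') = x' := g_symm_iter g.symm J x'
    rw [h3] at h2
    rw [hYd] at hx'
    exact hx'.2 h2
  have hsub : (K.1 : Set M) ⊆ b0 ∪ P2 := by
    intro z hz
    by_cases hzb : z ∈ b0
    · exact Or.inl hzb
    · right
      rw [hP2]
      refine ⟨hKC z hz, ?_⟩
      simp only [mem_compl_iff, mem_union, mem_insert_iff, mem_singleton_iff, not_or]
      exact ⟨hzb, fun hh => hpK (hh ▸ hz), fun hh => hqK (hh ▸ hz)⟩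
  obtain ⟨z1, hz1, hz1'⟩ := near2 J x1 (by rw [hyJ]; exact hx1Y)
  obtain ⟨z2, hz2, hz2'⟩ := near2 J x2 (by rw [hyJ]; exact hx2Y)
  have hz1b : z1 ∈ b0 := hb0g' J z1 (he1 (by rw [mem_ball]; linarith))
  have hz2b : z2 ∈ P2 := hP2g' J z2 (he2 (by rw [mem_ball]; linarith))
  rcases K.2.isPreconnected.subset_or_subset o1 hP2o hdisj hsub with h1 | h1
  · exact Set.disjoint_left.1 hdisj (h1 hz2) hz2b
  · exact Set.disjoint_left.1 hdisj hz1b (h1 hz1)

end Pool.Agent.Q62.MS
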