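import Pool.Agent.Q62.MS.Pqg
import Pool.Agent.Q62.MS.Lo1
import Pool.Agent.Q62.MS.One

/-! Project MS (helper62): MS20. -/

set_option autoImplicit false

open Set Filter Topology TopologicalSpace Metric
open scoped Manifold ContDiff

universe u

namespace Pool.Agent.Q62.MS

theorem sub_one_dim (Es Eu : Submodule ℝ (EE 1)) (hc : IsCompl Es Eu) : Es = ⊥ ∨ Eu = ⊥ := by
  by_contra hcon
  push Not at hcon
  obtain ⟨a, ha, ha0⟩ := Submodule.exists_mem_ne_zero_of_ne_bot hcon.1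
  obtain ⟨b, hb, hb0⟩ := Submodule.exists_mem_ne_zero_of_ne_bot hcon.2
  have h1 : b 0 ≠ 0 := by
    intro h
    apply hb0
    rw [uu_coord b, h, zero_smul]
  have h2 : a = (a 0 / b 0) • b := by
    have h4 : (a 0 / b 0) • b = (a 0 / b 0) • (b 0 • uu) := by rw [← uu_coord]
    rw [h4, smul_smul, div_mul_cancel₀ _ h1]
    exact uu_coord a
  have h3 : a ∈ Eu := by
    rw [h2]
    exact Eu.smul_mem _ hb
  have := hc.disjoint.le_bot ⟨ha, h3⟩
  exact ha0 (by simpa using this)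

theorem rep_lim {M : Type u} [MetricSpace M] {g : M ≃ₜ M} {y x : M} {e : ℝ → M} {h : ℝ → ℝ}
    (H : Arc1 g.symm y e h) (hx : Tendsto (fun n : ℕ => g^[n] x) atTop (𝓝 y)) : x = y := by
  have h1 : e '' Ioo (-1 : ℝ) 1 ∈ 𝓝 y :=
    (H.eo _ subset_rfl isOpen_Ioo).mem_nhds ⟨0, by norm_num, H.ep⟩
  obtain ⟨n0, hn0⟩ := eventually_atTop.1 (hx.eventually h1)
  choose! t ht hte using hn0
  have gy : g y = y := by
    have h2 := H.eh 0 (by norm_num)
    rw [H.h0, H.ep] at h2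
    conv_lhs => rw [h2, g.apply_symm_apply]
  have hIcc : ∀ n ≥ n0, t n ∈ Icc (-1 : ℝ) 1 := fun n hn => ⟨(ht n hn).1.le, (ht n hn).2.le⟩
  have hstep : ∀ n ≥ n0, t n = h (t (n + 1)) := by
    intro n hn
    have i2 := hIcc (n + 1) (by omega)
    apply H.ei (hIcc n hn)
    · have h3 := H.h2 _ i2
      have h4 : |t (n + 1)| ≤ 1 := abs_le.2 ⟨i2.1, i2.2⟩
      exact ⟨by linarith [(abs_le.1 h3).1], by linarith [(abs_le.1 h3).2]⟩
    · rw [hte n hn, H.eh _ i2, hte (n + 1) (by omega), Function.iterate_succ_apply',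
        g.symm_apply_apply]
  have hb : ∀ m : ℕ, |t n0| ≤ |t (n0 + m)| * (1 / 2) ^ m := by
    intro m
    induction m with
    | zero => simp
    | succ m ih =>
      have h3 := H.h2 _ (hIcc (n0 + m + 1) (by omega))
      rw [← hstep (n0 + m) (by omega)] at h3
      have h4 : |t (n0 + m)| * (1 / 2 : ℝ) ^ m ≤ |t (n0 + m + 1)| / 2 * (1 / 2) ^ m :=
        mul_le_mul_of_nonneg_right h3 (by positivity)
      rw [pow_succ]
      have e1 : n0 + (m + 1) = n0 + m + 1 := by omega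
      rw [e1]
      linarith
  have h0 : t n0 = 0 := by
    by_contra hne
    have hpos := abs_pos.2 hne
    obtain ⟨m, hm⟩ := exists_pow_lt_of_lt_one hpos (by norm_num : (1 / 2 : ℝ) < 1)
    have h3 := hb m
    have h4 : |t (n0 + m)| ≤ 1 := by
      have := hIcc (n0 + m) (by omega)
      exact abs_le.2 ⟨this.1, this.2⟩
    have h5 : (0 : ℝ) < (1 / 2) ^ m := by positivity
    nlinarith
  have h5 := hte n0 le_rfl
  rw [h0, H.ep] at h5
  have h6 : g^[n0] x = g^[n0] y := by rw [← h5, Function.iterate_fixed gy]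
  exact g.injective.iterate n0 h6

/-- a point near `q` which is not fixed -/
theorem arc_nonfix {M : Type u} [MetricSpace M] {g : M ≃ₜ M} {q : M} {e : ℝ → M} {h : ℝ → ℝ}
    (H : Arc1 g q e h) : g (e (1 / 2)) ≠ e (1 / 2) := by
  intro hh
  have i1 : (1 / 2 : ℝ) ∈ Icc (-1 : ℝ) 1 := by norm_num
  have h2 := H.h2 _ i1
  rw [abs_of_pos (by norm_num : (0 : ℝ) < 1 / 2)] at h2
  have h3 := abs_le.1 h2
  rw [← H.eh _ i1] at hh
  have h4 := H.ei ⟨by linarith [h3.1], by linarith [h3.2]⟩ i1 hh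
  rw [h4] at h3
  linarith [h3.2]

theorem t_CYC : S_CYC.{u} := by
  classical
  intro hCHA hCVG hITE hLO1 M _ _ _ _ _ F hF
  obtain ⟨K, hK, hx⟩ := hITE 1 M F hF
  have hfix : ∀ x, NW F x → (F ^ K : M ≃ₜ M) x = x := by
    intro x h
    rw [hp_nat]; exact (hx x h).1
  have c1 : ContMDiff (𝓡 1) (𝓡 1) 1 (F ^ K : M ≃ₜ M) := by
    rw [hp_nat]; exact cmd_iter' hF.c1 K
  have c2 : ContMDiff (𝓡 1) (𝓡 1) 1 (F ^ K : M ≃ₜ M).symm := by
    rw [hp_symm]; exact cmd_iter' hF.c2 K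
  have hper : ∀ x, NW F x → ∃ k : ℕ, 1 ≤ k ∧ F^[k] x = x := by
    intro x h
    obtain ⟨k, h1, h2, -⟩ := hF.hyp x h
    exact ⟨k, h1, h2⟩
  have hcv := (hCVG M F hF.fin hper).2 K hK (fun x h => (hx x h).1)
  rw [← hp_nat] at hx
  refine ⟨K, hK, ?_⟩
  obtain ⟨g, hg⟩ : ∃ g : M ≃ₜ M, g = F ^ K := ⟨_, rfl⟩
  rw [← hg] at hfix c1 c2 hcv hx ⊢
  -- at every point of `Ω`
  have hpt : ∀ x, NW F x →
      (‖Der (d := 1) g x‖ < 1 / 2 ∨ ‖Der (d := 1) g.symm x‖ < 1 / 2) ∧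
      ¬ (‖Der (d := 1) g x‖ < 1 / 2 ∧ ‖Der (d := 1) g.symm x‖ < 1 / 2) ∧
      (‖Der (d := 1) g x‖ < 1 / 2 → ∃ (e : ℝ → M) (h : ℝ → ℝ), Arc1 g x e h) ∧
      (‖Der (d := 1) g.symm x‖ < 1 / 2 → ∃ (e : ℝ → M) (h : ℝ → ℝ), Arc1 g.symm x e h) := by
    intro x hxN
    obtain ⟨-, Es, Eu, hc, k1, k2, k3, k4, B, hB⟩ := hx x hxN
    obtain ⟨i1, i2, e, φ, ψ, R, H⟩ := hCHA 1 M g c1 c2 x (hfix x hxN)
    obtain ⟨A, hA⟩ : ∃ A : EE 1 →L[ℝ] EE 1, A = Der (d := 1) g x := ⟨_, rfl⟩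
    obtain ⟨A', hA'⟩ : ∃ A' : EE 1 →L[ℝ] EE 1, A' = Der (d := 1) g.symm x := ⟨_, rfl⟩
    rw [← hA] at k1 k2 k3 k4 i1 i2 H hB
    rw [← hA'] at i1 i2 H
    rw [← hA, ← hA']
    have j1 : ∀ v, A (A' v) = v := fun v => congrArg (fun B : EE 1 →L[ℝ] EE 1 => B v) i1
    have j2 : ∀ v, A' (A v) = v := fun v => congrArg (fun B : EE 1 →L[ℝ] EE 1 => B v) i2
    refine ⟨?_, ?_, ?_, ?_⟩
    · rcases sub_one_dim Es Eu hc with h1 | h1
      · right
        have hEu : Eu = ⊤ := by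
          have := hc.sup_eq_top
          rwa [h1, bot_sup_eq] at this
        apply norm_le_quarter
        intro v
        have := k4 (A' v) (by rw [hEu]; trivial)
        rw [j1] at this
        linarith
      · left
        have hEs : Es = ⊤ := by
          have := hc.sup_eq_top
          rwa [h1, sup_bot_eq] at this
        exact norm_le_quarter _ (fun v => k3 v (by rw [hEs]; trivial))
    · rintro ⟨n1, n2⟩
      have h2 := A.le_opNorm (A' uu)
      have h3 := A'.le_opNorm uu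
      rw [j1, uu_norm] at h2
      rw [uu_norm, mul_one] at h3
      have h5 := norm_nonneg A
      have h6 := norm_nonneg A'
      have h7 := norm_nonneg (A' uu)
      nlinarith
    · intro hn
      exact hLO1 M g x A A' B e φ ψ R H i2 hB hn
    · intro hn
      -- the square root of `A'`
      have hB' : A' = (B.comp A').comp (B.comp A') := by
        ext1 v
        change A' v = B (A' (B (A' v)))
        have h1 : A' (B (A' v)) = B (A' (A' v)) := by
          rw [lin_one A' (B (A' v)), lin_one A' (A' v), map_smul]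
        rw [h1]
        have h2 : B (B (A' (A' v))) = A (A' (A' v)) := by rw [hB]; rfl
        rw [h2, j1]
      exact hLO1 M g.symm x A' A (B.comp A') e ψ φ R H.swap i1 hB' hn
  -- the sets
  have hQf : {x | NW F x ∧ ‖Der (d := 1) g x‖ < 1 / 2}.Finite := hF.fin.subset fun x hx => hx.1
  have hPf : {x | NW F x ∧ ‖Der (d := 1) g.symm x‖ < 1 / 2}.Finite :=
    hF.fin.subset fun x hx => hx.1
  have hmQ : ∀ x, x ∈ hQf.toFinset ↔ NW F x ∧ ‖Der (d := 1) g x‖ < 1 / 2 := by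
    intro x; rw [Set.Finite.mem_toFinset]; rfl
  have hmP : ∀ x, x ∈ hPf.toFinset ↔ NW F x ∧ ‖Der (d := 1) g.symm x‖ < 1 / 2 := by
    intro x; rw [Set.Finite.mem_toFinset]; rfl
  have hch : ∀ x, ∃ (e : ℝ → M) (h : ℝ → ℝ), (x ∈ hQf.toFinset → Arc1 g x e h) ∧
      (x ∈ hPf.toFinset → Arc1 g.symm x e h) := by
    intro x
    by_cases h1 : x ∈ hQf.toFinset
    · obtain ⟨n1, n2⟩ := (hmQ x).1 h1
      obtain ⟨e, h, H⟩ := (hpt x n1).2.2.1 n2
      refine ⟨e, h, fun _ => H, fun h2 => ?_⟩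
      exact absurd ⟨n2, ((hmP x).1 h2).2⟩ (hpt x n1).2.1
    · by_cases h2 : x ∈ hPf.toFinset
      · obtain ⟨n1, n2⟩ := (hmP x).1 h2
        obtain ⟨e, h, H⟩ := (hpt x n1).2.2.2 n2
        exact ⟨e, h, fun h3 => absurd h3 h1, fun _ => H⟩
      · exact ⟨fun _ => x, fun _ => 0, fun h3 => absurd h3 h1, fun h3 => absurd h3 h2⟩
  choose e h heh using hch
  have hfut : ∀ x, x ∉ hPf.toFinset → ∃ q ∈ hQf.toFinset,
      Tendsto (fun n : ℕ => g^[n] x) atTop (𝓝 q) := by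
    intro x hxP
    obtain ⟨y, hy, hl⟩ := (hcv x).1
    refine ⟨y, ?_, hl⟩
    rw [hmQ]
    refine ⟨hy, ?_⟩
    rcases (hpt y hy).1 with h1 | h1
    · exact h1
    · exfalso
      have hyP : y ∈ hPf.toFinset := (hmP y).2 ⟨hy, h1⟩
      have h2 := rep_lim ((heh y).2 hyP) hl
      exact hxP (h2 ▸ hyP)
  have hpas : ∀ x, x ∉ hQf.toFinset → ∃ p ∈ hPf.toFinset,
      Tendsto (fun n : ℕ => g.symm^[n] x) atTop (𝓝 p) := by
    intro x hxQ
    obtain ⟨y, hy, hl⟩ := (hcv x).2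
    refine ⟨y, ?_, hl⟩
    rw [hmP]
    refine ⟨hy, ?_⟩
    rcases (hpt y hy).1 with h1 | h1
    · exfalso
      have hyQ : y ∈ hQf.toFinset := (hmQ y).2 ⟨hy, h1⟩
      have h3 : Arc1 g.symm.symm y (e y) (h y) := (heh y).1 hyQ
      have h2 := rep_lim h3 hl
      exact hxQ (h2 ▸ hyQ)
    · exact h1
  refine ⟨hPf.toFinset, hQf.toFinset, e, h, ?_⟩
  exact
    { dis := by
        intro x h1 h2
        exact (hpt x ((hmP x).1 h1).1).2.1 ⟨((hmQ x).1 h2).2, ((hmP x).1 h1).2⟩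
      snk := fun q hq => (heh q).1 hq
      src := fun p hp => (heh p).2 hp
      fut := hfut
      pas := hpas
      ne := by
        obtain ⟨x⟩ := (inferInstance : Nonempty M)
        by_cases h1 : x ∈ hQf.toFinset
        · have h2 : e x (1 / 2) ∉ hQf.toFinset := by
            intro h3
            exact arc_nonfix ((heh x).1 h1) (hfix _ ((hmQ _).1 h3).1)
          obtain ⟨p, hp, -⟩ := hpas _ h2
          exact ⟨p, hp⟩
        · obtain ⟨p, hp, -⟩ := hpas _ h1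
          exact ⟨p, hp⟩
      ne' := by
        obtain ⟨x⟩ := (inferInstance : Nonempty M)
        by_cases h1 : x ∈ hPf.toFinset
        · have h2 : e x (1 / 2) ∉ hPf.toFinset := by
            intro h3
            apply arc_nonfix ((heh x).2 h1)
            have h4 := hfix _ ((hmP _).1 h3).1
            conv_lhs => rw [← h4, g.symm_apply_apply]
          obtain ⟨p, hp, -⟩ := hfut _ h2
          exact ⟨p, hp⟩
        · obtain ⟨p, hp, -⟩ := hfut _ h1
          exact ⟨p, hp⟩ }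

end Pool.Agent.Q62.MS
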