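import Pool.Agent.Q62.MS.Two

/-! Project MS (helper62): MS2. -/

set_option autoImplicit false

open Set Filter Topology TopologicalSpace Metric

universe u

namespace Pool.Agent.Q62.MS

theorem rep_nhds {M : Type u} [MetricSpace M] {g : M ≃ₜ M} {p : M} {U : Set M} (hR : Rep g p U) :
    p ∈ interior U := by
  apply hR.inn
  rw [hR.fp]
  exact hR.pU

theorem rep_le {M : Type u} [MetricSpace M] {g : M ≃ₜ M} {p : M} {U : Set M} (hR : Rep g p U)
    (z : M) (n m : ℕ) (h : m ≤ n) (hn : g^[n] z ∈ U) : g^[m] z ∈ U := by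
  rcases Nat.eq_or_lt_of_le h with h | h
  · rw [h]; exact hn
  · exact interior_subset (rep_down hR z n m h hn)

theorem t_ESC : S_ESC.{u} := by
  intro M _ _ g p U hR
  have part2 : ∀ C : Set M, IsCompact C → p ∉ C → ∃ N : ℕ, ∀ n ≥ N, ∀ x ∈ C, g^[n] x ∉ U := by
    intro C hC hp
    have hanti : Antitone fun n : ℕ => C ∩ {x | g^[n] x ∈ U} := by
      apply antitone_nat_of_succ_le
      rintro n x ⟨hx, hx2⟩
      exact ⟨hx, rep_le hR x (n + 1) n (Nat.le_succ n) hx2⟩
    by_contra hcon
    push Not at hcon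
    have hne : ∀ n : ℕ, (C ∩ {x | g^[n] x ∈ U}).Nonempty := by
      intro n
      obtain ⟨m, hm, x, hx, hx2⟩ := hcon n
      exact ⟨x, hx, rep_le hR x m n hm hx2⟩
    have hcl : ∀ n : ℕ, IsClosed {x | g^[n] x ∈ U} := fun n =>
      hR.cU.isClosed.preimage (g.continuous.iterate n)
    obtain ⟨x, hx⟩ := IsCompact.nonempty_iInter_of_directed_nonempty_isCompact_isClosed
      (fun n : ℕ => C ∩ {x | g^[n] x ∈ U}) hanti.directed_ge hne
      (fun n => hC.inter_right (hcl n)) (fun n => hC.isClosed.inter (hcl n))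
    rw [mem_iInter] at hx
    have h1 := hR.only x (fun n => (hx n).2)
    exact hp (h1 ▸ (hx 0).1)
  refine ⟨?_, part2⟩
  intro C hC hw O hO
  obtain ⟨m0, hm0⟩ := part2 (interior O)ᶜ isOpen_interior.isClosed_compl.isCompact
    (fun h => h (mem_interior_iff_mem_nhds.2 hO))
  have hA : ∀ n ≥ m0, ∀ y ∈ U, g.symm^[n] y ∈ O := by
    intro n hn y hy
    by_contra hcon
    apply hm0 n hn (g.symm^[n] y) (fun h => hcon (interior_subset h))
    rw [g_symm_iter]
    exact hy
  have hB : ∃ m : ℕ, ∀ x ∈ C, g.symm^[m] x ∈ U := by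
    have hmono : Monotone fun n : ℕ => {x | g.symm^[n] x ∈ interior U} := by
      apply monotone_nat_of_le_succ
      intro n x hx
      change g.symm^[n + 1] x ∈ interior U
      rw [Function.iterate_succ_apply']
      apply hR.inn
      rw [Homeomorph.apply_symm_apply]
      exact interior_subset hx
    obtain ⟨m, hm⟩ := hC.elim_directed_cover (fun n : ℕ => {x | g.symm^[n] x ∈ interior U})
      (fun n => isOpen_interior.preimage (g.symm.continuous.iterate n))
      (by
        intro x hx
        obtain ⟨n, hn⟩ := hw x hx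
        rw [mem_iUnion]
        refine ⟨n + 1, ?_⟩
        change g.symm^[n + 1] x ∈ interior U
        rw [Function.iterate_succ_apply']
        apply hR.inn
        rw [Homeomorph.apply_symm_apply]
        exact hn)
      hmono.directed_le
    exact ⟨m, fun x hx => interior_subset (hm hx)⟩
  obtain ⟨m1, hm1⟩ := hB
  refine ⟨m0 + m1, fun n hn x hx => ?_⟩
  have e : n = (n - m1) + m1 := by omega
  rw [e, Function.iterate_add_apply]
  exact hA _ (by omega) _ (hm1 x hx)

end Pool.Agent.Q62.MS
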