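import Pool.Agent.Q62.MS.Cha

/-! Project MS (helper62): MS17. -/

set_option autoImplicit false

open Set Filter Topology TopologicalSpace Metric
open scoped Manifold ContDiff

universe u

namespace Pool.Agent.Q62.MS

section
variable {d : ℕ} {M : Type u} [MetricSpace M] [ChartedSpace (EE d) M]

theorem cmd_iter {f : M → M} (hf : ContMDiff (𝓡 d) (𝓡 d) 1 f) (n : ℕ) :
    ContMDiff (𝓡 d) (𝓡 d) 1 (f^[n]) := by
  induction n with
  | zero => exact contMDiff_id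
  | succ n ih =>
    rw [Function.iterate_succ]
    exact ih.comp hf

theorem der_iter {f : M → M} (hf : ContMDiff (𝓡 d) (𝓡 d) 1 f) (x : M) (hx : f x = x) (n : ℕ) :
    Der (d := d) (f^[n]) x = (Der (d := d) f x) ^ n := by
  induction n with
  | zero =>
    rw [pow_zero, Function.iterate_zero]
    exact der_id x
  | succ n ih =>
    rw [Function.iterate_succ, der_comp hf (cmd_iter hf n), hx, ih, pow_succ]
    rfl

/-- the property in MS17 without the square root -/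
def Good (d : ℕ) {M : Type u} [MetricSpace M] [ChartedSpace (EE d) M] (f : M → M) (x : M) : Prop :=
  f x = x ∧ ∃ Es Eu : Submodule ℝ (EE d), IsCompl Es Eu ∧
      (∀ v ∈ Es, Der (d := d) f x v ∈ Es) ∧ (∀ v ∈ Eu, Der (d := d) f x v ∈ Eu) ∧
      (∀ v ∈ Es, ‖Der (d := d) f x v‖ ≤ 1 / 4 * ‖v‖) ∧
      (∀ v ∈ Eu, 4 * ‖v‖ ≤ ‖Der (d := d) f x v‖)

theorem pow_inv {E : Type} [NormedAddCommGroup E] [NormedSpace ℝ E] (A : E →L[ℝ] E)
    (S : Submodule ℝ E) (h : ∀ v ∈ S, A v ∈ S) (n : ℕ) : ∀ v ∈ S, (A ^ n) v ∈ S := by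
  induction n with
  | zero => intro v hv; simpa using hv
  | succ n ih =>
    intro v hv
    rw [pow_succ]
    exact ih _ (h v hv)

theorem good_one {f : M → M} (hf : ContMDiff (𝓡 d) (𝓡 d) 1 f) (x : M)
    (hx : ∃ k : ℕ, 1 ≤ k ∧ f^[k] x = x ∧ HypLin (Der (d := d) (f^[k]) x)) :
    ∃ K : ℕ, 1 ≤ K ∧ ∀ j : ℕ, 1 ≤ j → Good d (f^[K * j]) x := by
  obtain ⟨k, hk, hfx, Es, Eu, hc, hs, hu, C, q, hC, hq0, hq1, hCs, hCu⟩ := hx
  obtain ⟨m, hm⟩ := exists_pow_lt_of_lt_one (show 0 < 1 / (4 * C) by positivity) hq1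
  have hsmall : ∀ n : ℕ, m ≤ n → C * q ^ n ≤ 1 / 4 := by
    intro n hn
    have h1 : q ^ n ≤ q ^ m := pow_le_pow_of_le_one hq0.le hq1.le hn
    have h2 : C * q ^ n ≤ C * (1 / (4 * C)) := mul_le_mul_of_nonneg_left (by linarith) hC.le
    have h3 : C * (1 / (4 * C)) = 1 / 4 := by field_simp
    linarith
  refine ⟨k * (m + 1), Nat.mul_pos hk (Nat.succ_pos m), fun j hj => ?_⟩
  have hcf : ContMDiff (𝓡 d) (𝓡 d) 1 (f^[k]) := cmd_iter hf k
  have e1 : f^[k * (m + 1) * j] = (f^[k])^[(m + 1) * j] := by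
    rw [mul_assoc, Function.iterate_mul]
  have hn : m ≤ (m + 1) * j := by nlinarith
  have hsm := hsmall _ hn
  rw [e1]
  refine ⟨Function.iterate_fixed hfx _, Es, Eu, hc, ?_, ?_, ?_, ?_⟩
  all_goals rw [der_iter hcf x hfx]
  · exact pow_inv _ Es hs _
  · exact pow_inv _ Eu hu _
  · intro v hv
    refine le_trans (hCs v hv _) ?_
    exact mul_le_mul_of_nonneg_right hsm (norm_nonneg _)
  · intro v hv
    have h1 := hCu v hv ((m + 1) * j)
    have h2 : C * q ^ ((m + 1) * j) * ‖((Der (d := d) (f^[k]) x) ^ ((m + 1) * j)) v‖ ≤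
        1 / 4 * ‖((Der (d := d) (f^[k]) x) ^ ((m + 1) * j)) v‖ :=
      mul_le_mul_of_nonneg_right hsm (norm_nonneg _)
    linarith

theorem good_all {f : M → M} (hf : ContMDiff (𝓡 d) (𝓡 d) 1 f) (S : Set M) (hS : S.Finite)
    (hx : ∀ x ∈ S, ∃ k : ℕ, 1 ≤ k ∧ f^[k] x = x ∧ HypLin (Der (d := d) (f^[k]) x)) :
    ∃ K : ℕ, 1 ≤ K ∧ ∀ x ∈ S, ∀ j : ℕ, 1 ≤ j → Good d (f^[K * j]) x := by
  induction S, hS using Set.Finite.induction_on with
  | empty => exact ⟨1, le_rfl, by simp⟩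
  | @insert a s _ _ ih =>
    obtain ⟨K, hK, h1⟩ := ih (fun b hb => hx b (mem_insert_of_mem _ hb))
    obtain ⟨K', hK', h2⟩ := good_one hf a (hx a (mem_insert _ _))
    refine ⟨K * K', Nat.mul_pos hK hK', ?_⟩
    intro b hb j hj
    rcases hb with hb | hb
    · rw [hb, mul_comm K K', mul_assoc]
      exact h2 _ (Nat.mul_pos hK hj)
    · rw [mul_assoc]
      exact h1 b hb _ (Nat.mul_pos hK' hj)

end

theorem t_ITE : S_ITE.{u} := by
  intro d M _ _ _ _ F hF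
  obtain ⟨K, hK, h1⟩ := good_all (d := d) hF.c1 {x | NW F x} hF.fin hF.hyp
  refine ⟨K * 2, Nat.mul_pos hK two_pos, fun x hx => ?_⟩
  obtain ⟨g1, Es, Eu, hc, g2, g3, g4, g5⟩ := h1 x hx 2 (by norm_num)
  obtain ⟨g6, -⟩ := h1 x hx 1 le_rfl
  rw [mul_one] at g6
  refine ⟨g1, Es, Eu, hc, g2, g3, g4, g5, Der (d := d) (F^[K]) x, ?_⟩
  have hcf : ContMDiff (𝓡 d) (𝓡 d) 1 (F^[K]) := cmd_iter hF.c1 K
  rw [Function.iterate_mul, der_iter hcf x g6, pow_two]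
  rfl

end Pool.Agent.Q62.MS
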