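import Pool.Agent.Q62.MS.Two

/-! Project MS (helper62): MS1. -/

set_option autoImplicit false

open Set Filter Topology TopologicalSpace Metric

universe u

namespace Pool.Agent.Q62.MS

theorem cm_iter' {M : Type u} [MetricSpace M] (g : M → M) (hg : Continuous g) (k : ℕ) (K : CM M) :
    Cmap (g^[k]) (hg.iterate k) K = (Cmap g hg)^[k] K := by
  apply Subtype.ext
  apply SetLike.coe_injective
  rw [cm_iter]
  rfl

theorem t_ITS : S_ITS.{u} := by
  intro M _ g hg h k hk ε hε
  obtain ⟨δ, hδ, hsh⟩ := h ε hε
  refine ⟨δ, hδ, fun y hy => ?_⟩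
  have hfun : Cmap (g^[k]) (hg.iterate k) = (Cmap g hg)^[k] := funext (cm_iter' g hg k)
  obtain ⟨z, hz⟩ := hsh (fun m => (Cmap g hg)^[m % k] (y (m / k))) (by
    intro m
    have hk' : 0 < k := hk
    have hlt := Nat.mod_lt m hk'
    rcases Nat.lt_or_ge (m % k + 1) k with h1 | h1
    · have e1 : (m + 1) / k = m / k := by
        rw [Nat.succ_div_of_not_dvd]
        intro hd
        rw [Nat.dvd_iff_mod_eq_zero, Nat.add_mod] at hd
        rcases Nat.lt_or_ge 1 k with h2 | h2
        · rw [Nat.mod_eq_of_lt h2, Nat.mod_eq_of_lt h1] at hd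
          omega
        · have : k = 1 := by omega
          subst this
          omega
      have e2 : (m + 1) % k = m % k + 1 := by
        have h2 := Nat.div_add_mod m k
        have h3 := Nat.div_add_mod (m + 1) k
        rw [e1] at h3
        omega
      simp only [e1, e2]
      rw [← Function.iterate_succ_apply' (Cmap g hg) (m % k) (y (m / k)), dist_self]
      exact hδ
    · have h2 : m % k + 1 = k := by omega
      have e1 : (m + 1) / k = m / k + 1 := by
        rw [Nat.succ_div_of_dvd]
        refine ⟨m / k + 1, ?_⟩
        have h3 := Nat.div_add_mod m k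
        rw [mul_add, mul_one]
        omega
      have e2 : (m + 1) % k = 0 := by
        have h3 := Nat.div_add_mod m k
        have h4 := Nat.div_add_mod (m + 1) k
        rw [e1, mul_add, mul_one] at h4
        omega
      simp only [e1, e2]
      rw [← Function.iterate_succ_apply' (Cmap g hg) (m % k) (y (m / k))]
      rw [show (m % k).succ = k from h2, ← cm_iter' g hg]
      exact hy _)
  refine ⟨z, fun n => ?_⟩
  have h1 := hz (k * n)
  have e1 : k * n / k = n := Nat.mul_div_cancel_left n hk
  have e2 : k * n % k = 0 := Nat.mul_mod_right k n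
  simp only [e1, e2] at h1
  rw [hfun, ← Function.iterate_mul]
  exact h1

end Pool.Agent.Q62.MS
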