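import Pool.Agent.Q62.MS.Cvg

/-! Project MS (helper62): MS16. -/

set_option autoImplicit false

open Set Filter Topology TopologicalSpace Metric

universe u

namespace Pool.Agent.Q62.MS

theorem proj_pair {d : ℕ} (Es Eu : Submodule ℝ (EE d)) (h : IsCompl Es Eu) :
    ∃ Ps Pu : EE d →L[ℝ] EE d, (∀ v, Ps v + Pu v = v) ∧ (∀ v, Ps v ∈ Es) ∧ (∀ v, Pu v ∈ Eu) ∧
      (∀ v ∈ Es, Ps v = v ∧ Pu v = 0) ∧ (∀ v ∈ Eu, Pu v = v ∧ Ps v = 0) := by
  refine ⟨LinearMap.toContinuousLinearMap (Es.projection Eu h),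
    LinearMap.toContinuousLinearMap (Eu.projection Es h.symm), ?_, ?_, ?_, ?_, ?_⟩
  · intro v
    exact Submodule.projection_add_projection_eq_self h v
  · intro v
    exact Submodule.projection_apply_mem h v
  · intro v
    exact Submodule.projection_apply_mem h.symm v
  · intro v hv
    exact ⟨Submodule.projection_apply_of_mem_left h hv,
      (Submodule.projection_apply_eq_zero_iff h.symm).2 hv⟩
  · intro v hv
    exact ⟨Submodule.projection_apply_of_mem_left h.symm hv,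
      (Submodule.projection_apply_eq_zero_iff h).2 hv⟩

theorem t_MEA : S_MEA.{u} := by
  intro d M _ _ g q A A' e φ ψ R H Es Eu hc hAs hAu hs hu hne
  obtain ⟨Ps, Pu, p1, p2, p3, p4, p5⟩ := proj_pair Es Eu hc
  have cs : ∀ v, Ps (A v) = A (Ps v) := by
    intro v
    conv_lhs => rw [← p1 v, map_add, map_add, (p4 _ (hAs _ (p2 v))).1, (p5 _ (hAu _ (p3 v))).2,
      add_zero]
  have cu : ∀ v, Pu (A v) = A (Pu v) := by
    intro v
    conv_lhs => rw [← p1 v, map_add, map_add, (p4 _ (hAs _ (p2 v))).2, (p5 _ (hAu _ (p3 v))).1,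
      zero_add]
  obtain ⟨c0, hc0, hcs, hcu⟩ : ∃ c0 : ℝ, 0 < c0 ∧ ‖Ps‖ ≤ c0 ∧ ‖Pu‖ ≤ c0 :=
    ⟨‖Ps‖ + ‖Pu‖ + 1, by positivity, by linarith [norm_nonneg Pu], by linarith [norm_nonneg Ps]⟩
  -- strict differentiability
  have hstr : HasStrictFDerivAt φ A 0 := H.f1.hasStrictFDerivAt' H.f2 (by norm_num)
  have hη : 0 < 1 / (2 * c0) := by positivity
  have h1 := hstr.isLittleO.def hη
  have h1' : ∃ r : ℝ, 0 < r ∧ ∀ z ∈ ball (0 : EE d) r, ∀ z' ∈ ball (0 : EE d) r,
      ‖φ z - φ z' - A (z - z')‖ ≤ 1 / (2 * c0) * ‖z - z'‖ := by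
    rw [nhds_prod_eq, Filter.eventually_prod_iff] at h1
    obtain ⟨pa, ha, pb, hb, hab⟩ := h1
    obtain ⟨r1, hr1, hr1'⟩ := Metric.eventually_nhds_iff_ball.1 ha
    obtain ⟨r2, hr2, hr2'⟩ := Metric.eventually_nhds_iff_ball.1 hb
    refine ⟨min r1 r2, lt_min hr1 hr2, ?_⟩
    intro z hz z' hz'
    exact hab (hr1' z (ball_subset_ball (min_le_left _ _) hz))
      (hr2' z' (ball_subset_ball (min_le_right _ _) hz'))
  obtain ⟨r, hr, hr'⟩ := h1'
  obtain ⟨r', hr0, hr0'⟩ := Metric.eventually_nhds_iff_ball.1 H.ef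
  -- `ρ`
  obtain ⟨ρ, hρ, k1, k2, k3, k4⟩ : ∃ ρ : ℝ, 0 < ρ ∧ ρ < r ∧ ρ < r' ∧ ρ < R ∧
      (‖A‖ + 1 / (2 * c0)) * ρ ≤ R := by
    have hB : 0 < ‖A‖ + 1 / (2 * c0) + 1 := by positivity
    have hm : 0 < min (min r r') (min R (R / (‖A‖ + 1 / (2 * c0) + 1))) :=
      lt_min (lt_min hr hr0) (lt_min H.R0 (div_pos H.R0 hB))
    refine ⟨min (min r r') (min R (R / (‖A‖ + 1 / (2 * c0) + 1))) / 2, half_pos hm, ?_, ?_, ?_, ?_⟩
    · exact lt_of_lt_of_le (half_lt_self hm) (le_trans (min_le_left _ _) (min_le_left _ _))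
    · exact lt_of_lt_of_le (half_lt_self hm) (le_trans (min_le_left _ _) (min_le_right _ _))
    · exact lt_of_lt_of_le (half_lt_self hm) (le_trans (min_le_right _ _) (min_le_left _ _))
    · have h2 : min (min r r') (min R (R / (‖A‖ + 1 / (2 * c0) + 1))) / 2 ≤
          R / (‖A‖ + 1 / (2 * c0) + 1) :=
        le_trans (half_le_self hm.le) (le_trans (min_le_right _ _) (min_le_right _ _))
      rw [le_div_iff₀ hB] at h2
      have h3 : 0 < min (min r r') (min R (R / (‖A‖ + 1 / (2 * c0) + 1))) / 2 := half_pos hm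
      nlinarith
  have hφR : ∀ z ∈ closedBall (0 : EE d) ρ, φ z ∈ closedBall (0 : EE d) R := by
    intro z hz
    rw [mem_closedBall_zero_iff] at hz ⊢
    have h2 := hr' z (mem_ball_zero_iff.2 (by linarith)) 0 (mem_ball_self hr)
    rw [H.f0, sub_zero, sub_zero] at h2
    have h3 : ‖φ z‖ ≤ ‖φ z - A z‖ + ‖A z‖ := by
      have := norm_add_le (φ z - A z) (A z)
      rwa [sub_add_cancel] at this
    have h4 := A.le_opNorm z
    have h5 : (‖A‖ + 1 / (2 * c0)) * ‖z‖ ≤ (‖A‖ + 1 / (2 * c0)) * ρ :=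
      mul_le_mul_of_nonneg_left hz (by positivity)
    linarith
  -- cone
  have cone : ∀ z ∈ closedBall (0 : EE d) ρ, ∀ z' ∈ closedBall (0 : EE d) ρ,
      ‖Ps (z - z')‖ ≤ ‖Pu (z - z')‖ → ‖Ps (φ z - φ z')‖ ≤ ‖Pu (φ z - φ z')‖ ∧
        2 * ‖Pu (z - z')‖ ≤ ‖Pu (φ z - φ z')‖ := by
    intro z hz z' hz' hcone
    rw [mem_closedBall_zero_iff] at hz hz'
    have h2 := hr' z (mem_ball_zero_iff.2 (by linarith)) z' (mem_ball_zero_iff.2 (by linarith))
    obtain ⟨v, hv⟩ : ∃ v, v = z - z' := ⟨_, rfl⟩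
    obtain ⟨w, hw⟩ : ∃ w, w = φ z - φ z' - A (z - z') := ⟨_, rfl⟩
    have hsum : φ z - φ z' = A v + w := by rw [hw, hv]; abel
    rw [← hw, ← hv] at h2
    rw [← hv] at hcone ⊢
    rw [hsum, map_add, map_add, cs, cu]
    have h3 : ‖v‖ ≤ 2 * ‖Pu v‖ := by
      have := norm_add_le (Ps v) (Pu v)
      rw [p1 v] at this
      linarith
    have h4 : ‖w‖ * c0 ≤ ‖Pu v‖ := by
      have h5 : ‖w‖ * c0 ≤ (1 / (2 * c0) * ‖v‖) * c0 := mul_le_mul_of_nonneg_right h2 hc0.le
      have h6 : (1 / (2 * c0) * ‖v‖) * c0 = ‖v‖ / 2 := by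
        field_simp
      linarith
    have h5 : ‖Ps w‖ ≤ ‖Pu v‖ := by
      have := Ps.le_opNorm w
      have h7 : ‖Ps‖ * ‖w‖ ≤ c0 * ‖w‖ := mul_le_mul_of_nonneg_right hcs (norm_nonneg _)
      linarith
    have h6 : ‖Pu w‖ ≤ ‖Pu v‖ := by
      have := Pu.le_opNorm w
      have h7 : ‖Pu‖ * ‖w‖ ≤ c0 * ‖w‖ := mul_le_mul_of_nonneg_right hcu (norm_nonneg _)
      linarith
    have h7 := hs _ (p2 v)
    have h8 := hu _ (p3 v)
    have h9 : ‖A (Ps v) + Ps w‖ ≤ ‖A (Ps v)‖ + ‖Ps w‖ := norm_add_le _ _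
    have h10 : ‖A (Pu v)‖ - ‖Pu w‖ ≤ ‖A (Pu v) + Pu w‖ := by
      have := norm_sub_le (A (Pu v) + Pu w) (Pu w)
      rw [add_sub_cancel_right] at this
      linarith
    have h11 := norm_nonneg (Pu v)
    constructor <;> linarith
  -- the closed set `T`
  have hKc : IsClosed (e '' closedBall (0 : EE d) ρ) := by
    apply IsCompact.isClosed
    apply (isCompact_closedBall (0 : EE d) ρ).image_of_continuousOn
    exact H.ec.mono (closedBall_subset_closedBall k3.le)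
  obtain ⟨T, hT⟩ : ∃ T : Set M, T = {x | ∀ n : ℕ, g^[n] x ∈ e '' closedBall (0 : EE d) ρ} :=
    ⟨_, rfl⟩
  have hTc : IsClosed T := by
    rw [hT, setOf_forall]
    exact isClosed_iInter fun n => hKc.preimage (g.continuous.iterate n)
  have hTorb : ∀ z ∈ closedBall (0 : EE d) R, e z ∈ T → ∀ n : ℕ,
      φ^[n] z ∈ closedBall (0 : EE d) ρ ∧ g^[n] (e z) = e (φ^[n] z) := by
    intro z hz hzT n
    rw [hT] at hzT
    induction n with
    | zero =>
      obtain ⟨y, hy, hye⟩ := hzT 0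
      have h2 : y = z := H.ei (closedBall_subset_closedBall k3.le hy) hz hye
      exact ⟨h2 ▸ hy, rfl⟩
    | succ n ih =>
      obtain ⟨i1, i2⟩ := ih
      obtain ⟨y, hy, hye⟩ := hzT (n + 1)
      have h3 : φ^[n] z ∈ ball (0 : EE d) r' := by
        rw [mem_closedBall_zero_iff] at i1
        rw [mem_ball_zero_iff]
        linarith
      rw [Function.iterate_succ_apply', i2, ← hr0' _ h3] at hye
      have h2 := H.ei (closedBall_subset_closedBall k3.le hy) (hφR _ i1) hye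
      rw [Function.iterate_succ_apply', Function.iterate_succ_apply', i2, ← hr0' _ h3]
      exact ⟨h2 ▸ hy, rfl⟩
  have hTi : interior T = ∅ := by
    by_contra hcon
    obtain ⟨x, hx⟩ := nonempty_iff_ne_empty.2 hcon
    have hxT := interior_subset hx
    obtain ⟨z, hz, rfl⟩ : x ∈ e '' closedBall (0 : EE d) ρ := by
      rw [hT] at hxT
      exact hxT 0
    obtain ⟨w, hw, hw0⟩ := Submodule.exists_mem_ne_zero_of_ne_bot hne
    have hopen : IsOpen (ball (0 : EE d) R ∩ e ⁻¹' (interior T)) :=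
      (H.ec.mono ball_subset_closedBall).isOpen_inter_preimage isOpen_ball isOpen_interior
    have hzO : z ∈ ball (0 : EE d) R ∩ e ⁻¹' (interior T) := by
      refine ⟨?_, hx⟩
      rw [mem_closedBall_zero_iff] at hz
      rw [mem_ball_zero_iff]
      linarith
    have hcont : Tendsto (fun s : ℝ => z + s • w) (𝓝[≠] 0) (𝓝 z) := by
      have h2 : Continuous (fun s : ℝ => z + s • w) := by fun_prop
      have h3 := h2.tendsto 0
      simp only [zero_smul, add_zero] at h3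
      exact h3.mono_left nhdsWithin_le_nhds
    obtain ⟨s, hs1, hs2⟩ := ((hcont.eventually (hopen.mem_nhds hzO)).and
      self_mem_nhdsWithin).exists
    have hz1 := hTorb z (closedBall_subset_closedBall k3.le hz) hxT
    have hz2 := hTorb (z + s • w) (ball_subset_closedBall hs1.1) (interior_subset hs1.2)
    have hgrow : ∀ n : ℕ, ‖Ps (φ^[n] (z + s • w) - φ^[n] z)‖ ≤ ‖Pu (φ^[n] (z + s • w) - φ^[n] z)‖ ∧
        2 ^ n * ‖s • w‖ ≤ ‖Pu (φ^[n] (z + s • w) - φ^[n] z)‖ := by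
      intro n
      induction n with
      | zero =>
        have h2 : (z + s • w) - z = s • w := by abel
        have h3 : s • w ∈ Eu := Eu.smul_mem s hw
        simp only [Function.iterate_zero, id, h2, (p5 _ h3).1, (p5 _ h3).2, norm_zero, pow_zero,
          one_mul]
        exact ⟨norm_nonneg _, le_rfl⟩
      | succ n ih =>
        obtain ⟨j1, j2⟩ := cone _ (hz2 n).1 _ (hz1 n).1 ih.1
        rw [← Function.iterate_succ_apply' φ, ← Function.iterate_succ_apply' φ] at j1 j2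
        refine ⟨j1, ?_⟩
        have h2 := ih.2
        rw [pow_succ]
        change _ ≤ ‖Pu (φ^[n.succ] (z + s • w) - φ^[n.succ] z)‖
        linarith
    have hbd : ∀ n : ℕ, 2 ^ n * ‖s • w‖ ≤ c0 * (2 * ρ) := by
      intro n
      have h2 := (hgrow n).2
      have h3 := Pu.le_opNorm (φ^[n] (z + s • w) - φ^[n] z)
      have h4 := norm_sub_le (φ^[n] (z + s • w)) (φ^[n] z)
      have h5 := (hz1 n).1
      have h6 := (hz2 n).1
      rw [mem_closedBall_zero_iff] at h5 h6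
      have h7 : ‖Pu‖ * ‖φ^[n] (z + s • w) - φ^[n] z‖ ≤ c0 * (2 * ρ) :=
        mul_le_mul hcu (by linarith) (norm_nonneg _) hc0.le
      linarith
    have hpos : 0 < ‖s • w‖ := norm_pos_iff.2 (smul_ne_zero hs2 hw0)
    obtain ⟨n, hn⟩ := pow_unbounded_of_one_lt (c0 * (2 * ρ) / ‖s • w‖) (one_lt_two (α := ℝ))
    rw [div_lt_iff₀ hpos] at hn
    linarith [hbd n]
  -- the union
  have hsub : {x : M | Tendsto (fun n : ℕ => g^[n] x) atTop (𝓝 q)} ⊆ ⋃ n : ℕ, (g^[n]) ⁻¹' T := by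
    intro x hx
    have hO : IsOpen (e '' ball (0 : EE d) ρ) := H.eo _ (ball_subset_ball k3.le) isOpen_ball
    obtain ⟨n, hn⟩ := eventually_atTop.1
      (hx.eventually (hO.mem_nhds ⟨0, mem_ball_self hρ, H.ep⟩))
    rw [mem_iUnion]
    refine ⟨n, ?_⟩
    rw [mem_preimage, hT]
    intro m
    rw [← Function.iterate_add_apply]
    exact image_mono ball_subset_closedBall (hn (m + n) (by omega))
  refine (isMeagre_iUnion fun n => ?_).mono hsub
  apply IsNowhereDense.isMeagre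
  rw [(hTc.preimage (g.continuous.iterate n)).isNowhereDense_iff, ← hp_nat,
    ← Homeomorph.preimage_interior, hTi, preimage_empty]

end Pool.Agent.Q62.MS
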