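import Pool.Agent.Q62.MS.Cnt

/-! Project MS (helper62): MS4. -/

set_option autoImplicit false

open Set Filter Topology TopologicalSpace Metric

universe u

namespace Pool.Agent.Q62.MS

theorem orb_union {M : Type u} [MetricSpace M] (g : M ≃ₜ M) (A B : Set M) :
    Orb g (A ∪ B) = Orb g A ∪ Orb g B := by
  unfold Orb
  simp only [image_union, iUnion_union_distrib]

theorem orb_disj {M : Type u} [MetricSpace M] (g : M ≃ₜ M) (A B : Set M)
    (dAB : ∀ n : ℕ, ∀ x ∈ A, g^[n] x ∉ B) (dBA : ∀ n : ℕ, ∀ x ∈ B, g^[n] x ∉ A) :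
    ∀ x ∈ Orb g A, x ∉ Orb g B := by
  intro x hx hy
  unfold Orb at hx hy
  rw [mem_iUnion] at hx hy
  obtain ⟨m, a, ha, h1⟩ := hx
  obtain ⟨n, b, hb, h2⟩ := hy
  rcases le_total n m with h | h
  · obtain ⟨k, hk⟩ : ∃ k : ℕ, m = n + (k : ℤ) := ⟨(m - n).toNat, by omega⟩
    rw [hk, zp_add, ← h2] at h1
    have h3 := (g ^ n : M ≃ₜ M).injective h1
    rw [zp_nat] at h3
    exact dAB k a ha (h3 ▸ hb)
  · obtain ⟨k, hk⟩ : ∃ k : ℕ, n = m + (k : ℤ) := ⟨(n - m).toNat, by omega⟩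
    rw [hk, zp_add, ← h1] at h2
    have h3 := (g ^ m : M ≃ₜ M).injective h2
    rw [zp_nat] at h3
    exact dBA k b hb (h3 ▸ ha)

theorem t_SEP : S_SEP.{u} := by
  intro hE hC M _ _ g p U A B hL
  have hR := hL.rep
  have cC : IsCompact (A ∪ B) := hL.cA.union hL.cB
  have pC : p ∉ A ∪ B := fun h => h.elim hL.pA hL.pB
  have wC : ∀ x ∈ A ∪ B, ∃ n : ℕ, g.symm^[n] x ∈ U := fun x hx => hx.elim (hL.wA x) (hL.wB x)
  have hE1 := (hE M g p U hR).1 (A ∪ B) cC wC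
  obtain ⟨N2, hN2⟩ := (hE M g p U hR).2 (A ∪ B) cC pC
  obtain ⟨c1, c2, c3, c4, c5⟩ := hC hE M g p U A B hL
  have hUc : IsClosed U := hR.cU.isClosed
  -- (i)
  obtain ⟨r1, hr1, hr1'⟩ := Metric.nhds_basis_closedBall.mem_iff.1
    (mem_interior_iff_mem_nhds.1 (rep_nhds hR))
  -- (ii)
  obtain ⟨r2, hr2, hr2'⟩ := Metric.isOpen_iff.1 (isClosed_closure (s := ⋃ n ∈ Ici (0 : ℤ),
    (g ^ n : M ≃ₜ M) '' (A ∪ B))).isOpen_compl p (c4 0)
  -- the compact set `D` and its neighbourhood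
  have hDcl : IsClosed {w : M | w ∈ U ∧ g w ∉ interior U} :=
    hUc.inter ((isOpen_interior.isClosed_compl).preimage g.continuous)
  have hDc : IsCompact {w : M | w ∈ U ∧ g w ∉ interior U} := hDcl.isCompact
  have hVo : IsOpen {w : M | g.symm w ∈ interior U ∧ g (g w) ∉ U} :=
    (isOpen_interior.preimage g.symm.continuous).inter
      (hUc.isOpen_compl.preimage (g.continuous.comp g.continuous))
  have hDV : {w : M | w ∈ U ∧ g w ∉ interior U} ⊆ {w : M | g.symm w ∈ interior U ∧ g (g w) ∉ U} := by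
    rintro w ⟨h1, h2⟩
    refine ⟨hR.inn _ (by rw [Homeomorph.apply_symm_apply]; exact h1), fun h => h2 (hR.inn _ h)⟩
  obtain ⟨δ, hδ, hδV⟩ := hDc.exists_cthickening_subset_open hVo hDV
  have hthV : ∀ w ∈ U, g w ∉ interior U → ∀ x, dist w x < δ →
      x ∈ thickening δ {w : M | w ∈ U ∧ g w ∉ interior U} := by
    intro w h1 h2 x hx
    rw [mem_thickening_iff]
    exact ⟨w, ⟨h1, h2⟩, by rw [dist_comm]; exact hx⟩
  have hthcth := thickening_subset_cthickening δ {w : M | w ∈ U ∧ g w ∉ interior U}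
  have hpD : p ∉ cthickening δ {w : M | w ∈ U ∧ g w ∉ interior U} := by
    intro h
    have h1 := (hδV h).2
    rw [hR.fp, hR.fp] at h1
    exact h1 hR.pU
  obtain ⟨N1, hN1⟩ := hE1 (cthickening δ {w : M | w ∈ U ∧ g w ∉ interior U})ᶜ
    (isClosed_cthickening.isOpen_compl.mem_nhds hpD)
  have hloc : ∀ S ⊆ A ∪ B, ∀ x ∈ cthickening δ {w : M | w ∈ U ∧ g w ∉ interior U}, x ∈ Orb g S →
      x ∈ ⋃ n ∈ Icc (-(N1 : ℤ)) (N2 + 1), (g ^ n : M ≃ₜ M) '' S := by
    intro S hS x hx hxO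
    unfold Orb at hxO
    rw [mem_iUnion] at hxO
    obtain ⟨n, c, hc, rfl⟩ := hxO
    rw [mem_iUnion₂]
    refine ⟨n, ⟨?_, ?_⟩, c, hc, rfl⟩
    · by_contra hcon
      obtain ⟨k, hk⟩ : ∃ k : ℕ, n = -(k : ℤ) := ⟨(-n).toNat, by omega⟩
      rw [hk, zp_neg] at hx
      exact hN1 k (by omega) c (hS hc) hx
    · by_contra hcon
      obtain ⟨k, hk⟩ : ∃ k : ℕ, n = 1 + (k : ℤ) := ⟨(n - 1).toNat, by omega⟩
      have h1 := interior_subset (hδV hx).1
      rw [hk, zp_add, zp_one, Homeomorph.symm_apply_apply, zp_nat] at h1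
      exact hN2 k (by omega) c (hS hc) h1
  have hFc : ∀ S : Set M, IsCompact S → IsCompact (⋃ n ∈ Icc (-(N1 : ℤ)) (N2 + 1),
      (g ^ n : M ≃ₜ M) '' S) := by
    intro S hS
    apply (finite_Icc _ _).isCompact_biUnion
    intro n _
    exact hS.image (g ^ n : M ≃ₜ M).continuous
  have hFO : ∀ S : Set M, (⋃ n ∈ Icc (-(N1 : ℤ)) (N2 + 1), (g ^ n : M ≃ₜ M) '' S) ⊆ Orb g S := by
    intro S x hx
    rw [mem_iUnion₂] at hx
    obtain ⟨n, _, hx⟩ := hx
    exact mem_iUnion.2 ⟨n, hx⟩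
  -- (iii)
  have h3 : ∀ w ∈ U, g w ∉ interior U → ∀ (N : ℤ) (x : M), x ∈ LL g p (A ∪ B) N ∨
      x ∈ TT g (A ∪ B) N → dist w x < δ → x ∈ Orb g A ∪ Orb g B := by
    intro w hw1 hw2 N x hx hd
    have hxth := hthV w hw1 hw2 x hd
    rw [← orb_union]
    rcases hx with hx | hx
    · rcases hx with hx | hx
      · rw [mem_singleton_iff] at hx
        rw [hx] at hxth
        exact absurd (hthcth hxth) hpD
      · rw [mem_iUnion₂] at hx
        obtain ⟨n, _, hx⟩ := hx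
        exact mem_iUnion.2 ⟨n, hx⟩
    · have h1 : x ∈ closure (Orb g (A ∪ B)) := by
        refine closure_mono ?_ hx
        intro z hz
        rw [mem_iUnion₂] at hz
        obtain ⟨n, _, hz⟩ := hz
        exact mem_iUnion.2 ⟨n, hz⟩
      have h2 : x ∈ closure (thickening δ {w : M | w ∈ U ∧ g w ∉ interior U} ∩ Orb g (A ∪ B)) :=
        isOpen_thickening.inter_closure ⟨hxth, h1⟩
      have h4 : x ∈ closure (⋃ n ∈ Icc (-(N1 : ℤ)) (N2 + 1), (g ^ n : M ≃ₜ M) '' (A ∪ B)) := by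
        refine closure_mono ?_ h2
        rintro z ⟨hz1, hz2⟩
        exact hloc (A ∪ B) subset_rfl z (hthcth hz1) hz2
      rw [(hFc _ cC).isClosed.closure_eq] at h4
      exact hFO _ h4
  -- (iv)
  have h4 : ∀ S T : Set M, S ⊆ A ∪ B → T ⊆ A ∪ B → IsCompact S → IsCompact T →
      (∀ x ∈ Orb g S, x ∉ Orb g T) → ∃ η : ℝ, 0 < η ∧ ∀ w ∈ U, g w ∉ interior U → ∀ w' : M,
      (w' = g.symm w ∨ w' = w ∨ w' = g w) → ∀ x ∈ Orb g S, ∀ y ∈ Orb g T,
      ¬ (dist w x < η ∧ dist w' y < η) := by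
    intro S T hS hT cS cT hdis
    have hFd : Disjoint (⋃ n ∈ Icc (-(N1 : ℤ)) (N2 + 1), (g ^ n : M ≃ₜ M) '' S)
        (⋃ n ∈ Icc (-(N1 : ℤ)) (N2 + 1), (g ^ n : M ≃ₜ M) '' T) := by
      rw [Set.disjoint_left]
      intro x hx hx2
      exact hdis x (hFO _ hx) (hFO _ hx2)
    obtain ⟨κ, hκ, hκd⟩ := hFd.exists_thickenings (hFc S cS) (hFc T cT).isClosed
    have hmin : 0 < min δ κ := lt_min hδ hκ
    have uc1 : UniformContinuous g := CompactSpace.uniformContinuous_of_continuous g.continuous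
    have uc2 : UniformContinuous g.symm :=
      CompactSpace.uniformContinuous_of_continuous g.symm.continuous
    obtain ⟨ρ1, hρ1, hρ1'⟩ := Metric.uniformContinuous_iff.1 uc1 (min δ κ) hmin
    obtain ⟨ρ2, hρ2, hρ2'⟩ := Metric.uniformContinuous_iff.1 uc2 (min δ κ) hmin
    refine ⟨min (min δ κ) (min ρ1 ρ2), lt_min hmin (lt_min hρ1 hρ2), ?_⟩
    rintro w hw1 hw2 w' hw' x hx y hy ⟨hd1, hd2⟩
    have e1 : dist w x < min δ κ := lt_of_lt_of_le hd1 (min_le_left _ _)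
    have e2 : ∃ y0 ∈ Orb g T, dist w y0 < min δ κ := by
      rcases hw' with h | h | h
      · refine ⟨g y, (orb_inv g T y).1 hy, ?_⟩
        have : w = g w' := by rw [h, Homeomorph.apply_symm_apply]
        rw [this]
        exact hρ1' (lt_of_lt_of_le hd2 (le_trans (min_le_right _ _) (min_le_left _ _)))
      · refine ⟨y, hy, ?_⟩
        rw [h] at hd2
        exact lt_of_lt_of_le hd2 (min_le_left _ _)
      · refine ⟨g.symm y, ?_, ?_⟩
        · rw [orb_inv, Homeomorph.apply_symm_apply]; exact hy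
        · have : w = g.symm w' := by rw [h, Homeomorph.symm_apply_apply]
          rw [this]
          exact hρ2' (lt_of_lt_of_le hd2 (le_trans (min_le_right _ _) (min_le_right _ _)))
    obtain ⟨y0, hy0, e2⟩ := e2
    have hxF := hloc S hS x (hthcth (hthV w hw1 hw2 x (lt_of_lt_of_le e1 (min_le_left _ _)))) hx
    have hyF := hloc T hT y0 (hthcth (hthV w hw1 hw2 y0 (lt_of_lt_of_le e2 (min_le_left _ _)))) hy0
    have q1 : w ∈ thickening κ (⋃ n ∈ Icc (-(N1 : ℤ)) (N2 + 1), (g ^ n : M ≃ₜ M) '' S) := by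
      rw [mem_thickening_iff]
      exact ⟨x, hxF, lt_of_lt_of_le e1 (min_le_right _ _)⟩
    have q2 : w ∈ thickening κ (⋃ n ∈ Icc (-(N1 : ℤ)) (N2 + 1), (g ^ n : M ≃ₜ M) '' T) := by
      rw [mem_thickening_iff]
      exact ⟨y0, hyF, lt_of_lt_of_le e2 (min_le_right _ _)⟩
    exact Set.disjoint_left.1 hκd q1 q2
  have hd1 := orb_disj g A B hL.dAB hL.dBA
  have hd2 := orb_disj g B A hL.dBA hL.dAB
  obtain ⟨η1, hη1, h41⟩ := h4 A B subset_union_left subset_union_right hL.cA hL.cB hd1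
  obtain ⟨η2, hη2, h42⟩ := h4 B A subset_union_right subset_union_left hL.cB hL.cA hd2
  obtain ⟨κ, hκ, k1, k2, k3, k4, k5⟩ : ∃ κ : ℝ, 0 < κ ∧ κ ≤ r1 ∧ κ ≤ r2 ∧ κ ≤ δ ∧ κ ≤ η1 ∧ κ ≤ η2 := by
    refine ⟨min (min r1 r2) (min δ (min η1 η2)),
      lt_min (lt_min hr1 hr2) (lt_min hδ (lt_min hη1 hη2)), ?_, ?_, ?_, ?_, ?_⟩
    · exact le_trans (min_le_left _ _) (min_le_left _ _)
    · exact le_trans (min_le_left _ _) (min_le_right _ _)
    · exact le_trans (min_le_right _ _) (min_le_left _ _)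
    · exact le_trans (min_le_right _ _) (le_trans (min_le_right _ _) (min_le_left _ _))
    · exact le_trans (min_le_right _ _) (le_trans (min_le_right _ _) (min_le_right _ _))
  have e2 : 2 * (κ / 2) = κ := by ring
  refine ⟨κ / 2, half_pos hκ, ?_, ?_, ?_, ?_, ?_⟩
  · rw [e2]
    exact (closedBall_subset_closedBall k1).trans hr1'
  · intro x hx
    rw [e2]
    by_contra hcon
    have h1 : x ∈ ball p r2 := by
      rw [mem_ball, dist_comm]
      linarith [not_le.1 hcon]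
    exact hr2' h1 hx
  · intro w hw1 hw2 N x hx hd
    exact h3 w hw1 hw2 N x hx (by linarith)
  · intro w hw1 hw2 w' hw' x hx y hy
    rw [e2]
    constructor
    · rintro ⟨q1, q2⟩
      exact h41 w hw1 hw2 w' hw' x hx y hy ⟨by linarith, by linarith⟩
    · rintro ⟨q1, q2⟩
      exact h42 w hw1 hw2 w' hw' y hy x hx ⟨by linarith, by linarith⟩
  · intro x hx1 hx2 w hd
    rw [e2] at hd
    exact hδV (hthcth (hthV x hx1 hx2 w (by rw [dist_comm]; linarith)))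

end Pool.Agent.Q62.MS
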