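import Pool.Agent.Q62.MS.Two

/-! Project MS (helper62): MS15. -/

set_option autoImplicit false

open Set Filter Topology TopologicalSpace Metric

universe u

namespace Pool.Agent.Q62.MS

theorem t_SNK : S_SNK.{u} := by
  intro d M _ g q A A' e φ ψ R H hA
  have h1 : ∀ᶠ z in 𝓝 (0 : EE d), ‖φ z‖ ≤ 1 / 2 * ‖z‖ := by
    have h2 := H.f2.isLittleO.def (c := 1 / 2 - ‖A‖) (by linarith)
    filter_upwards [h2] with z hz
    rw [H.f0, sub_zero, sub_zero] at hz
    have h3 : ‖φ z‖ ≤ ‖φ z - A z‖ + ‖A z‖ := by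
      have := norm_add_le (φ z - A z) (A z)
      rwa [sub_add_cancel] at this
    have h4 := A.le_opNorm z
    nlinarith
  obtain ⟨r, hr, hr'⟩ := Metric.eventually_nhds_iff_ball.1 (h1.and H.ef)
  obtain ⟨ρ, hρ, hρr, hρR⟩ : ∃ ρ : ℝ, 0 < ρ ∧ ρ ≤ r ∧ ρ ≤ R :=
    ⟨min r R, lt_min hr H.R0, min_le_left _ _, min_le_right _ _⟩
  have hin : ∀ z ∈ ball (0 : EE d) ρ, ∀ n : ℕ, g^[n] (e z) = e (φ^[n] z) ∧
      ‖φ^[n] z‖ ≤ ‖z‖ * (1 / 2) ^ n ∧ φ^[n] z ∈ ball (0 : EE d) ρ := by
    intro z hz n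
    induction n with
    | zero => exact ⟨rfl, by simp, hz⟩
    | succ n ih =>
      obtain ⟨i1, i2, i3⟩ := ih
      obtain ⟨j1, j2⟩ := hr' _ (ball_subset_ball hρr i3)
      rw [Function.iterate_succ_apply', Function.iterate_succ_apply', i1]
      refine ⟨j2.symm, ?_, ?_⟩
      · rw [pow_succ]; linarith
      · rw [mem_ball_zero_iff] at i3 ⊢
        linarith [norm_nonneg (φ^[n] z)]
  have htend : ∀ z ∈ ball (0 : EE d) ρ, Tendsto (fun n : ℕ => g^[n] (e z)) atTop (𝓝 q) := by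
    intro z hz
    have e1 : (fun n : ℕ => g^[n] (e z)) = fun n : ℕ => e (φ^[n] z) := by
      funext n
      exact (hin z hz n).1
    rw [e1, ← H.ep]
    have hc : ContinuousWithinAt e (closedBall 0 R) 0 := H.ec 0 (mem_closedBall_self H.R0.le)
    apply hc.tendsto.comp
    rw [tendsto_nhdsWithin_iff]
    constructor
    · rw [tendsto_zero_iff_norm_tendsto_zero]
      have h3 : Tendsto (fun n : ℕ => ‖z‖ * (1 / 2 : ℝ) ^ n) atTop (𝓝 0) := by
        have := (tendsto_pow_atTop_nhds_zero_of_lt_one (r := (1 / 2 : ℝ)) (by norm_num)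
          (by norm_num)).const_mul ‖z‖
        rwa [mul_zero] at this
      exact squeeze_zero (fun n => norm_nonneg _) (fun n => (hin z hz n).2.1) h3
    · filter_upwards with n
      have := (hin z hz n).2.2
      exact ball_subset_closedBall (ball_subset_ball hρR this)
  have hO : IsOpen (e '' ball (0 : EE d) ρ) := H.eo _ (ball_subset_ball hρR) isOpen_ball
  have hset : {x : M | Tendsto (fun n : ℕ => g^[n] x) atTop (𝓝 q)} =
      ⋃ n : ℕ, (g^[n]) ⁻¹' (e '' ball (0 : EE d) ρ) := by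
    ext x
    rw [mem_iUnion, mem_setOf_eq]
    constructor
    · intro hx
      exact (hx.eventually (hO.mem_nhds ⟨0, mem_ball_self hρ, H.ep⟩)).exists
    · rintro ⟨n, z, hz, hx⟩
      rw [← tendsto_add_atTop_iff_nat n]
      have e1 : (fun m : ℕ => g^[m + n] x) = fun m : ℕ => g^[m] (e z) := by
        funext m
        rw [Function.iterate_add_apply, ← hx]
      rw [e1]
      exact htend z hz
  rw [hset]
  exact isOpen_iUnion fun n => hO.preimage (g.continuous.iterate n)

end Pool.Agent.Q62.MS
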