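import Pool.Agent.Q62.MS.Asm
import Pool.Agent.Q62.MS.Its
import Pool.Agent.Q62.MS.Sep
import Pool.Agent.Q62.MS.One
import Pool.Agent.Q62.MS.Cir
import Pool.Agent.Q62.MS.Bra
import Pool.Agent.Q62.MS.Cvg
import Pool.Agent.Q62.MS.Snk
import Pool.Agent.Q62.MS.Mea
import Pool.Agent.Q62.MS.Cha
import Pool.Agent.Q62.MS.Ite
import Pool.Agent.Q62.MS.Cns
import Pool.Agent.Q62.MS.Cyc
import Pool.Agent.Q25.MS.Rad
import Pool.Agent.Q25.MS.Rho
import Pool.Agent.Q25.MS.Pai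

/-! Project MS (helper62): the theorem. -/

set_option autoImplicit false

universe u

namespace Pool.Agent.Q62.MS

open Pool.Agent.Q25.MS in
theorem t_FIN : S_FIN.{u} :=
  fin_of t_ITS t_ESC t_CNT t_SEP t_TWO t_CHA t_RAD t_PAI t_AVO t_RHO t_NBH t_PIE t_CON t_CVG
    t_SNK t_MEA t_ITE t_PQG t_LO1 t_CYC t_BRA t_PAR t_CIR t_ONE

end Pool.Agent.Q62.MS
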