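import Pool.Agent.Q62.MS.Esc

/-! Project MS (helper62): MS11, MS12. -/

set_option autoImplicit false

open Set Filter Topology TopologicalSpace Metric

universe u

namespace Pool.Agent.Q62.MS

theorem rad_h0 {d : ℕ} {M : Type u} [MetricSpace M] {g : M ≃ₜ M} {p : M} {e : EE d → M}
    {h : EE d → EE d} {R c : ℝ} (H : RadMod g p e h R c) : h 0 = 0 := by
  have h1 := H.h2 0 (mem_closedBall_self H.R0.le)
  rw [norm_zero, zero_div] at h1
  exact norm_le_zero_iff.1 h1

theorem rad_fix {d : ℕ} {M : Type u} [MetricSpace M] {g : M ≃ₜ M} {p : M} {e : EE d → M}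
    {h : EE d → EE d} {R c : ℝ} (H : RadMod g p e h R c) : g p = p := by
  have h1 := H.eh 0 (mem_closedBall_self H.R0.le)
  rw [rad_h0 H, H.ep] at h1
  conv_lhs => rw [h1, g.apply_symm_apply]

theorem t_NBH : S_NBH.{u} := by
  intro d M _ _ g p e h R c H
  have hfix := rad_fix H
  have hR := H.R0
  have h1 : ∃ r1 : ℝ, 0 < r1 ∧ r1 ≤ R ∧ ∀ w ∈ closedBall (0 : EE d) r1, g (e w) ∈ e '' ball 0 R := by
    have hO : IsOpen (e '' ball (0 : EE d) R) := H.eo _ subset_rfl isOpen_ball
    have hc : ContinuousWithinAt (fun w => g (e w)) (closedBall (0 : EE d) R) 0 :=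
      g.continuous.continuousAt.comp_continuousWithinAt (H.ec 0 (mem_closedBall_self hR.le))
    have h2 : e '' ball (0 : EE d) R ∈ 𝓝 (g (e 0)) := by
      rw [H.ep, hfix]
      exact hO.mem_nhds ⟨0, mem_ball_self hR, H.ep⟩
    have h3 := hc.eventually h2
    rw [eventually_nhdsWithin_iff] at h3
    obtain ⟨r1, hr1, hr1'⟩ := Metric.nhds_basis_closedBall.eventually_iff.1 h3
    refine ⟨min r1 R, lt_min hr1 hR, min_le_right _ _, ?_⟩
    intro w hw
    exact hr1' (closedBall_subset_closedBall (min_le_left _ _) hw)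
      (closedBall_subset_closedBall (min_le_right _ _) hw)
  obtain ⟨r1, hr1, hr1R, h1⟩ := h1
  refine ⟨min r1 (c * R), lt_min hr1 (mul_pos H.c0 hR), ?_⟩
  intro r hr hrr
  have hrr1 : r < r1 := lt_of_lt_of_le hrr (min_le_left _ _)
  have hrR : r < R := by linarith
  have hsub : closedBall (0 : EE d) r ⊆ closedBall 0 R := closedBall_subset_closedBall hrR.le
  refine ⟨lt_of_lt_of_le hrr (min_le_right _ _), ?_, ?_, ?_⟩
  · refine ⟨?_, ?_, hfix, ?_, ?_⟩
    · exact (isCompact_closedBall (0 : EE d) r).image_of_continuousOn (H.ec.mono hsub)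
    · exact ⟨0, mem_closedBall_self hr.le, H.ep⟩
    · rintro x ⟨z, hz, hzx⟩
      have h2 := H.eh z (hsub hz)
      rw [hzx, g.symm_apply_apply] at h2
      rw [← h2]
      have h3 : IsOpen (e '' ball (0 : EE d) r) := H.eo _ (ball_subset_ball hrR.le) isOpen_ball
      have h4 : e '' ball (0 : EE d) r ⊆ interior (e '' closedBall (0 : EE d) r) :=
        interior_maximal (image_mono ball_subset_closedBall) h3
      apply h4
      refine ⟨_, ?_, rfl⟩
      have h5 := H.h2 z (hsub hz)
      rw [mem_closedBall_zero_iff] at hz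
      rw [mem_ball_zero_iff]
      linarith
    · intro x hx
      choose z hz hzx using hx
      have hstep : ∀ n, z n = h (z (n + 1)) := by
        intro n
        apply H.ei (hsub (hz n))
        · have h5 := H.h2 _ (hsub (hz (n + 1)))
          have h6 := hz (n + 1)
          rw [mem_closedBall_zero_iff] at h6 ⊢
          linarith
        · rw [hzx n, H.eh _ (hsub (hz (n + 1))), hzx (n + 1), Function.iterate_succ_apply',
            g.symm_apply_apply]
      have hnorm : ∀ n, ‖z 0‖ ≤ ‖z n‖ * (1 / 2) ^ n := by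
        intro n
        induction n with
        | zero => simp
        | succ n ih =>
          have h5 := H.h2 _ (hsub (hz (n + 1)))
          rw [← hstep n] at h5
          have h6 : ‖z n‖ * (1 / 2 : ℝ) ^ n ≤ ‖z (n + 1)‖ / 2 * (1 / 2) ^ n :=
            mul_le_mul_of_nonneg_right h5 (by positivity)
          rw [pow_succ]
          linarith
      have hz0 : z 0 = 0 := by
        by_contra hne
        have hpos := norm_pos_iff.2 hne
        obtain ⟨n, hn⟩ := exists_pow_lt_of_lt_one (show 0 < ‖z 0‖ / (r + 1) by positivity)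
          (by norm_num : (1 / 2 : ℝ) < 1)
        have h5 := hnorm n
        have h6 := hz n
        rw [mem_closedBall_zero_iff] at h6
        rw [lt_div_iff₀ (by linarith)] at hn
        have h7 : ‖z n‖ * (1 / 2 : ℝ) ^ n ≤ r * (1 / 2) ^ n :=
          mul_le_mul_of_nonneg_right h6 (by positivity)
        have h8 : (0 : ℝ) < (1 / 2) ^ n := by positivity
        nlinarith
      have h9 := hzx 0
      rw [hz0, H.ep] at h9
      exact h9.symm
  · intro w hw
    obtain ⟨z, hz, hze⟩ := h1 w (closedBall_subset_closedBall hrr1.le hw)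
    refine ⟨z, hz, ?_, hze⟩
    have hz' := ball_subset_closedBall hz
    apply H.ei _ (hsub hw)
    · rw [H.eh z hz', hze, g.symm_apply_apply]
    · have h5 := H.h2 z hz'
      rw [mem_closedBall_zero_iff] at hz' ⊢
      linarith
  · intro z hz hzi
    have h2 : z ∈ closedBall (0 : EE d) r := by
      obtain ⟨z', hz', he⟩ := interior_subset hzi
      have := H.ei (hsub hz') hz he
      rw [← this]; exact hz'
    by_contra hcon
    rw [mem_closedBall_zero_iff] at h2
    have hzr : ‖z‖ = r := le_antisymm h2 (not_lt.1 hcon)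
    have hopen : IsOpen (ball (0 : EE d) R ∩ e ⁻¹' (interior (e '' closedBall (0 : EE d) r))) :=
      (H.ec.mono ball_subset_closedBall).isOpen_inter_preimage isOpen_ball isOpen_interior
    have hzO : z ∈ ball (0 : EE d) R ∩ e ⁻¹' (interior (e '' closedBall (0 : EE d) r)) := by
      refine ⟨?_, hzi⟩
      rw [mem_ball_zero_iff]
      linarith
    have hcont : Tendsto (fun s : ℝ => (1 + s) • z) (𝓝[>] 0) (𝓝 z) := by
      have h2 : Continuous (fun s : ℝ => (1 + s) • z) := by fun_prop
      have h3 := h2.tendsto 0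
      simp only [add_zero, one_smul] at h3
      exact h3.mono_left nhdsWithin_le_nhds
    obtain ⟨s, hs1, hs2⟩ := ((hcont.eventually (hopen.mem_nhds hzO)).and
      self_mem_nhdsWithin).exists
    obtain ⟨z', hz', he⟩ := interior_subset hs1.2
    have h3 := H.ei (hsub hz') (ball_subset_closedBall hs1.1) he
    rw [h3, mem_closedBall_zero_iff, norm_smul, hzr, Real.norm_eq_abs] at hz'
    have hs2' : (0 : ℝ) < s := hs2
    rw [abs_of_pos (by linarith)] at hz'
    nlinarith

theorem t_PIE : S_PIE.{u} := by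
  intro hN d M _ _ g p e h R c H G hGo hGn hGi hpG hGt
  obtain ⟨r0, hr0, hr⟩ := hN d M g p e h R c H
  refine ⟨r0, hr0, fun r hr1 hr2 => ?_⟩
  obtain ⟨k1, hRep, k3, k4⟩ := hr r hr1 hr2
  have hR := H.R0
  obtain ⟨x, hx⟩ := hGn
  obtain ⟨n, hn⟩ := ((hGt x hx).eventually
    (mem_interior_iff_mem_nhds.1 (rep_nhds hRep))).exists
  have hGs : ∀ n : ℕ, ∀ y ∈ G, g.symm^[n] y ∈ G := by
    intro n
    induction n with
    | zero => exact fun y hy => hy
    | succ n ih =>
      intro y hy
      rw [Function.iterate_succ_apply', hGi, g.apply_symm_apply]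
      exact ih y hy
  have hGg : ∀ n : ℕ, ∀ y ∈ G, g^[n] y ∈ G := by
    intro n
    induction n with
    | zero => exact fun y hy => hy
    | succ n ih =>
      intro y hy
      rw [Function.iterate_succ_apply', ← hGi]
      exact ih y hy
  obtain ⟨y0, hy0G, hy0U⟩ : ∃ y0 ∈ G, y0 ∈ e '' closedBall (0 : EE d) r :=
    ⟨_, hGs n x hx, hn⟩
  have hy0p : y0 ≠ p := fun hh => hpG (hh ▸ hy0G)
  obtain ⟨m, hm1, hm2⟩ : ∃ m : ℕ, g^[m] y0 ∈ e '' closedBall (0 : EE d) r ∧
      g (g^[m] y0) ∉ e '' closedBall (0 : EE d) r := by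
    by_contra hcon
    push Not at hcon
    apply hy0p
    apply hRep.only
    intro n
    induction n with
    | zero => exact hy0U
    | succ n ih =>
      rw [Function.iterate_succ_apply']
      exact hcon n ih
  obtain ⟨w, hw, hwe⟩ := hm1
  obtain ⟨z, hz, hzw, hze⟩ := k3 w hw
  rw [hwe] at hze
  have hzG : e z ∈ G := by
    rw [hze, ← hGi]
    exact hGg m y0 hy0G
  have hzr : r < ‖z‖ := by
    by_contra hcon
    apply hm2
    rw [← hze]
    exact ⟨z, mem_closedBall_zero_iff.2 (not_lt.1 hcon), rfl⟩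
  rw [mem_closedBall_zero_iff, ← hzw] at hw
  rcases lt_or_eq_of_le hw with h1 | h1
  · exact ⟨z, hz, hzr, h1, hzG⟩
  · have hopen : IsOpen (ball (0 : EE d) R ∩ e ⁻¹' G) :=
      (H.ec.mono ball_subset_closedBall).isOpen_inter_preimage isOpen_ball hGo
    have hopen2 : IsOpen {y : EE d | r < ‖y‖} := isOpen_lt continuous_const continuous_norm
    have hcont : Tendsto (fun s : ℝ => s • z) (𝓝[<] 1) (𝓝 z) := by
      have h2 : Continuous (fun s : ℝ => s • z) := by fun_prop
      have h3 := h2.tendsto 1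
      simp only [one_smul] at h3
      exact h3.mono_left nhdsWithin_le_nhds
    have hpos : ∀ᶠ s : ℝ in 𝓝[<] 1, 0 < s :=
      nhdsWithin_le_nhds ((isOpen_lt continuous_const continuous_id).mem_nhds
        (show (0 : ℝ) < 1 by norm_num))
    obtain ⟨s, ⟨⟨hs1, hs3⟩, hs4⟩, hs2⟩ := (((hcont.eventually (hopen.mem_nhds ⟨hz, hzG⟩)).and
      (hcont.eventually (hopen2.mem_nhds hzr))).and hpos |>.and self_mem_nhdsWithin).exists
    have hs2' : s < 1 := hs2
    refine ⟨s • z, hs1.1, hs3, ?_, hs1.2⟩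
    have hznn : 0 < ‖z‖ := by linarith
    have hξ : ‖(‖z‖⁻¹ • z)‖ = 1 := by
      rw [norm_smul, norm_inv, norm_norm, inv_mul_cancel₀ hznn.ne']
    have e1 : z = ‖z‖ • (‖z‖⁻¹ • z) := by
      rw [smul_smul, mul_inv_cancel₀ hznn.ne', one_smul]
    have hzR : ‖z‖ < R := mem_ball_zero_iff.1 hz
    have h5 := H.mono _ hξ (a := s * ‖z‖) (b := ‖z‖) ⟨by positivity, by nlinarith⟩
      ⟨hznn.le, hzR.le⟩ (by nlinarith)
    dsimp only at h5
    rw [← e1, mul_smul, ← e1, h1] at h5
    exact h5

end Pool.Agent.Q62.MS
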