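import Pool.Agent.Q62.MS.One

/-! Project MS (helper62): MS22. -/

set_option autoImplicit false

open Set Filter Topology TopologicalSpace Metric

universe u

namespace Pool.Agent.Q62.MS

theorem par4 (hB : S_BRA.{u}) {M : Type u} [MetricSpace M] {g : M ≃ₜ M} {P Q : Finset M}
    {e : M → ℝ → M} {h : M → ℝ → ℝ} (H : Cyc g P Q e h) :
    ∀ q ∈ Q, ∀ q' ∈ Q, ∀ s s', (Br g (e q) s ∩ Br g (e q') s').Nonempty → q = q' ∧ s = s' := by
  intro q hq q' hq' s s' ⟨x, hx, hx'⟩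
  obtain ⟨-, z1, z2, -, -⟩ := hB M g q (e q) (h q) (H.snk q hq)
  obtain ⟨-, w1, -, -, -⟩ := hB M g q' (e q') (h q') (H.snk q' hq')
  have h1 := (z1 s).2.2.2.2.2 x hx
  have h2 := (w1 s').2.2.2.2.2 x hx'
  have h3 := tendsto_nhds_unique h1 h2
  subst h3
  refine ⟨rfl, ?_⟩
  cases s <;> cases s'
  · rfl
  · exact absurd hx (Set.disjoint_left.1 z2 hx')
  · exact absurd hx' (Set.disjoint_left.1 z2 hx)
  · rfl

theorem par_incl (hB : S_BRA.{u}) {M : Type u} [MetricSpace M] {g : M ≃ₜ M} {P Q : Finset M}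
    {e : M → ℝ → M} {h : M → ℝ → ℝ} (H : Cyc g P Q e h) :
    ∀ p ∈ P, ∀ s, ∃ q ∈ Q, ∃ s', Br g.symm (e p) s ⊆ Br g (e q) s' := by
  intro p hp s
  obtain ⟨gp, bp1, -, -, -⟩ := hB M g.symm p (e p) (h p) (H.src p hp)
  obtain ⟨v1, v2, v3, v4, v5, v6⟩ := bp1 s
  have key : ∀ x ∈ Br g.symm (e p) s, ∃ q ∈ Q, ∃ s', x ∈ Br g (e q) s' := by
    intro x hx
    have hxP : x ∉ P := by
      intro hxP
      have h1 := (hB M g.symm x (e x) (h x) (H.src x hxP)).1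
      have h2 := fix_eq h1 (v6 x hx)
      exact v4 (h2 ▸ hx)
    obtain ⟨q, hq, hl⟩ := H.fut x hxP
    obtain ⟨gq, -, -, z3, -⟩ := hB M g q (e q) (h q) (H.snk q hq)
    rcases z3 x hl with h1 | ⟨s', h1⟩
    · exfalso
      have gq' : g.symm q = q := by
        conv_rhs => rw [← g.symm_apply_apply q, gq]
      have h2 := v6 x hx
      rw [h1] at h2
      have h3 := fix_eq gq' h2
      exact H.dis p hp (h3 ▸ hq)
    · exact ⟨q, hq, s', h1⟩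
  obtain ⟨x0, hx0⟩ := v2.nonempty
  obtain ⟨q, hq, s', h0⟩ := key x0 hx0
  refine ⟨q, hq, s', ?_⟩
  have hop : ∀ q ∈ Q, ∀ s', IsOpen (Br g (e q) s') := fun q hq s' =>
    ((hB M g q (e q) (h q) (H.snk q hq)).2.1 s').1
  apply v2.isPreconnected.subset_left_of_subset_union (hop q hq s')
    (v := ⋃ r ∈ {r : M × Bool | r.1 ∈ Q ∧ r ≠ (q, s')}, Br g (e r.1) r.2)
  · apply isOpen_biUnion
    intro r hr
    exact hop r.1 hr.1 r.2
  · rw [Set.disjoint_left]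
    intro x hx hx2
    rw [mem_iUnion₂] at hx2
    obtain ⟨r, hr, hx2⟩ := hx2
    obtain ⟨e1, e2⟩ := par4 hB H q hq r.1 hr.1 s' r.2 ⟨x, hx, hx2⟩
    exact hr.2 (Prod.ext e1.symm e2.symm)
  · intro x hx
    obtain ⟨q1, hq1, s1, h1⟩ := key x hx
    by_cases hh : (q1, s1) = (q, s')
    · left
      rw [Prod.mk.injEq] at hh
      rw [← hh.1, ← hh.2]; exact h1
    · right
      rw [mem_iUnion₂]
      exact ⟨(q1, s1), ⟨hq1, hh⟩, h1⟩
  · exact ⟨x0, hx0, h0⟩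

theorem par_eq (hB : S_BRA.{u}) {M : Type u} [MetricSpace M] {g : M ≃ₜ M} {P Q : Finset M}
    {e : M → ℝ → M} {h : M → ℝ → ℝ} (H : Cyc g P Q e h) :
    ∀ p ∈ P, ∀ s, ∃ q ∈ Q, ∃ s', Br g.symm (e p) s = Br g (e q) s' := by
  intro p hp s
  obtain ⟨q, hq, s', h1⟩ := par_incl hB H p hp s
  obtain ⟨p', hp', s'', h2⟩ := par_incl hB H.inv q hq s'
  have h2' : Br g (e q) s' ⊆ Br g.symm (e p') s'' := h2
  obtain ⟨x, hx⟩ := ((hB M g.symm p (e p) (h p) (H.src p hp)).2.1 s).2.1.nonempty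
  obtain ⟨e1, e2⟩ := par4 hB H.inv p hp p' hp' s s'' ⟨x, hx, h2' (h1 hx)⟩
  refine ⟨q, hq, s', h1.antisymm ?_⟩
  rw [e1, e2]
  exact h2'

theorem t_PAR : S_PAR.{u} := by
  intro hB M _ _ g P Q e h H
  refine ⟨par_eq hB H, ?_, par4 hB H.inv, par4 hB H⟩
  exact par_eq hB H.inv

end Pool.Agent.Q62.MS
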