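import Pool.Agent.Q62.MS.Cvg

/-! Project MS (helper62): MS18. -/

set_option autoImplicit false

open Set Filter Topology TopologicalSpace Metric
open scoped Manifold ContDiff

universe u

namespace Pool.Agent.Q62.MS

theorem hp_symm {M : Type u} [TopologicalSpace M] (F : M ≃ₜ M) (k : ℕ) :
    ⇑(F ^ k : M ≃ₜ M).symm = F.symm^[k] := by
  change ⇑((F ^ k)⁻¹ : M ≃ₜ M) = _
  rw [← inv_pow, hp_nat]
  rfl

theorem cmd_iter' {d : ℕ} {M : Type u} [MetricSpace M] [ChartedSpace (EE d) M] {f : M → M}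
    (hf : ContMDiff (𝓡 d) (𝓡 d) 1 f) (n : ℕ) : ContMDiff (𝓡 d) (𝓡 d) 1 (f^[n]) := by
  induction n with
  | zero => exact contMDiff_id
  | succ n ih =>
    rw [Function.iterate_succ]
    exact ih.comp hf

theorem LocMod.swap {d : ℕ} {M : Type u} [MetricSpace M] {g : M ≃ₜ M} {p : M}
    {A A' : EE d →L[ℝ] EE d} {e : EE d → M} {φ ψ : EE d → EE d} {R : ℝ}
    (H : LocMod g p A A' e φ ψ R) : LocMod g.symm p A' A e ψ φ R where
  R0 := H.R0
  ec := H.ec
  ei := H.ei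
  eo := H.eo
  ep := H.ep
  f1 := H.s1
  f2 := H.s2
  f0 := H.s0
  s1 := H.f1
  s2 := H.f2
  s0 := H.f0
  ef := H.es
  es := H.ef

/-- the inverse of a hyperbolic map -/
theorem inv_split {E : Type} [NormedAddCommGroup E] [NormedSpace ℝ E] (A A' : E →L[ℝ] E)
    (h1 : ∀ v, A (A' v) = v) (h2 : ∀ v, A' (A v) = v) (Es Eu : Submodule ℝ E)
    (hc : IsCompl Es Eu) (hs : ∀ v ∈ Es, A v ∈ Es) (hu : ∀ v ∈ Eu, A v ∈ Eu) :
    ∀ v ∈ Eu, A' v ∈ Eu := by
  intro v hv
  obtain ⟨a, ha, b, hb, hab⟩ : ∃ a ∈ Es, ∃ b ∈ Eu, a + b = A' v := by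
    have h3 : A' v ∈ Es ⊔ Eu := by rw [hc.sup_eq_top]; trivial
    exact Submodule.mem_sup.1 h3
  have h4 : A a + A b = v := by rw [← map_add, hab, h1]
  have h5 : A a ∈ Eu := by
    have : A a = v - A b := by rw [← h4]; abel
    rw [this]
    exact Eu.sub_mem hv (hu b hb)
  have h6 : A a = 0 := by
    have := hc.disjoint.le_bot ⟨hs a ha, h5⟩
    simpa using this
  have h7 : a = 0 := by rw [← h2 a, h6, map_zero]
  rw [← hab, h7, zero_add]
  exact hb

theorem norm_le_quarter {E : Type} [NormedAddCommGroup E] [NormedSpace ℝ E] (A : E →L[ℝ] E)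
    (h : ∀ v, ‖A v‖ ≤ 1 / 4 * ‖v‖) : ‖A‖ < 1 / 2 := by
  have := A.opNorm_le_bound (by norm_num) h
  linarith

theorem t_PQG : S_PQG.{u} := by
  intro hCHA hCVG hSNK hMEA hITE d M _ _ _ _ _ F hd hF
  obtain ⟨K, hK, hx⟩ := hITE d M F hF
  have hfix : ∀ x, NW F x → (F ^ K : M ≃ₜ M) x = x := by
    intro x h
    rw [hp_nat]; exact (hx x h).1
  have c1 : ContMDiff (𝓡 d) (𝓡 d) 1 (F ^ K : M ≃ₜ M) := by
    rw [hp_nat]; exact cmd_iter' hF.c1 K
  have c2 : ContMDiff (𝓡 d) (𝓡 d) 1 (F ^ K : M ≃ₜ M).symm := by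
    rw [hp_symm]; exact cmd_iter' hF.c2 K
  have hper : ∀ x, NW F x → ∃ k : ℕ, 1 ≤ k ∧ F^[k] x = x := by
    intro x h
    obtain ⟨k, h1, h2, -⟩ := hF.hyp x h
    exact ⟨k, h1, h2⟩
  have hcv := (hCVG M F hF.fin hper).2 K hK (fun x h => (hx x h).1)
  rw [← hp_nat] at hx
  obtain ⟨g, hg⟩ : ∃ g : M ≃ₜ M, g = F ^ K := ⟨_, rfl⟩
  rw [← hg] at hfix c1 c2 hcv hx
  -- at every point of `Ω`
  have hpt : ∀ x, NW F x →
      (¬ IsMeagre {y : M | Tendsto (fun n : ℕ => g^[n] y) atTop (𝓝 x)} →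
        ‖Der (d := d) g x‖ < 1 / 2 ∧ IsOpen {y : M | Tendsto (fun n : ℕ => g^[n] y) atTop (𝓝 x)}) ∧
      (¬ IsMeagre {y : M | Tendsto (fun n : ℕ => g.symm^[n] y) atTop (𝓝 x)} →
        ‖Der (d := d) g.symm x‖ < 1 / 2 ∧
        IsOpen {y : M | Tendsto (fun n : ℕ => g.symm^[n] y) atTop (𝓝 x)}) ∧
      (∀ v, Der (d := d) g x (Der (d := d) g.symm x v) = v) := by
    intro x hxN
    obtain ⟨-, Es, Eu, hc, k1, k2, k3, k4, -⟩ := hx x hxN
    obtain ⟨i1, i2, e, φ, ψ, R, H⟩ := hCHA d M g c1 c2 x (hfix x hxN)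
    have j1 : ∀ v, Der (d := d) g x (Der (d := d) g.symm x v) = v := fun v => by
      have := congrArg (fun B : EE d →L[ℝ] EE d => B v) i1
      exact this
    have j2 : ∀ v, Der (d := d) g.symm x (Der (d := d) g x v) = v := fun v => by
      have := congrArg (fun B : EE d →L[ℝ] EE d => B v) i2
      exact this
    have l1 : ∀ v ∈ Eu, Der (d := d) g.symm x v ∈ Eu :=
      inv_split (E := EE d) _ _ j1 j2 Es Eu hc k1 k2
    have l2 : ∀ v ∈ Es, Der (d := d) g.symm x v ∈ Es :=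
      inv_split (E := EE d) _ _ j1 j2 Eu Es hc.symm k2 k1
    have l3 : ∀ v ∈ Eu, ‖Der (d := d) g.symm x v‖ ≤ 1 / 4 * ‖v‖ := by
      intro v hv
      have := k4 _ (l1 v hv)
      rw [j1] at this
      linarith
    have l4 : ∀ v ∈ Es, 4 * ‖v‖ ≤ ‖Der (d := d) g.symm x v‖ := by
      intro v hv
      have := k3 _ (l2 v hv)
      rw [j1] at this
      linarith
    refine ⟨?_, ?_, j1⟩
    · intro hm
      have hEu : Eu = ⊥ := by
        by_contra hne
        exact hm (hMEA d M g x _ _ e φ ψ R H Es Eu hc k1 k2 k3 k4 hne)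
      have hEs : Es = ⊤ := by
        have := hc.sup_eq_top
        rwa [hEu, sup_bot_eq] at this
      have hn : ‖Der (d := d) g x‖ < 1 / 2 :=
        norm_le_quarter _ (fun v => k3 v (by rw [hEs]; trivial))
      exact ⟨hn, hSNK d M g x _ _ e φ ψ R H hn⟩
    · intro hm
      have hEs : Es = ⊥ := by
        by_contra hne
        exact hm (hMEA d M g.symm x _ _ e ψ φ R H.swap Eu Es hc.symm l1 l2 l3 l4 hne)
      have hEu : Eu = ⊤ := by
        have := hc.sup_eq_top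
        rwa [hEs, bot_sup_eq] at this
      have hn : ‖Der (d := d) g.symm x‖ < 1 / 2 :=
        norm_le_quarter _ (fun v => l3 v (by rw [hEu]; trivial))
      exact ⟨hn, hSNK d M g.symm x _ _ e ψ φ R H.swap hn⟩
  -- the source
  have hcount : {x | NW F x}.Countable := hF.fin.countable
  obtain ⟨p, hpN, hpm⟩ : ∃ p ∈ {x | NW F x},
      ¬ IsMeagre {y : M | Tendsto (fun n : ℕ => g.symm^[n] y) atTop (𝓝 p)} := by
    apply exists_of_not_isMeagre_biUnion hcount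
    have h1 : (⋃ p ∈ {x | NW F x},
        {y : M | Tendsto (fun n : ℕ => g.symm^[n] y) atTop (𝓝 p)}) = univ := by
      apply eq_univ_of_forall
      intro y
      rw [mem_iUnion₂]
      obtain ⟨p, h2, h3⟩ := (hcv y).2
      exact ⟨p, h2, h3⟩
    rw [h1]
    exact not_isMeagre_of_isOpen isOpen_univ univ_nonempty
  obtain ⟨np, op⟩ := (hpt p hpN).2.1 hpm
  have hpW : p ∈ {y : M | Tendsto (fun n : ℕ => g.symm^[n] y) atTop (𝓝 p)} := by
    have h2 : g.symm p = p := by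
      conv_rhs => rw [← g.symm_apply_apply p, hfix p hpN]
    have h6 : (fun n : ℕ => g.symm^[n] p) = fun _ => p := by
      funext n
      exact Function.iterate_fixed h2 n
    rw [mem_setOf_eq, h6]
    exact tendsto_const_nhds
  have hWm := not_isMeagre_of_isOpen op ⟨p, hpW⟩
  obtain ⟨q, hqN, hqm⟩ : ∃ q ∈ {x | NW F x},
      ¬ IsMeagre ({y : M | Tendsto (fun n : ℕ => g.symm^[n] y) atTop (𝓝 p)} ∩
        {y : M | Tendsto (fun n : ℕ => g^[n] y) atTop (𝓝 q)}) := by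
    apply exists_of_not_isMeagre_biUnion hcount
    have h1 : (⋃ q ∈ {x | NW F x},
        ({y : M | Tendsto (fun n : ℕ => g.symm^[n] y) atTop (𝓝 p)} ∩
        {y : M | Tendsto (fun n : ℕ => g^[n] y) atTop (𝓝 q)})) =
        {y : M | Tendsto (fun n : ℕ => g.symm^[n] y) atTop (𝓝 p)} := by
      ext y
      rw [mem_iUnion₂]
      constructor
      · rintro ⟨q, -, h2, -⟩
        exact h2
      · intro h2
        obtain ⟨q, h3, h4⟩ := (hcv y).1
        exact ⟨q, h3, h2, h4⟩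
    rw [h1]
    exact hWm
  obtain ⟨nq, oq⟩ := (hpt q hqN).1 (fun hm => hqm (hm.mono inter_subset_right))
  refine ⟨K, hK, ?_, ?_, p, q, ?_⟩
  · rw [← hg]; exact c1
  · rw [← hg]; exact c2
  rw [← hg]
  refine ⟨hfix p hpN, hfix q hqN, ?_, np, nq, op.inter oq, nonempty_of_not_isMeagre hqm⟩
  intro hpq
  rw [← hpq] at nq
  have j1 := (hpt p hpN).2.2
  have hv : (EuclideanSpace.single (⟨0, hd⟩ : Fin d) (1 : ℝ) : EE d) ≠ 0 := by
    intro h0
    have := congrArg norm h0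
    simp at this
  have h1 := j1 (EuclideanSpace.single (⟨0, hd⟩ : Fin d) (1 : ℝ))
  have h2 := (Der (d := d) g p).le_opNorm (Der (d := d) g.symm p (EuclideanSpace.single ⟨0, hd⟩ 1))
  have h3 := (Der (d := d) g.symm p).le_opNorm (EuclideanSpace.single ⟨0, hd⟩ 1)
  rw [h1] at h2
  have h4 := norm_pos_iff.2 hv
  have h5 := norm_nonneg (Der (d := d) g p)
  have h6 := norm_nonneg (Der (d := d) g.symm p)
  have h7 := norm_nonneg (Der (d := d) g.symm p (EuclideanSpace.single (⟨0, hd⟩ : Fin d) (1 : ℝ)))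
  nlinarith

end Pool.Agent.Q62.MS
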