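import Mathlib

/-! Project MS (helper62), row MP_1494ae_an: for no Morse-Smale diffeomorphism `f` of a closed
manifold of dimension at least one does the induced map `C(f)` on the subcontinua have the
shadowing property.

Plan.  Replace `f` by an iterate `g`.  There are a source `p`, a sink `q` and a point whose orbit
goes from `p` to `q` (Baire category).

Dimension `d ≥ 2`: in the basin of repulsion of `p` there are two continua `A`, `B` which generate
disjoint `g`-invariant lines from `p` outwards, both meeting the basin of `q` (`Lines`).  The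
pseudo-orbit: at first `LL` (the lines, cut off far away, joined at `p`), then `TT` (the lines, cut
near `p`, joined far away).  A continuum which shadows it avoids `p` and lies in the basin of `p`,
near the two lines, so it is not connected.

Dimension `d = 1`: the component of `p` is a circle; the pseudo-orbit is: the circle with a small
gap at `q`, then the circle with a small gap at `p`. -/

set_option autoImplicit false

open Set Filter Topology TopologicalSpace Metric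
open scoped Manifold ContDiff

universe u

namespace Pool.Agent.Q62.MS

/-! ### definitions -/

/-- the (forward) shadowing property -/
def Shad {Y : Type u} [PseudoMetricSpace Y] (G : Y → Y) : Prop :=
  ∀ ε : ℝ, 0 < ε → ∃ δ : ℝ, 0 < δ ∧ ∀ y : ℕ → Y, (∀ n, dist (G (y n)) (y (n + 1)) < δ) →
    ∃ z : Y, ∀ n, dist (G^[n] z) (y n) < ε

/-- the hyperspace of subcontinua, with the Hausdorff metric -/
abbrev CM (M : Type u) [MetricSpace M] := {K : NonemptyCompacts M // IsConnected (K : Set M)}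

/-- the induced map -/
def Cmap {M : Type u} [MetricSpace M] (g : M → M) (hg : Continuous g) (K : CM M) : CM M :=
  ⟨K.1.map g hg, by
    rw [NonemptyCompacts.coe_map]
    exact K.2.image g hg.continuousOn⟩

abbrev EE (d : ℕ) := EuclideanSpace ℝ (Fin d)

/-- hyperbolic linear map -/
def HypLin {E : Type} [NormedAddCommGroup E] [NormedSpace ℝ E] (A : E →L[ℝ] E) : Prop :=
  ∃ Es Eu : Submodule ℝ E, IsCompl Es Eu ∧ (∀ v ∈ Es, A v ∈ Es) ∧ (∀ v ∈ Eu, A v ∈ Eu) ∧
    ∃ C q : ℝ, 0 < C ∧ 0 < q ∧ q < 1 ∧ (∀ v ∈ Es, ∀ n : ℕ, ‖(A ^ n) v‖ ≤ C * q ^ n * ‖v‖) ∧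
      ∀ v ∈ Eu, ∀ n : ℕ, ‖v‖ ≤ C * q ^ n * ‖(A ^ n) v‖

/-- the derivative at `x` (used only when `g x = x`) -/
noncomputable def Der {d : ℕ} {M : Type u} [MetricSpace M] [ChartedSpace (EE d) M]
    (g : M → M) (x : M) : EE d →L[ℝ] EE d := mfderiv (𝓡 d) (𝓡 d) g x

/-- nonwandering points -/
def NW {M : Type u} [MetricSpace M] (f : M → M) (x : M) : Prop :=
  ∀ O ∈ 𝓝 x, ∃ n : ℕ, 1 ≤ n ∧ ∃ y ∈ O, f^[n] y ∈ O

/-- `C^1` diffeomorphisms with finitely many nonwandering points, all of them hyperbolic periodic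
points (the Morse-Smale diffeomorphisms are among them) -/
structure FinHyp (d : ℕ) {M : Type u} [MetricSpace M] [ChartedSpace (EE d) M] (F : M ≃ₜ M) :
    Prop where
  c1 : ContMDiff (𝓡 d) (𝓡 d) 1 F
  c2 : ContMDiff (𝓡 d) (𝓡 d) 1 F.symm
  fin : {x | NW F x}.Finite
  hyp : ∀ x, NW F x → ∃ k : ℕ, 1 ≤ k ∧ F^[k] x = x ∧ HypLin (Der (d := d) (F^[k]) x)

/-! ### A. iterates -/

/-- MS1.  Shadowing passes to iterates.
Proof: let `y` be a pseudo-orbit of `G^[k]`, `G = Cmap g`; put `z (k n + i) = G^[i] (y n)` for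
`i < k`; this is a pseudo-orbit of `G` whose errors are those of `y`.  Note `(Cmap g)^[k] K` and
`Cmap (g^[k]) K` have the same underlying set. -/
def S_ITS : Prop := ∀ (M : Type u) [MetricSpace M] (g : M → M) (hg : Continuous g),
  Shad (Cmap g hg) → ∀ k : ℕ, 1 ≤ k → Shad (Cmap (g^[k]) (hg.iterate k))

/-! ### B. two lines from a repelling fixed point -/

/-- `p` is a repelling fixed point with the compact neighbourhood `U` -/
structure Rep {M : Type u} [MetricSpace M] (g : M ≃ₜ M) (p : M) (U : Set M) : Prop where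
  cU : IsCompact U
  pU : p ∈ U
  fp : g p = p
  inn : ∀ x, g x ∈ U → x ∈ interior U
  only : ∀ x, (∀ n : ℕ, g^[n] x ∈ U) → x = p

/-- the continua `A`, `B` generate two disjoint lines -/
structure Lines {M : Type u} [MetricSpace M] (g : M ≃ₜ M) (p : M) (U A B : Set M) : Prop where
  rep : Rep g p U
  cA : IsCompact A
  nA : IsConnected A
  pA : p ∉ A
  wA : ∀ x ∈ A, ∃ n : ℕ, g.symm^[n] x ∈ U
  gA : ∃ x ∈ A, g x ∈ A
  cB : IsCompact B
  nB : IsConnected B
  pB : p ∉ B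
  wB : ∀ x ∈ B, ∃ n : ℕ, g.symm^[n] x ∈ U
  gB : ∃ x ∈ B, g x ∈ B
  dAB : ∀ n : ℕ, ∀ x ∈ A, g^[n] x ∉ B
  dBA : ∀ n : ℕ, ∀ x ∈ B, g^[n] x ∉ A
  lim : ∃ a ∈ A, ∃ b ∈ B, ∃ q : M, Tendsto (fun n : ℕ => g^[n] a) atTop (𝓝 q) ∧
    Tendsto (fun n : ℕ => g^[n] b) atTop (𝓝 q)

/-- the lines up to time `N`, with `p` -/
def LL {M : Type u} [MetricSpace M] (g : M ≃ₜ M) (p : M) (C : Set M) (N : ℤ) : Set M :=
  {p} ∪ ⋃ n ∈ Iic N, (g ^ n : M ≃ₜ M) '' C

/-- the closure of the lines after time `N` -/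
def TT {M : Type u} [MetricSpace M] (g : M ≃ₜ M) (C : Set M) (N : ℤ) : Set M :=
  closure (⋃ n ∈ Ici N, (g ^ n : M ≃ₜ M) '' C)

/-- the whole line generated by `C` -/
def Orb {M : Type u} [MetricSpace M] (g : M ≃ₜ M) (C : Set M) : Set M :=
  ⋃ n : ℤ, (g ^ n : M ≃ₜ M) '' C

/-- MS2.  Escape.
Proof: `U` is a neighbourhood of `p` (`inn` with `g p = p ∈ U`), the sets `g.symm^[n] '' U` are
compact and decreasing with intersection `{p}` (`only`), so they are eventually inside every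
neighbourhood of `p`.  (1) the open sets `{x | g.symm^[n] x ∈ interior U}` increase with `n` and cover
`C` (from `g.symm^[n] x ∈ U` follows `g.symm^[n+1] x ∈ interior U`), so one of them contains `C`.
(2) apply the first remark to the complement of `C`: if `g^[n] x ∈ U`, `x ∈ C`, then
`x ∈ g.symm^[n] '' U`. -/
def S_ESC : Prop := ∀ (M : Type u) [MetricSpace M] [CompactSpace M] (g : M ≃ₜ M) (p : M)
  (U : Set M), Rep g p U →
  (∀ C : Set M, IsCompact C → (∀ x ∈ C, ∃ n : ℕ, g.symm^[n] x ∈ U) → ∀ O ∈ 𝓝 p,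
    ∃ N : ℕ, ∀ n ≥ N, ∀ x ∈ C, g.symm^[n] x ∈ O) ∧
  (∀ C : Set M, IsCompact C → p ∉ C → ∃ N : ℕ, ∀ n ≥ N, ∀ x ∈ C, g^[n] x ∉ U)

/-- MS3.  The sets `LL`, `TT` for `C = A ∪ B`.
Proof: (1) `LL` is closed: let `x_k ∈ g^(n_k) '' C`, `n_k ≤ N`, `x_k → x`; if `n_k` has a bounded
subsequence then `x ∈ g^n '' C` for some `n ≤ N`; otherwise `x = p` by `S_ESC`.  For each of `A`, `B` the union
of the `g^n '' A`, `n ≤ N`, is connected, since consecutive sets meet (`gA`), and `p` is in its closure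
(`S_ESC`); the two connected sets with `p` have `p` in common.  `TT g C N` is the union of the closures
for `A` and for `B`, each connected, and both contain `q` (`lim`).
(2) clear.  (3) `S_ESC` for `C`, if `N` is very negative.  (4) by the second part of `S_ESC` some
`g^(-m) '' (interior U)`, a neighbourhood of `p`, does not meet `g^n '' C` for `n ≥ N`.
(5) let `Γ = closure (Orb g C)`, compact; `p ∈ Γ` by (3).  By compactness, for all large `N`
every point of `Γ` has distance `< η / 2` to the union of the `g^n '' C` with `|n| ≤ N`, which is contained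
in `LL N` and in `TT (-N)`, and both are contained in `Γ`. -/
def S_CNT : Prop := S_ESC.{u} → ∀ (M : Type u) [MetricSpace M] [CompactSpace M] (g : M ≃ₜ M)
  (p : M) (U A B : Set M), Lines g p U A B →
  (∀ N : ℤ, IsCompact (LL g p (A ∪ B) N) ∧ IsConnected (LL g p (A ∪ B) N) ∧
    IsCompact (TT g (A ∪ B) N) ∧ IsConnected (TT g (A ∪ B) N)) ∧
  (∀ N : ℤ, g '' LL g p (A ∪ B) N = LL g p (A ∪ B) (N + 1) ∧
    g '' TT g (A ∪ B) N = TT g (A ∪ B) (N + 1)) ∧
  (∀ O ∈ 𝓝 p, ∃ N0 : ℤ, ∀ N ≤ N0, LL g p (A ∪ B) N ⊆ O) ∧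
  (∀ N : ℤ, p ∉ TT g (A ∪ B) N) ∧
  (∀ η : ℝ, 0 < η → ∀ N0 : ℤ, ∃ N ≥ N0, hausdorffDist (LL g p (A ∪ B) N) (TT g (A ∪ B) (-N)) < η)

/-- MS4.  Separation constants.  Here `D = {w | w ∈ U ∧ g w ∉ interior U}`, a compact set which does
not contain `p`, and all points of `D` are in the basin.
Proof: each statement separately for all small `ε`, by compactness (take `ε = 1/k` and a
convergent subsequence).  (iii) near a point `w ∈ D` only finitely many of the compact sets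
`g^n '' (A ∪ B)` occur (`S_ESC`: choose a neighbourhood `O` of `w` with `g^[m] y ∉ U` and
`g.symm^[m] y ∈ (small neighbourhood of p)` for `y ∈ O`, `m` large), so the closure of the lines agrees with
the lines near `w`, and `w ≠ p`.  (iv) in the limit one gets a point `w ∈ D` with `w ∈ Orb A` and
`w' ∈ Orb B` with `w' = g^k w` (the lines are closed near such points, by the same remark), which
contradicts `dAB`, `dBA`.  (v) at `w1 = x`: `x ∈ U` gives `g.symm x ∈ interior U` (`inn`), and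
`g x ∉ interior U` gives `g (g x) ∉ U`; both conditions are open, `D` is compact.
(i), (ii): `U` is a neighbourhood of `p`, `TT g C 0` is closed and `p` is not in it. -/
def S_SEP : Prop := S_ESC.{u} → S_CNT.{u} → ∀ (M : Type u) [MetricSpace M] [CompactSpace M]
  (g : M ≃ₜ M) (p : M) (U A B : Set M), Lines g p U A B → ∃ ε : ℝ, 0 < ε ∧
  closedBall p (2 * ε) ⊆ U ∧ (∀ x ∈ TT g (A ∪ B) 0, 2 * ε ≤ dist p x) ∧
  (∀ w ∈ U, g w ∉ interior U → ∀ (N : ℤ) (x : M), x ∈ LL g p (A ∪ B) N ∨ x ∈ TT g (A ∪ B) N →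
    dist w x < ε → x ∈ Orb g A ∪ Orb g B) ∧
  (∀ w ∈ U, g w ∉ interior U → ∀ w' : M, (w' = g.symm w ∨ w' = w ∨ w' = g w) →
    ∀ x ∈ Orb g A, ∀ y ∈ Orb g B,
      ¬ (dist w x < 2 * ε ∧ dist w' y < 2 * ε) ∧ ¬ (dist w y < 2 * ε ∧ dist w' x < 2 * ε)) ∧
  (∀ x ∈ U, g x ∉ interior U → ∀ w : M, dist w x < 2 * ε →
    g.symm w ∈ interior U ∧ g (g w) ∉ U)

/-- MS5.  **The main argument for `d ≥ 2`.**
Proof: write `C = A ∪ B`, `D` as in MS4, and let `ε` be from MS4 and `δ` from the shadowing property.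
There are `a1 ∈ Orb A ∩ D` and `b1 ∈ Orb B ∩ D` (take a point of `A`; the largest `n` with
`g^n a ∈ U` exists by `wA` and the second part of `S_ESC`; then `g^n a ∈ D`).  Take `N` large with
`hausdorffDist (LL N) (TT (-N)) < δ`, `a1, b1 ∈ LL (N - 1)`, and `N' ≤ N - 1` with
`LL N' ⊆ ball p ε`; `J = N - N' ≥ 1`.  Pseudo-orbit: `y_j = LL (N' + j)` for `j < J` and
`y_j = TT (-N + (j - J))` for `j ≥ J`.  Let `K` be the shadowing continuum.
`K ⊆ ball p (2 ε) ⊆ U` (time `0`).  `p ∉ K`, otherwise `p = g^j p` is at distance `< ε` from `y_j = TT 0`,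
`j = J + N`.  Let `z ∈ K`.  As `z ≠ p` there is a largest `n ≥ 0` with `g^n z ∈ U` (`only`), and
`w = g^n z ∈ D`; it has distance `< ε` to a point of `y_n`, which is in `Orb A ∪ Orb B` by (iii).
Let `K_A = {z ∈ K | ∃ n, g^n z ∈ D ∧ infDist (g^n z) (Orb A) ≤ ε}`, and `K_B` in the same way.  Then
`K = K_A ∪ K_B`.  They are closed: by `S_ESC` only finitely many `n` occur, and each condition is
closed.  Two times `n`, `m` with `g^n z, g^m z ∈ D` differ by at most one: if `m ≥ n + 2`, then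
`g^m z ∈ U` gives `g^(n+1) z ∈ interior U` (by `inn`), impossible.  So `K_A`, `K_B` are disjoint by (iv).
`K_A ≠ ∅`: at time `j = J - 1` some `z ∈ K` has `dist (g^j z) a1 < ε`.  If `z ∈ K_B`, then
`w' = g^m z ∈ D` is near `Orb B` for some `m`; by (v) for `w1 = g^j z`, `x = a1` and the same
argument `|m - j| ≤ 1`, and (iv) gives a contradiction.  In the same way `K_B ≠ ∅`.  So `K` is not
connected (`isPreconnected_closed_iff`). -/
def S_TWO : Prop := S_ESC.{u} → S_CNT.{u} → S_SEP.{u} → ∀ (M : Type u) [MetricSpace M]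
  [CompactSpace M] (g : M ≃ₜ M) (p : M) (U A B : Set M), Lines g p U A B →
  ¬ Shad (Cmap g g.continuous)

/-! ### C. construction of the lines, `d ≥ 2` -/

/-- a local model at a fixed point: `e` is the inverse of a chart, `φ` and `ψ` are `g` and its inverse
in the chart -/
structure LocMod {d : ℕ} {M : Type u} [MetricSpace M] (g : M ≃ₜ M) (p : M)
    (A A' : EE d →L[ℝ] EE d) (e : EE d → M) (φ ψ : EE d → EE d) (R : ℝ) : Prop where
  R0 : 0 < R
  ec : ContinuousOn e (closedBall 0 R)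
  ei : InjOn e (closedBall 0 R)
  eo : ∀ O ⊆ ball (0 : EE d) R, IsOpen O → IsOpen (e '' O)
  ep : e 0 = p
  f1 : ContDiffAt ℝ 1 φ 0
  f2 : HasFDerivAt φ A 0
  f0 : φ 0 = 0
  s1 : ContDiffAt ℝ 1 ψ 0
  s2 : HasFDerivAt ψ A' 0
  s0 : ψ 0 = 0
  ef : ∀ᶠ z in 𝓝 (0 : EE d), e (φ z) = g (e z)
  es : ∀ᶠ z in 𝓝 (0 : EE d), e (ψ z) = g.symm (e z)

/-- radial model of a source; `h` is the inverse map in the chart -/
structure RadMod {d : ℕ} {M : Type u} [MetricSpace M] (g : M ≃ₜ M) (p : M)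
    (e : EE d → M) (h : EE d → EE d) (R c : ℝ) : Prop where
  R0 : 0 < R
  c0 : 0 < c
  ec : ContinuousOn e (closedBall 0 R)
  ei : InjOn e (closedBall 0 R)
  eo : ∀ O ⊆ ball (0 : EE d) R, IsOpen O → IsOpen (e '' O)
  ep : e 0 = p
  hc : ContinuousOn h (closedBall 0 R)
  h2 : ∀ z ∈ closedBall (0 : EE d) R, ‖h z‖ ≤ ‖z‖ / 2
  h1 : ∀ z ∈ closedBall (0 : EE d) R, c * ‖z‖ ≤ ‖h z‖
  eh : ∀ z ∈ closedBall (0 : EE d) R, e (h z) = g.symm (e z)
  mono : ∀ ξ : EE d, ‖ξ‖ = 1 → StrictMonoOn (fun s : ℝ => ‖h (s • ξ)‖) (Icc 0 R)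

/-- MS6.  Charts.
Proof: `e z = (extChartAt (𝓡 d) p).symm (z + extChartAt (𝓡 d) p p)`,
`φ z = extChartAt (𝓡 d) p (g (e z)) - extChartAt (𝓡 d) p p`, and `ψ` in the same way with `g.symm`.  The
model has no boundary, so `mfderiv` is the derivative of `writtenInExtChartAt`, which is
`extChartAt p ∘ g ∘ (extChartAt p).symm` since `g p = p`.  The chain rule for
`g ∘ g.symm = id` gives the first part. -/
def S_CHA : Prop := ∀ (d : ℕ) (M : Type u) [MetricSpace M] [ChartedSpace (EE d) M]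
  [IsManifold (𝓡 d) 1 M] (g : M ≃ₜ M), ContMDiff (𝓡 d) (𝓡 d) 1 g →
  ContMDiff (𝓡 d) (𝓡 d) 1 g.symm → ∀ p : M, g p = p →
  (Der (d := d) g p).comp (Der (d := d) g.symm p) = ContinuousLinearMap.id ℝ (EE d) ∧
  (Der (d := d) g.symm p).comp (Der (d := d) g p) = ContinuousLinearMap.id ℝ (EE d) ∧
  ∃ (e : EE d → M) (φ ψ : EE d → EE d) (R : ℝ),
    LocMod g p (Der (d := d) g p) (Der (d := d) g.symm p) e φ ψ R

/-- MS7.  From a local model of a source to a radial model, `h = ψ`.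
Proof: `ψ` is strictly differentiable at `0` with derivative `A'`, `‖A'‖ < 1/2`, and `‖A' v‖ ≥ 2 c ‖v‖`
with `c > 0` because `A (A' v) = v`.  On a small ball `ψ z = A' z + (small) ‖z‖` gives `h2`, `h1`.
For `mono`: on a small ball `ψ` is differentiable with derivative close to `A'`; for `‖ξ‖ = 1` the
function `s ↦ ‖ψ (s ξ)‖^2` has the derivative `2 ⟪ψ (s ξ), ψ'(s ξ) ξ⟫`, where `ψ (s ξ) = s (A' ξ + small)` and
`ψ'(s ξ) ξ = A' ξ + small`, so it is at least `2 s (‖A' ξ‖^2 - small) > 0` for `0 < s`.  (Or without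
derivatives: `ψ (s ξ) - ψ (s' ξ) = (s - s') (A' ξ + small)` by strict differentiability, so
`‖ψ (s ξ)‖^2 - ‖ψ (s' ξ)‖^2 = ⟪ψ (s ξ) - ψ (s' ξ), ψ (s ξ) + ψ (s' ξ)⟫
= (s - s') (s + s') (‖A' ξ‖^2 + small) > 0`.) -/
def S_RAD : Prop := ∀ (d : ℕ) (M : Type u) [MetricSpace M] (g : M ≃ₜ M) (p : M)
  (A A' : EE d →L[ℝ] EE d) (e : EE d → M) (φ ψ : EE d → EE d) (R : ℝ), LocMod g p A A' e φ ψ R →
  A.comp A' = ContinuousLinearMap.id ℝ (EE d) → ‖A'‖ < 1 / 2 → ∃ R' c : ℝ, RadMod g p e ψ R' c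

/-- MS8.  A pair of disjoint motions on the sphere.
Proof: the unit sphere is path connected for `d ≥ 2` (`isPathConnected_sphere`).  First stage (time
`[0, 1/2]`): `P` goes from `a` to `b` on the sphere and `Q = -P`.  Second stage: `P = b` and
`Q` is `(1 - s) (-b) + s c`, normalised, for `0 ≤ s ≤ 1`; this is never zero and never a positive
multiple of `b`: `s c = (t + 1 - s) b`, `t ≥ 0` would give `c = b` (as `‖b‖ = ‖c‖ = 1`; for `s = 0` it is
`-b`).  Extend by constants outside `[0, 1]`. -/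
def S_PAI : Prop := ∀ d : ℕ, 2 ≤ d → ∀ a b c : EE d, ‖a‖ = 1 → ‖b‖ = 1 → ‖c‖ = 1 → b ≠ c →
  ∃ P Q : ℝ → EE d, Continuous P ∧ Continuous Q ∧ (∀ t, ‖P t‖ = 1 ∧ ‖Q t‖ = 1 ∧ P t ≠ Q t) ∧
    P 0 = a ∧ Q 0 = -a ∧ P 1 = b ∧ Q 1 = c

/-- MS9.  The sphere without a point is path connected.
Proof: stereographic projection (`stereographic'`) or: `-w` can be joined with every `v ≠ w` by the
normalised segment `(1 - s) (-w) + s v`, which is never zero and never a positive multiple of `w`. -/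
def S_AVO : Prop := ∀ d : ℕ, 2 ≤ d → ∀ x y w : EE d, ‖x‖ = 1 → ‖y‖ = 1 → ‖w‖ = 1 → x ≠ w → y ≠ w →
  ∃ γ : ℝ → EE d, Continuous γ ∧ (∀ t, ‖γ t‖ = 1 ∧ γ t ≠ w) ∧ γ 0 = x ∧ γ 1 = y

/-- MS10.  The radial function of the outer boundary of the fundamental domain.
Proof: `s ↦ ‖h (s ξ)‖` is continuous and strictly increasing on `[0, R]`, at `s = r` it is
at most `r / 2`, at `s = R` at least `c R > r`; so there is exactly one `ρ ξ ∈ (r, R)` where it is `r`.
Continuity: let `ξ_k → ξ` on the sphere; every limit point `s` of `ρ ξ_k` satisfies `‖h (s ξ)‖ = r`, so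
`s = ρ ξ`; compactness of `[0, R]`. -/
def S_RHO : Prop := ∀ (d : ℕ) (M : Type u) [MetricSpace M] (g : M ≃ₜ M) (p : M)
  (e : EE d → M) (h : EE d → EE d) (R c : ℝ), RadMod g p e h R c → ∀ r : ℝ, 0 < r → r < c * R →
  ∃ ρ : EE d → ℝ, ContinuousOn ρ (sphere 0 1) ∧ ∀ ξ : EE d, ‖ξ‖ = 1 → r < ρ ξ ∧ ρ ξ < R ∧
    ‖h (ρ ξ • ξ)‖ = r ∧ ∀ s ∈ Icc 0 R, (‖h (s • ξ)‖ ≤ r ↔ s ≤ ρ ξ)

/-- MS11.  The repelling neighbourhoods `U = e '' closedBall 0 r`.
Proof: `r < c R` for small `r`.  As `g p = p` and `e '' ball 0 R` is an open neighbourhood of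
`p = e 0`, for small `r` and `‖w‖ ≤ r` there is `z ∈ ball 0 R` with `e z = g (e w)`; then
`e (h z) = g.symm (e z) = e w`, so `h z = w`.  `Rep`: `g p = p` from `eh` at `0` (`h 0 = 0`);
`inn`: `g x = e z`, `‖z‖ ≤ r`, gives `x = e (h z)`, `‖h z‖ ≤ r / 2`, and `e '' ball 0 r` is open;
`only`: if `g^[n] x = e z_n` with `‖z_n‖ ≤ r` for all `n`, then `z_n = h z_(n+1)`, so
`‖z_0‖ ≤ 2^(-n) r` for all `n`.  Last part: if `‖z‖ ≥ r` and `e z ∈ interior (e '' closedBall 0 r)`,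
then `z ∈ closedBall 0 r` by injectivity, `‖z‖ = r`, and the points `e ((1 + s) z)` with small `s > 0` tend to
`e z` but are not in `e '' closedBall 0 r`. -/
def S_NBH : Prop := ∀ (d : ℕ) (M : Type u) [MetricSpace M] [CompactSpace M] (g : M ≃ₜ M) (p : M)
  (e : EE d → M) (h : EE d → EE d) (R c : ℝ), RadMod g p e h R c → ∃ r0 : ℝ, 0 < r0 ∧
  ∀ r : ℝ, 0 < r → r < r0 → r < c * R ∧ Rep g p (e '' closedBall 0 r) ∧
    (∀ w ∈ closedBall (0 : EE d) r, ∃ z ∈ ball (0 : EE d) R, h z = w ∧ e z = g (e w)) ∧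
    ∀ z ∈ closedBall (0 : EE d) R, e z ∈ interior (e '' closedBall 0 r) → ‖z‖ < r

/-- MS12.  A piece of `G` in the fundamental domain.
Proof: let `x ∈ G`.  `g.symm^[n] x → p`, so some `g.symm^[n] x` is in `U = e '' closedBall 0 r`; as
`x ≠ p`, by `only` there is an iterate outside `U`.  So there is a point `y` on the orbit of
`x` with `y ∉ U` and `g.symm y ∈ U`.  By `S_NBH` (third part, `e w = g.symm y`) `y = e z` with
`z ∈ ball 0 R`, `‖h z‖ ≤ r < ‖z‖`.  If `‖h z‖ = r` replace `z` by `s z` with `s < 1` close to `1`: then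
`‖h (s z)‖ < r` (`mono`), `‖s z‖ > r`, and `e (s z) ∈ G` as `G` is open. -/
def S_PIE : Prop := S_NBH.{u} → ∀ (d : ℕ) (M : Type u) [MetricSpace M] [CompactSpace M]
  (g : M ≃ₜ M) (p : M) (e : EE d → M) (h : EE d → EE d) (R c : ℝ), RadMod g p e h R c →
  ∀ G : Set M, IsOpen G → G.Nonempty → (∀ x, x ∈ G ↔ g x ∈ G) → p ∉ G →
  (∀ x ∈ G, Tendsto (fun n : ℕ => g.symm^[n] x) atTop (𝓝 p)) →
  ∃ r0 : ℝ, 0 < r0 ∧ ∀ r : ℝ, 0 < r → r < r0 →
    ∃ z ∈ ball (0 : EE d) R, r < ‖z‖ ∧ ‖h z‖ < r ∧ e z ∈ G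

/-- MS13.  **Construction of the two lines.**
Proof: fix a small `r` (MS11, MS12), `U = e '' closedBall 0 r`, `ρ` from MS10, and for `‖ξ‖ = 1`,
`t ∈ [0,1]` let `Φ (ξ, t) = ((1 - t) r + t ρ ξ) ξ`; `Φ` is injective and its range is
`{z ∈ closedBall 0 R | r ≤ ‖z‖ ∧ ‖h z‖ ≤ r}`.  For `‖ξ‖ = 1` there is `z ∈ ball 0 R` with `h z = r ξ`,
`e z = g (e (r ξ))`, and `z = Φ (ξ', 1)` with `ξ' = z / ‖z‖`.  Take a unit vector `a`; `a' ≠ (-a)'`
(otherwise the two points `z` would agree).  Let `P, Q` be from MS8 for `a`, `b = a'`, `c = (-a)'`.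
The set `{(ξ, t) | 0 < t < 1, Φ (ξ, t) ∈ e⁻¹ G}` is not empty (MS12) and open, so (as `d ≥ 2`) it contains
`(ξ1, t1)` with `ξ1 ≠ Q t1` and `(ξ2, t2)` with `t2 ≠ t1`, `ξ2 ≠ P t2`.  Let `γ1` be a path on the sphere
from `P t1` to `ξ1` which avoids `Q t1`, and `γ2` from `Q t2` to `ξ2` avoiding `P t2` (MS9).  Put
`A = e '' ({Φ (P t, t)} ∪ {Φ (γ1 s, t1)})`, `B = e '' ({Φ (Q t, t)} ∪ {Φ (γ2 s, t2)})`, `s, t ∈ [0, 1]`.
They are continua in `e '' {r ≤ ‖z‖, ‖h z‖ ≤ r}`, so `p ∉ A`, `g.symm x ∈ U` for `x ∈ A` (`wA` with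
`n = 1`), and `e (r a) ∈ A`, `g (e (r a)) = e (Φ (a', 1)) ∈ A`.  `A ∩ B = ∅`: compare levels `t` and
directions.  Let `x ∈ A`, `g^[n] x ∈ B`, `n ≥ 1`.  Then `g^[n-1] x ∈ U`.  If `n ≥ 2`, then `x ∈ interior U` by
`inn`, which is impossible (last part of MS11).  If `n = 1`, then `x ∈ U ∩ A`, so `x` has level `0`,
`x = e (r a)`, `g x = e (Φ (a', 1))`, but the only point of `B` with level `1` is `e (Φ ((-a)', 1))`.
In the same way for `dBA`.  `lim`: the points `e (Φ (ξ1, t1))`, `e (Φ (ξ2, t2))` are in `G`. -/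
def S_CON : Prop := S_PAI → S_AVO → S_RHO.{u} → S_NBH.{u} → S_PIE.{u} →
  ∀ (d : ℕ) (M : Type u) [MetricSpace M] [CompactSpace M]
  (g : M ≃ₜ M) (p q : M) (e : EE d → M) (h : EE d → EE d) (R c : ℝ), 2 ≤ d → RadMod g p e h R c →
  ∀ G : Set M, IsOpen G → G.Nonempty → (∀ x, x ∈ G ↔ g x ∈ G) → p ∉ G →
  (∀ x ∈ G, Tendsto (fun n : ℕ => g.symm^[n] x) atTop (𝓝 p) ∧
    Tendsto (fun n : ℕ => g^[n] x) atTop (𝓝 q)) →
  ∃ U A B : Set M, Lines g p U A B

/-! ### D. dynamics -/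

/-- MS14.  Convergence of orbits.
Proof: (1) the least common multiple of the periods.  (2) Limit points of `g^[n] x`, `g = F ^ k`, are
nonwandering for `F`: if `g^[n] x`, `g^[m] x` are both in `O`, `n < m`, then `F^[k (m - n)]` maps the
first to the second.  So for every `η` the points `g^[n] x` are within `η` of the finite set `Ω` for
large `n`; as `g` fixes `Ω` and is continuous, for small `η` it cannot jump from the `η`-ball of
one point of `Ω` to that of another one, so the orbit converges.  The same for `g.symm`: `NW F x ↔ NW F.symm x`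
(`F^[n] y ∈ O`, `y ∈ O`: take `y' = F^[n] y`, `F.symm^[n] y' = y`). -/
def S_CVG : Prop := ∀ (M : Type u) [MetricSpace M] [CompactSpace M] (F : M ≃ₜ M),
  {x | NW F x}.Finite → (∀ x, NW F x → ∃ k : ℕ, 1 ≤ k ∧ F^[k] x = x) →
  (∃ k : ℕ, 1 ≤ k ∧ ∀ x, NW F x → F^[k] x = x) ∧
  ∀ k : ℕ, 1 ≤ k → (∀ x, NW F x → F^[k] x = x) → ∀ x : M,
    (∃ q, NW F q ∧ Tendsto (fun n : ℕ => (F ^ k : M ≃ₜ M)^[n] x) atTop (𝓝 q)) ∧
    ∃ p, NW F p ∧ Tendsto (fun n : ℕ => (F ^ k : M ≃ₜ M).symm^[n] x) atTop (𝓝 p)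

/-- MS15.  The basin of a sink is open.
Proof: on a small ball `‖φ z‖ ≤ ‖z‖ / 2` and `e (φ z) = g (e z)`, so `g^[n] (e z) = e (φ^[n] z) → p`.  So there is an
open set `O ∋ q` whose points are in the basin, and the basin is the union of the preimages
of `O` under `g^[n]`. -/
def S_SNK : Prop := ∀ (d : ℕ) (M : Type u) [MetricSpace M] (g : M ≃ₜ M) (q : M)
  (A A' : EE d →L[ℝ] EE d) (e : EE d → M) (φ ψ : EE d → EE d) (R : ℝ), LocMod g q A A' e φ ψ R →
  ‖A‖ < 1 / 2 → IsOpen {x : M | Tendsto (fun n : ℕ => g^[n] x) atTop (𝓝 q)}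

/-- MS16.  If `q` is not a sink, its stable set is meagre.
Proof: write `v = v_s + v_u` (`IsCompl`, the projections are continuous), so `‖v_s‖, ‖v_u‖ ≤ c0 ‖v‖` and
`‖v‖ ≤ 2 max ‖v_s‖ ‖v_u‖`.  `φ` is strictly differentiable at `0`: on a small ball `ball 0 r`
`‖φ z - φ z' - A (z - z')‖ ≤ η ‖z - z'‖` with `η` small, and `e (φ z) = g (e z)`.  Cone: if
`v = z - z'` has `‖v_s‖ ≤ ‖v_u‖`, then `v' = φ z - φ z'` has `‖v'_u‖ ≥ 4 ‖v_u‖ - 2 c0 η ‖v_u‖ ≥ 2 ‖v_u‖` and
`‖v'_s‖ ≤ ‖v_u‖ / 4 + 2 c0 η ‖v_u‖ ≤ ‖v'_u‖`.  Let `S_r = {z ∈ closedBall 0 (r/2) | ∀ n, φ^[n] z ∈ closedBall 0 (r/2)}`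
(closed).  If its interior were not empty it would contain `z' ≠ z` with `z - z' ∈ Eu`, and then
`‖(φ^[n] z - φ^[n] z')_u‖ ≥ 2^n ‖(z - z')_u‖`, impossible.  So `e '' S_r` is closed and nowhere dense
(`e` is an open embedding on the ball), and the stable set of `q` is contained in the union of its
preimages under the homeomorphisms `g^[n]` (if `g^[n] x → q` then for large `n` all `g^[m] x`, `m ≥ n`,
are in `e '' ball 0 (r/2)`). -/
def S_MEA : Prop := ∀ (d : ℕ) (M : Type u) [MetricSpace M] [CompactSpace M] (g : M ≃ₜ M) (q : M)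
  (A A' : EE d →L[ℝ] EE d) (e : EE d → M) (φ ψ : EE d → EE d) (R : ℝ), LocMod g q A A' e φ ψ R →
  ∀ Es Eu : Submodule ℝ (EE d), IsCompl Es Eu → (∀ v ∈ Es, A v ∈ Es) → (∀ v ∈ Eu, A v ∈ Eu) →
  (∀ v ∈ Es, ‖A v‖ ≤ 1 / 4 * ‖v‖) → (∀ v ∈ Eu, 4 * ‖v‖ ≤ ‖A v‖) → Eu ≠ ⊥ →
  IsMeagre {x : M | Tendsto (fun n : ℕ => g^[n] x) atTop (𝓝 q)}

/-- MS17.  Strong hyperbolicity of an iterate.
Proof: let `K = 2 m L` with `L` a common multiple of the periods `k_x` (finitely many points) and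
`m` large.  If `F^[k] x = x`, then `Der (F^[k n]) x = (Der (F^[k]) x)^n` (chain rule,
`mfderiv_comp`), so with `n = K / k` the bounds of `HypLin` give
`‖A^n v‖ ≤ C q^n ‖v‖ ≤ ‖v‖ / 4` on `Es` and `4 ‖v‖ ≤ ‖A^n v‖` on `Eu` if `C q^n ≤ 1 / 4`; the subspaces are
invariant under `A^n`.  `B = Der (F^[m L]) x`. -/
def S_ITE : Prop := ∀ (d : ℕ) (M : Type u) [MetricSpace M] [CompactSpace M]
  [ChartedSpace (EE d) M] [IsManifold (𝓡 d) 1 M] (F : M ≃ₜ M), FinHyp d F →
  ∃ K : ℕ, 1 ≤ K ∧ ∀ x, NW F x → F^[K] x = x ∧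
    ∃ Es Eu : Submodule ℝ (EE d), IsCompl Es Eu ∧
      (∀ v ∈ Es, Der (d := d) (F^[K]) x v ∈ Es) ∧ (∀ v ∈ Eu, Der (d := d) (F^[K]) x v ∈ Eu) ∧
      (∀ v ∈ Es, ‖Der (d := d) (F^[K]) x v‖ ≤ 1 / 4 * ‖v‖) ∧
      (∀ v ∈ Eu, 4 * ‖v‖ ≤ ‖Der (d := d) (F^[K]) x v‖) ∧
      ∃ B : EE d →L[ℝ] EE d, Der (d := d) (F^[K]) x = B.comp B

/-- MS18.  A source, a sink and a connecting orbit.
Proof: `K` from MS17, `g = F ^ K` (as a function `F^[K]`; its inverse is `C^1`, too), `Ω` the set of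
nonwandering points, finite, fixed by `g`.  At each point of `Ω` MS6 gives a local model of `g`, and the
model with `φ`, `ψ` and `A`, `A'` exchanged is a local model of `g.symm` (with `Es`, `Eu`
exchanged, `‖A' v‖ ≤ 1/4 ‖v‖` on `Eu`, `4 ‖v‖ ≤ ‖A' v‖` on `Es`).  By MS14 `M` is the union of the finitely
many unstable sets of points of `Ω`; `M` is a nonempty Baire space, so one of them is not
meagre, say that of `p`; by MS16 (for `g.symm`) `Es = ⊥`, `Eu = ⊤`, so `‖Der g.symm p‖ ≤ 1/4`.  By MS15 its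
unstable set `W` is open and contains `p`.  `W` is the union of its intersections with the
stable sets of the points of `Ω` and not meagre, so one of these intersections is not meagre; by MS16
this is a sink `q` (`Eu = ⊥`).  The intersection is open by MS15.  `p ≠ q` since `d ≥ 1`: `‖A‖ < 1/2` and
`‖A'‖ < 1/2` contradict `A A' = 1` (MS6). -/
def S_PQG : Prop := S_CHA.{u} → S_CVG.{u} → S_SNK.{u} → S_MEA.{u} → S_ITE.{u} →
  ∀ (d : ℕ) (M : Type u) [MetricSpace M] [CompactSpace M] [Nonempty M]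
  [ChartedSpace (EE d) M] [IsManifold (𝓡 d) 1 M] (F : M ≃ₜ M), 1 ≤ d → FinHyp d F →
  ∃ K : ℕ, 1 ≤ K ∧ ContMDiff (𝓡 d) (𝓡 d) 1 (F ^ K : M ≃ₜ M) ∧
    ContMDiff (𝓡 d) (𝓡 d) 1 (F ^ K : M ≃ₜ M).symm ∧
    ∃ p q : M, (F ^ K : M ≃ₜ M) p = p ∧ (F ^ K : M ≃ₜ M) q = q ∧ p ≠ q ∧
      ‖Der (d := d) (F ^ K : M ≃ₜ M).symm p‖ < 1 / 2 ∧ ‖Der (d := d) (F ^ K : M ≃ₜ M) q‖ < 1 / 2 ∧
      IsOpen {x : M | Tendsto (fun n : ℕ => (F ^ K : M ≃ₜ M).symm^[n] x) atTop (𝓝 p) ∧
        Tendsto (fun n : ℕ => (F ^ K : M ≃ₜ M)^[n] x) atTop (𝓝 q)} ∧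
      {x : M | Tendsto (fun n : ℕ => (F ^ K : M ≃ₜ M).symm^[n] x) atTop (𝓝 p) ∧
        Tendsto (fun n : ℕ => (F ^ K : M ≃ₜ M)^[n] x) atTop (𝓝 q)}.Nonempty

/-! ### E. dimension one -/

/-- one-dimensional model of a sink `q` of `g` -/
structure Arc1 {M : Type u} [MetricSpace M] (g : M ≃ₜ M) (q : M) (e : ℝ → M) (h : ℝ → ℝ) :
    Prop where
  ec : ContinuousOn e (Icc (-1) 1)
  ei : InjOn e (Icc (-1) 1)
  eo : ∀ O ⊆ Ioo (-1 : ℝ) 1, IsOpen O → IsOpen (e '' O)
  ep : e 0 = q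
  hc : ContinuousOn h (Icc (-1) 1)
  hm : StrictMonoOn h (Icc (-1) 1)
  h0 : h 0 = 0
  h2 : ∀ t ∈ Icc (-1 : ℝ) 1, |h t| ≤ |t| / 2
  eh : ∀ t ∈ Icc (-1 : ℝ) 1, e (h t) = g (e t)

/-- the one-dimensional situation: `P` sources, `Q` sinks, and nothing else is recurrent -/
structure Cyc {M : Type u} [MetricSpace M] (g : M ≃ₜ M) (P Q : Finset M) (e : M → ℝ → M)
    (h : M → ℝ → ℝ) : Prop where
  dis : ∀ x ∈ P, x ∉ Q
  snk : ∀ q ∈ Q, Arc1 g q (e q) (h q)
  src : ∀ p ∈ P, Arc1 g.symm p (e p) (h p)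
  fut : ∀ x, x ∉ P → ∃ q ∈ Q, Tendsto (fun n : ℕ => g^[n] x) atTop (𝓝 q)
  pas : ∀ x, x ∉ Q → ∃ p ∈ P, Tendsto (fun n : ℕ => g.symm^[n] x) atTop (𝓝 p)
  ne : P.Nonempty
  ne' : Q.Nonempty

/-- the open interval on one side of `0` -/
def Side (s : Bool) : Set ℝ := if s then Ioo 0 1 else Ioo (-1) 0

/-- one of the two branches of the basin of `q` -/
def Br {M : Type u} [MetricSpace M] (g : M ≃ₜ M) (e : ℝ → M) (s : Bool) : Set M :=
  {x | ∃ n : ℕ, ∃ t ∈ Side s, g^[n] x = e t}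

/-- MS19.  One-dimensional local model.
Proof: let `u` be a unit vector of the line `EE 1`.  `A = B ∘ B` acts as multiplication by `b^2 > 0`
(`A` is injective since `A' A = 1`), and `b^2 < 1/2`.  Let `e1 t = e (s t u)` and `h1 t =` the
coordinate of `φ (s t u) / s` with a small `s > 0`.  `φ` is strictly differentiable at `0` with the
derivative `b^2`, so on a small interval its coordinate is strictly increasing and
`|h1 t| ≤ |t| / 2`. -/
def S_LO1 : Prop := ∀ (M : Type u) [MetricSpace M] (g : M ≃ₜ M) (q : M)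
  (A A' B : EE 1 →L[ℝ] EE 1) (e : EE 1 → M) (φ ψ : EE 1 → EE 1) (R : ℝ),
  LocMod g q A A' e φ ψ R → A'.comp A = ContinuousLinearMap.id ℝ (EE 1) → A = B.comp B →
  ‖A‖ < 1 / 2 → ∃ (e1 : ℝ → M) (h1 : ℝ → ℝ), Arc1 g q e1 h1

/-- MS20.  The one-dimensional situation from `FinHyp`.
Proof: `K` from MS17, `g = F ^ K`.  For `d = 1` at every nonwandering point `Es = ⊥` (source) or
`Eu = ⊥` (sink): the dimensions add up to `1`.  Let `P`, `Q` be the finite sets of sources and sinks.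
`Der g x = B ∘ B`, and for `g.symm`: `Der g.symm x = B' ∘ B'` with `B'` the inverse of `B`
(`B` is invertible since `Der g x` is; in dimension one everything is multiplication by numbers).
MS19 gives the models (for sources with `g.symm`).  `fut`: by MS14 `g^[n] x → y` for some nonwandering
`y`.  If `y` is a source then `x = y`: near `y`, `g.symm` contracts (`Arc1 g.symm y`), so if
`g^[n] x = e t_n` for all `n ≥ n0`, then `t_n = h t_(n+1)`, `|t_(n0)| ≤ 2^(-n)`, so `g^[n0] x = y = g^[n0] y`.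
As `x ∉ P`, `y` is a sink.  `pas` in the same way.  `ne`: take any point `x` of `M`; if `x ∈ Q` take a
point `e x t`, `t ≠ 0`, which is not in `Q`: it is not fixed.  Its `pas` gives an element of `P`. `ne'` in the
same way. -/
def S_CYC : Prop := S_CHA.{u} → S_CVG.{u} → S_ITE.{u} → S_LO1.{u} →
  ∀ (M : Type u) [MetricSpace M] [CompactSpace M] [Nonempty M]
  [ChartedSpace (EE 1) M] [IsManifold (𝓡 1) 1 M] (F : M ≃ₜ M), FinHyp 1 F →
  ∃ K : ℕ, 1 ≤ K ∧ ∃ (P Q : Finset M) (e : M → ℝ → M) (h : M → ℝ → ℝ),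
    Cyc (F ^ K : M ≃ₜ M) P Q e h

/-- MS21.  Branches of one sink.
Proof: `Br g e s` is the increasing union of the preimages under `g^[n]` of the open connected set
`e '' Side s` (`g (e t) = e (h t)`, and `h` maps `Side s` into itself).  If `g^[n] x → q`, then
`g^[n] x ∈ e '' Ioo (-1) 1` for some `n`; if it is `e 0 = q` then `x = q`.  If `x ∈ Br g e s`,
`g^[n] x = e t`, then `g^[n+m] x = e (h^[m] t) → e 0`.  Disjointness: `h` preserves the sign and `e` is
injective.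
Last part (say `s = true`): for `0 < t < h 1` put `S_n = {x | g^[n] x ∈ e '' Ico t 1}`.  Each `S_n` is
connected, `S_n` meets `S_(n+1)` (a point `x` with `g^[n] x = e s'`, `t ≤ h s'`, `s' < 1`), and the union
is `Br g e true \ e '' Ioo (-t) t`: let `x` be in this set and `n` minimal with `g^[n] x = e s'`,
`s' ∈ Ioo 0 1`; if `s' < t` then `n ≠ 0` and `s' = h s''` with `s'' ∈ Ioo 0 1` (intermediate value
theorem, `s' < h 1`), so `g^[n-1] x = e s''`, against the minimality. -/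
def S_BRA : Prop := ∀ (M : Type u) [MetricSpace M] (g : M ≃ₜ M) (q : M) (e : ℝ → M) (h : ℝ → ℝ),
  Arc1 g q e h → g q = q ∧
  (∀ s, IsOpen (Br g e s) ∧ IsConnected (Br g e s) ∧ (∀ x, x ∈ Br g e s ↔ g x ∈ Br g e s) ∧
    q ∉ Br g e s ∧ q ∈ closure (Br g e s) ∧
    ∀ x ∈ Br g e s, Tendsto (fun n : ℕ => g^[n] x) atTop (𝓝 q)) ∧
  Disjoint (Br g e true) (Br g e false) ∧
  (∀ x, Tendsto (fun n : ℕ => g^[n] x) atTop (𝓝 q) → x = q ∨ ∃ s, x ∈ Br g e s) ∧
  ∃ t0 : ℝ, 0 < t0 ∧ t0 < 1 ∧ ∀ t : ℝ, 0 < t → t < t0 →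
    IsConnected (Br g e true \ e '' Ioo (-t) t) ∧ e t ∈ Br g e true \ e '' Ioo (-t) t ∧
    IsConnected (Br g e false \ e '' Ioo (-t) t) ∧ e (-t) ∈ Br g e false \ e '' Ioo (-t) t

/-- MS22.  Every branch of a source is a branch of a sink, and conversely.
Proof: let `X` be a branch of the source `p`.  A point `x ∈ X` is not in `P` (fixed points `x = p'`
would have `g.symm^[n] x = x → p`, but `p ∉ X`), so `g^[n] x → q ∈ Q`, `x ≠ q` (`q` is fixed and
`q ≠ p`), so `x` is in a branch of `q` (MS21).  The branches of all sinks are open and pairwise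
disjoint (different sinks: different limits), and cover the connected set `X`, so `X` is contained in one
of them, `Y`.  By symmetry `Y` is contained in a branch `X'` of a source.  The branches of the sources
are pairwise disjoint, so `X' = X = Y`.  (`Cyc g.symm Q P e h` holds, too.) -/
def S_PAR : Prop := S_BRA.{u} → ∀ (M : Type u) [MetricSpace M] [CompactSpace M] (g : M ≃ₜ M)
  (P Q : Finset M) (e : M → ℝ → M) (h : M → ℝ → ℝ), Cyc g P Q e h →
  (∀ p ∈ P, ∀ s, ∃ q ∈ Q, ∃ s', Br g.symm (e p) s = Br g (e q) s') ∧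
  (∀ q ∈ Q, ∀ s', ∃ p ∈ P, ∃ s, Br g (e q) s' = Br g.symm (e p) s) ∧
  (∀ p ∈ P, ∀ p' ∈ P, ∀ s s', (Br g.symm (e p) s ∩ Br g.symm (e p') s').Nonempty → p = p' ∧ s = s') ∧
  (∀ q ∈ Q, ∀ q' ∈ Q, ∀ s s', (Br g (e q) s ∩ Br g (e q') s').Nonempty → q = q' ∧ s = s')

/-- MS23.  The circle without a small arc is connected.
Proof: let `C` be the component of `q` (open and closed, `M` is locally connected),
`V = e q '' Ioo (-t) t` with `t` small (MS21), `a = e q (-t)`, `b = e q t`, `X = C \ V`, closed, `a, b ∈ X`.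
Suppose `X` is the disjoint union of nonempty closed sets `X1`, `X2`.
If `a, b ∈ X1`, then `X2 = C ∩ X1ᶜ ∩ (e q '' Icc (-t) t)ᶜ` is open and closed in `M`, so `C ⊆ X2`, a contradiction.
So we may assume `a ∈ X1`, `b ∈ X2` (otherwise exchange).  Let `β_a = Br g (e q) false` and
`β_b = Br g (e q) true`.  By MS21 `β_a \ V` is connected and contains `a`, so it lies in `X1`; by MS22
`β_a` is a branch of a source `p_a`, which is in its closure, so `p_a ∈ X1` (`X1` is closed; `p_a ∉ V` since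
the points of `V` tend to `q`); in the same way the source of `β_b` is in `X2`.  Every branch `β ≠ β_a, β_b`
which has its source or its sink in `X1` is contained in `C`, connected and disjoint from `V`,
so `β ⊆ X1` and its source and its sink are in `X1`, and its sink is not `q`.  Let `m` be the number
of sources in `X1` and `n` the number of sinks in `X1` (`q ∉ X1`).  Counting the branches with source in
`X1` gives `2 m`, these are `β_a` and the branches with sink in `X1`, of which there are `2 n`.  So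
`2 m = 2 n + 1`, impossible. -/
def S_CIR : Prop := S_BRA.{u} → S_PAR.{u} → ∀ (M : Type u) [MetricSpace M] [CompactSpace M]
  [LocallyConnectedSpace M] (g : M ≃ₜ M) (P Q : Finset M) (e : M → ℝ → M) (h : M → ℝ → ℝ),
  Cyc g P Q e h → ∀ q ∈ Q, ∃ t0 : ℝ, 0 < t0 ∧ t0 < 1 ∧ ∀ t : ℝ, 0 < t → t < t0 →
    IsConnected (connectedComponent q \ e q '' Ioo (-t) t)

/-- MS24.  **The main argument for `d = 1`.**
Proof: let `p ∈ P`, `b0 = Br g.symm (e p) true = Br g (e q) s'` (MS22), `C` the component of `p`; it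
contains `b0` and `q` (`p` and `q` are in the closure of `b0`), it is open and closed and `g '' C = C`.
`closure b0 = b0 ∪ {p, q}`: a point outside `b0 ∪ P ∪ Q` is in another branch, which is open and
disjoint from `b0`; a point `p' ∈ P` has the neighbourhood `e p' '' Ioo (-1) 1`, contained in
`{p'}` and its branches, so `p' = p` if it meets `b0`; the same for `Q`.  So
`P2 = C \ (b0 ∪ {p, q})` is open; it contains `Br g.symm (e p) false`.  Fix `x1 ∈ b0`, `x2 ∈ P2` and a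
small `t1 > 0`.  Let `ε > 0` be such that `ball x1 ε ⊆ b0`, `ball x2 ε ⊆ P2`, the `ε`-neighbourhood of `C` is
`C`, `ball q ε ⊆ e q '' Ioo (-t1) t1`, `ball p ε ⊆ e p '' Ioo (-t1) t1`.  Let `δ` be from the shadowing
property.  For small `t > 0` the sets `X = C \ e q '' Ioo (-t) t` and `Y = C \ e p '' Ioo (-t) t` are
continua (MS23 for `g` and for `g.symm`, `Cyc g.symm Q P e h`), contain `x1`, `x2`, and
`hausdorffDist X Y < δ` (the arcs have small diameter and `e q t ∈ X`, `e p t ∈ Y`).  Take `J ≥ 1` with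
`g^[J]` mapping `e q '' Ioo (-t1) t1` into `e q '' Ioo (-t) t`, and `g.symm^[J]` mapping `e p '' Ioo (-t1) t1` into
`e p '' Ioo (-t) t`.  Pseudo-orbit: `y_j = g.symm^[J - j] '' X` for `j < J`, `y_j = g^[j - J] '' Y` for
`j ≥ J`.  Let `K` shadow it.  `K ⊆ C` (time 0).  `q ∉ K`: otherwise `y_0 = g.symm^[J] '' X` meets `ball q ε`,
but `g^[J]` maps this ball into `e q '' Ioo (-t) t`.  `p ∉ K`: otherwise `p = g^[2J] p` has distance `< ε` to
`y_(2J) = g^[J] '' Y`.  So the connected set `K` is contained in `b0 ∪ P2`, so in `b0` or in `P2`; the same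
for `g^[J] '' K`.  But `hausdorffDist (g^[J] '' K) Y < ε` and `x1, x2 ∈ Y`, so it meets `b0` and `P2`. -/
def S_ONE : Prop := S_BRA.{u} → S_PAR.{u} → S_CIR.{u} → ∀ (M : Type u) [MetricSpace M]
  [CompactSpace M] [LocallyConnectedSpace M] (g : M ≃ₜ M) (P Q : Finset M) (e : M → ℝ → M)
  (h : M → ℝ → ℝ), Cyc g P Q e h → ¬ Shad (Cmap g g.continuous)

/-! ### the theorem -/

/-- the answer -/
def S_FIN : Prop := ∀ (d : ℕ) (M : Type u) [MetricSpace M] [CompactSpace M] [Nonempty M]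
  [ChartedSpace (EE d) M] [IsManifold (𝓡 d) 1 M] (F : M ≃ₜ M), 1 ≤ d → FinHyp d F →
  ¬ Shad (Cmap F F.continuous)

end Pool.Agent.Q62.MS
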