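import Pool.Agent.Q62.MS.Stm

/-! Project MS (helper62): MS5. -/

set_option autoImplicit false

open Set Filter Topology TopologicalSpace Metric

universe u

namespace Pool.Agent.Q62.MS

theorem cm_dist {M : Type u} [MetricSpace M] (K L : CM M) :
    dist K L = hausdorffDist (K.1 : Set M) (L.1 : Set M) := rfl

theorem cm_fin {M : Type u} [MetricSpace M] (K L : CM M) :
    hausdorffEDist (K.1 : Set M) (L.1 : Set M) ≠ ⊤ :=
  hausdorffEDist_ne_top_of_nonempty_of_bounded K.1.nonempty L.1.nonempty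
    K.1.isCompact.isBounded L.1.isCompact.isBounded

theorem cm_near {M : Type u} [MetricSpace M] {K L : CM M} {ε : ℝ} (h : dist K L < ε) {x : M}
    (hx : x ∈ (K.1 : Set M)) : ∃ y ∈ (L.1 : Set M), dist x y < ε :=
  exists_dist_lt_of_hausdorffDist_lt hx h (cm_fin K L)

theorem cm_iter {M : Type u} [MetricSpace M] (g : M → M) (hg : Continuous g) (K : CM M) (n : ℕ) :
    (((Cmap g hg)^[n] K).1 : Set M) = g^[n] '' (K.1 : Set M) := by
  induction n with
  | zero => simp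
  | succ n ih =>
    rw [Function.iterate_succ_apply']
    change ((((Cmap g hg)^[n] K).1.map g hg : NonemptyCompacts M) : Set M) = _
    rw [NonemptyCompacts.coe_map, ih, Function.iterate_succ', image_comp]

theorem orb_inv {M : Type u} [MetricSpace M] (g : M ≃ₜ M) (C : Set M) (x : M) :
    x ∈ Orb g C ↔ g x ∈ Orb g C := by
  unfold Orb
  simp only [mem_iUnion, mem_image]
  constructor
  · rintro ⟨n, c, hc, rfl⟩
    refine ⟨1 + n, c, hc, ?_⟩
    rw [zpow_add, zpow_one]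
    rfl
  · rintro ⟨n, c, hc, h⟩
    refine ⟨-1 + n, c, hc, ?_⟩
    rw [zpow_add, zpow_neg_one]
    change g.symm ((g ^ n : M ≃ₜ M) c) = x
    rw [h, Homeomorph.symm_apply_apply]

theorem orb_iter {M : Type u} [MetricSpace M] (g : M ≃ₜ M) (C : Set M) (n : ℕ) (x : M) :
    x ∈ Orb g C ↔ g^[n] x ∈ Orb g C := by
  induction n with
  | zero => simp
  | succ n ih => rw [ih, orb_inv, Function.iterate_succ_apply']

theorem orb_self {M : Type u} [MetricSpace M] (g : M ≃ₜ M) (C : Set M) {x : M} (hx : x ∈ C) :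
    x ∈ Orb g C := by
  unfold Orb
  simp only [mem_iUnion, mem_image]
  exact ⟨0, x, hx, by simp⟩

theorem g_symm_iter {M : Type u} [MetricSpace M] (g : M ≃ₜ M) (n : ℕ) (x : M) :
    g^[n] (g.symm^[n] x) = x := by
  have h : Function.RightInverse (g.symm : M → M) g := g.apply_symm_apply
  exact h.iterate n x

theorem rep_down {M : Type u} [MetricSpace M] {g : M ≃ₜ M} {p : M} {U : Set M} (hR : Rep g p U)
    (z : M) (n m : ℕ) (h : m < n) (hn : g^[n] z ∈ U) : g^[m] z ∈ interior U := by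
  induction n with
  | zero => omega
  | succ n ih =>
    rw [Function.iterate_succ_apply'] at hn
    have h1 := hR.inn _ hn
    rcases Nat.lt_or_ge m n with h2 | h2
    · exact ih h2 (interior_subset h1)
    · have : m = n := by omega
      rw [this]
      exact h1

theorem rep_exit {M : Type u} [MetricSpace M] {g : M ≃ₜ M} {p : M} {U : Set M} (hR : Rep g p U)
    (z : M) (hz : z ∈ U) (hp : z ≠ p) : ∃ n : ℕ, g^[n] z ∈ U ∧ g (g^[n] z) ∉ interior U := by
  by_contra hcon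
  push Not at hcon
  apply hp
  apply hR.only
  intro n
  induction n with
  | zero => exact hz
  | succ n ih =>
    rw [Function.iterate_succ_apply']
    exact interior_subset (hcon n ih)

theorem orb_D {M : Type u} [MetricSpace M] {g : M ≃ₜ M} {p : M} {U : Set M} (hR : Rep g p U)
    (A : Set M) (nA : A.Nonempty) (pA : p ∉ A) (wA : ∀ x ∈ A, ∃ n : ℕ, g.symm^[n] x ∈ U) :
    ∃ a ∈ Orb g A, a ∈ U ∧ g a ∉ interior U := by
  obtain ⟨a, ha⟩ := nA
  obtain ⟨n, hn⟩ := wA a ha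
  have h1 : g.symm^[n] a ≠ p := by
    intro h
    apply pA
    have h2 := g_symm_iter g n a
    rw [h, Function.iterate_fixed hR.fp n] at h2
    rw [h2]; exact ha
  obtain ⟨m, hm1, hm2⟩ := rep_exit hR _ hn h1
  refine ⟨_, ?_, hm1, hm2⟩
  rw [← orb_iter, orb_iter g A n, g_symm_iter]
  exact orb_self g A ha

theorem t_TWO : S_TWO.{u} := by
  intro hE hC hS M _ _ g p U A B hL hSh
  obtain ⟨ε, hε, h1, h2, h3, h4, h5⟩ := hS hE hC M g p U A B hL
  obtain ⟨δ, hδ, hsh⟩ := hSh ε hε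
  obtain ⟨c1, c2, c3, c4, c5⟩ := hC hE M g p U A B hL
  have hR := hL.rep
  obtain ⟨a1, haO, haU, haI⟩ := orb_D hR A hL.nA.nonempty hL.pA hL.wA
  obtain ⟨b1, hbO, hbU, hbI⟩ := orb_D hR B hL.nB.nonempty hL.pB hL.wB
  obtain ⟨na, hna⟩ : ∃ n : ℤ, a1 ∈ (g ^ n : M ≃ₜ M) '' A := by
    simpa [Orb] using haO
  obtain ⟨nb, hnb⟩ : ∃ n : ℤ, b1 ∈ (g ^ n : M ≃ₜ M) '' B := by
    simpa [Orb] using hbO
  obtain ⟨N, hN0, hNd⟩ := c5 δ hδ (max 0 (max (na + 1) (nb + 1)))
  have hN1 : 0 ≤ N := le_trans (le_max_left _ _) hN0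
  have hN2 : na + 1 ≤ N := le_trans (le_trans (le_max_left _ _) (le_max_right _ _)) hN0
  have hN3 : nb + 1 ≤ N := le_trans (le_trans (le_max_right _ _) (le_max_right _ _)) hN0
  have haL : a1 ∈ LL g p (A ∪ B) (N - 1) := by
    right
    simp only [mem_iUnion, mem_Iic]
    exact ⟨na, by linarith, image_mono subset_union_left hna⟩
  have hbL : b1 ∈ LL g p (A ∪ B) (N - 1) := by
    right
    simp only [mem_iUnion, mem_Iic]
    exact ⟨nb, by linarith, image_mono subset_union_right hnb⟩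
  obtain ⟨N1, hN1'⟩ := c3 (ball p ε) (ball_mem_nhds p hε)
  obtain ⟨N', hN'1, hN'2⟩ : ∃ N' : ℤ, N' ≤ N - 1 ∧ LL g p (A ∪ B) N' ⊆ ball p ε :=
    ⟨min N1 (N - 1), min_le_right _ _, hN1' _ (min_le_left _ _)⟩
  obtain ⟨J, hJ⟩ : ∃ J : ℕ, (J : ℤ) = N - N' := ⟨(N - N').toNat, by
    rw [Int.toNat_of_nonneg]; linarith⟩
  have hJ1 : 1 ≤ J := by
    have : (1 : ℤ) ≤ (J : ℤ) := by rw [hJ]; linarith
    exact_mod_cast this
  -- the continua
  let LC : ℤ → CM M := fun N => ⟨⟨⟨LL g p (A ∪ B) N, (c1 N).1⟩, (c1 N).2.1.nonempty⟩, (c1 N).2.1⟩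
  let TC : ℤ → CM M := fun N => ⟨⟨⟨TT g (A ∪ B) N, (c1 N).2.2.1⟩, (c1 N).2.2.2.nonempty⟩,
    (c1 N).2.2.2⟩
  have hLC : ∀ N, ((LC N).1 : Set M) = LL g p (A ∪ B) N := fun _ => rfl
  have hTC : ∀ N, ((TC N).1 : Set M) = TT g (A ∪ B) N := fun _ => rfl
  have gLC : ∀ N, Cmap g g.continuous (LC N) = LC (N + 1) := by
    intro N
    apply Subtype.ext
    apply SetLike.coe_injective
    change g '' (LL g p (A ∪ B) N) = LL g p (A ∪ B) (N + 1)
    exact (c2 N).1
  have gTC : ∀ N, Cmap g g.continuous (TC N) = TC (N + 1) := by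
    intro N
    apply Subtype.ext
    apply SetLike.coe_injective
    change g '' (TT g (A ∪ B) N) = TT g (A ∪ B) (N + 1)
    exact (c2 N).2
  let y : ℕ → CM M := fun j => if j < J then LC (N' + j) else TC (-N + (j - J))
  have hy1 : ∀ j, j < J → y j = LC (N' + j) := fun j hj => by simp [y, hj]
  have hy2 : ∀ j, J ≤ j → y j = TC (-N + (j - J)) := fun j hj => by simp [y, not_lt.mpr hj]
  have hps : ∀ n, dist (Cmap g g.continuous (y n)) (y (n + 1)) < δ := by
    intro n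
    rcases Nat.lt_or_ge (n + 1) J with h | h
    · rw [hy1 n (by omega), hy1 (n + 1) h, gLC]
      have : N' + ((n : ℕ) : ℤ) + 1 = N' + ((n + 1 : ℕ) : ℤ) := by push_cast; ring
      rw [this, dist_self]; exact hδ
    · rcases Nat.eq_or_lt_of_le h with h' | h'
      · rw [hy1 n (by omega), hy2 (n + 1) h, gLC]
        have e1 : N' + ((n : ℕ) : ℤ) + 1 = N := by
          have : (J : ℤ) = ((n + 1 : ℕ) : ℤ) := by rw [h']
          push_cast at this
          linarith
        have e2 : -N + (((n + 1 : ℕ) : ℤ) - (J : ℤ)) = -N := by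
          rw [← h']; ring
        rw [e1, e2, cm_dist, hLC, hTC]
        exact hNd
      · rw [hy2 n (by omega), hy2 (n + 1) h, gTC]
        have : -N + (((n : ℕ) : ℤ) - (J : ℤ)) + 1 = -N + (((n + 1 : ℕ) : ℤ) - (J : ℤ)) := by
          push_cast; ring
        rw [this, dist_self]; exact hδ
  obtain ⟨K, hK⟩ := hsh y hps
  have hmem : ∀ n, ∀ x ∈ ((y n).1 : Set M), ∃ N : ℤ,
      x ∈ LL g p (A ∪ B) N ∨ x ∈ TT g (A ∪ B) N := by
    intro n x hx
    rcases Nat.lt_or_ge n J with h | h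
    · rw [hy1 n h] at hx
      exact ⟨_, Or.inl hx⟩
    · rw [hy2 n h] at hx
      exact ⟨_, Or.inr hx⟩
  have near1 : ∀ n, ∀ z ∈ (K.1 : Set M), ∃ x ∈ ((y n).1 : Set M), dist (g^[n] z) x < ε := by
    intro n z hz
    apply cm_near (hK n)
    rw [cm_iter]
    exact mem_image_of_mem _ hz
  have near2 : ∀ n, ∀ x ∈ ((y n).1 : Set M), ∃ z ∈ (K.1 : Set M), dist (g^[n] z) x < ε := by
    intro n x hx
    have h := hK n
    rw [dist_comm] at h
    obtain ⟨w, hw, hw2⟩ := cm_near h hx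
    rw [cm_iter] at hw
    obtain ⟨z, hz, rfl⟩ := hw
    exact ⟨z, hz, by rw [dist_comm]; exact hw2⟩
  have hKU : ∀ z ∈ (K.1 : Set M), z ∈ U := by
    intro z hz
    obtain ⟨x, hx, hx2⟩ := near1 0 z hz
    rw [hy1 0 (by omega)] at hx
    have hx3 : x ∈ LL g p (A ∪ B) N' := by simpa [hLC] using hx
    have hx4 := hN'2 hx3
    apply h1
    rw [mem_closedBall]
    rw [mem_ball] at hx4
    have h6 : dist z x < ε := hx2
    linarith [dist_triangle z x p]
  have hpK : p ∉ (K.1 : Set M) := by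
    intro hp
    obtain ⟨NN, hNN⟩ : ∃ NN : ℕ, (NN : ℤ) = N := ⟨N.toNat, Int.toNat_of_nonneg hN1⟩
    obtain ⟨x, hx, hx2⟩ := near1 (J + NN) p hp
    rw [hy2 (J + NN) (by omega)] at hx
    have e1 : -N + (((J + NN : ℕ) : ℤ) - (J : ℤ)) = 0 := by push_cast; rw [hNN]; ring
    rw [e1] at hx
    have hx3 : x ∈ TT g (A ∪ B) 0 := hx
    have h6 := h2 x hx3
    rw [Function.iterate_fixed hR.fp] at hx2
    linarith
  -- closed sets
  obtain ⟨N2, hN2'⟩ := (hE M g p U hR).2 (K.1 : Set M) K.1.isCompact hpK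
  have hcl : ∀ S : Set M, IsClosed (⋃ n ∈ Finset.range N2, {z : M | g^[n] z ∈ U ∧
      g (g^[n] z) ∉ interior U ∧ infDist (g^[n] z) S ≤ ε}) := by
    intro S
    apply isClosed_biUnion_finset
    intro n _
    have hc : Continuous (g^[n]) := g.continuous.iterate n
    have e1 : IsClosed {z : M | g^[n] z ∈ U} := hR.cU.isClosed.preimage hc
    have e2 : IsClosed {z : M | g (g^[n] z) ∉ interior U} :=
      (isOpen_interior.isClosed_compl).preimage (g.continuous.comp hc)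
    have e3 : IsClosed {z : M | infDist (g^[n] z) S ≤ ε} :=
      isClosed_le ((continuous_infDist_pt S).comp hc) continuous_const
    exact e1.inter (e2.inter e3)
  -- every point of `K` belongs to one of them
  have hin : ∀ S : Set M, ∀ z ∈ (K.1 : Set M), ∀ n : ℕ, g^[n] z ∈ U → g (g^[n] z) ∉ interior U →
      ∀ x ∈ S, dist (g^[n] z) x < ε → z ∈ (⋃ n ∈ Finset.range N2, {z : M | g^[n] z ∈ U ∧
      g (g^[n] z) ∉ interior U ∧ infDist (g^[n] z) S ≤ ε}) := by
    intro S z hz n hn1 hn2 x hx hd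
    simp only [mem_iUnion, Finset.mem_range, mem_setOf_eq]
    refine ⟨n, ?_, hn1, hn2, le_trans (infDist_le_dist_of_mem hx) hd.le⟩
    by_contra hcon
    exact hN2' n (not_lt.mp hcon) z hz hn1
  have hout : ∀ S : Set M, S.Nonempty → ∀ z ∈ (⋃ n ∈ Finset.range N2, {z : M | g^[n] z ∈ U ∧
      g (g^[n] z) ∉ interior U ∧ infDist (g^[n] z) S ≤ ε}), ∃ n : ℕ, g^[n] z ∈ U ∧
      g (g^[n] z) ∉ interior U ∧ ∃ x ∈ S, dist (g^[n] z) x < 2 * ε := by
    intro S hS z hz
    simp only [mem_iUnion, Finset.mem_range, mem_setOf_eq] at hz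
    obtain ⟨n, -, hn1, hn2, hn3⟩ := hz
    refine ⟨n, hn1, hn2, ?_⟩
    exact (infDist_lt_iff hS).1 (by linarith)
  have hcov : ∀ z ∈ (K.1 : Set M), (∃ n : ℕ, g^[n] z ∈ U ∧ g (g^[n] z) ∉ interior U ∧
      ((∃ x ∈ Orb g A, dist (g^[n] z) x < ε) ∨ (∃ x ∈ Orb g B, dist (g^[n] z) x < ε))) := by
    intro z hz
    obtain ⟨n, hn1, hn2⟩ := rep_exit hR z (hKU z hz) (fun h => hpK (h ▸ hz))
    obtain ⟨x, hx, hx2⟩ := near1 n z hz
    obtain ⟨N3, hN3'⟩ := hmem n x hx
    rcases h3 _ hn1 hn2 N3 x hN3' hx2 with h | h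
    · exact ⟨n, hn1, hn2, Or.inl ⟨x, h, hx2⟩⟩
    · exact ⟨n, hn1, hn2, Or.inr ⟨x, h, hx2⟩⟩
  have hAne : (Orb g A).Nonempty := ⟨a1, haO⟩
  have hBne : (Orb g B).Nonempty := ⟨b1, hbO⟩
  -- times
  have time1 : ∀ (z : M) (n m : ℕ), g (g^[n] z) ∉ interior U → g^[m] z ∈ U → m ≤ n + 1 := by
    intro z n m hn hm
    by_contra hcon
    apply hn
    rw [← Function.iterate_succ_apply' g n z]
    exact rep_down hR z m (n + 1) (by omega) hm
  have time3 : ∀ (z : M) (n m : ℕ), m ≤ n + 1 → n ≤ m + 1 →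
      (g^[m] z = g.symm (g^[n] z) ∨ g^[m] z = g^[n] z ∨ g^[m] z = g (g^[n] z)) := by
    intro z n m hm1 hm2
    have : m = n + 1 ∨ m = n ∨ n = m + 1 := by omega
    rcases this with h | h | h
    · right; right; rw [h, Function.iterate_succ_apply']
    · right; left; rw [h]
    · left; rw [h, Function.iterate_succ_apply', Homeomorph.symm_apply_apply]
  have time2 : ∀ (z : M) (j m : ℕ) (x : M), x ∈ U → g x ∉ interior U →
      dist (g^[j] z) x < ε → g^[m] z ∈ U → g (g^[m] z) ∉ interior U → j ≤ m + 1 ∧ m ≤ j + 1 := by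
    intro z j m x hx1 hx2 hd hm1 hm2
    obtain ⟨q1, q2⟩ := h5 x hx1 hx2 (g^[j] z) (by linarith)
    constructor
    · by_contra hcon
      obtain ⟨i, rfl⟩ : ∃ i, j = i + 1 := ⟨j - 1, by omega⟩
      rw [Function.iterate_succ_apply', Homeomorph.symm_apply_apply] at q1
      apply hm2
      rw [← Function.iterate_succ_apply' g m z]
      rcases Nat.lt_or_ge (m + 1) i with h | h
      · exact rep_down hR z i (m + 1) h (interior_subset q1)
      · have : m.succ = i := by omega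
        rw [this]; exact q1
    · by_contra hcon
      apply q2
      rw [← Function.iterate_succ_apply' g j z, ← Function.iterate_succ_apply' g (j + 1) z]
      rcases Nat.lt_or_ge (j + 2) m with h | h
      · exact interior_subset (rep_down hR z m (j + 2) h hm1)
      · have : m = j + 2 := by omega
        rw [this] at hm1; exact hm1
  -- connectedness
  have hconn := K.2.isPreconnected
  rw [isPreconnected_closed_iff] at hconn
  have h7 := hconn _ _ (hcl (Orb g A)) (hcl (Orb g B)) (by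
      intro z hz
      obtain ⟨n, hn1, hn2, h | h⟩ := hcov z hz
      · obtain ⟨x, hx, hx2⟩ := h
        exact Or.inl (hin _ z hz n hn1 hn2 x hx hx2)
      · obtain ⟨x, hx, hx2⟩ := h
        exact Or.inr (hin _ z hz n hn1 hn2 x hx hx2))
    (by
      have hyJ : a1 ∈ ((y (J - 1)).1 : Set M) := by
        rw [hy1 (J - 1) (by omega)]
        have : N' + ((J - 1 : ℕ) : ℤ) = N - 1 := by
          rw [Nat.cast_sub hJ1]; push_cast; linarith
        rw [this]
        exact haL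
      obtain ⟨z, hz, hz2⟩ := near2 (J - 1) a1 hyJ
      refine ⟨z, hz, ?_⟩
      obtain ⟨m, hm1, hm2, h | h⟩ := hcov z hz
      · obtain ⟨x, hx, hx2⟩ := h
        exact hin _ z hz m hm1 hm2 x hx hx2
      · exfalso
        obtain ⟨x, hx, hx2⟩ := h
        obtain ⟨t1, t2⟩ := time2 z (J - 1) m a1 haU haI hz2 hm1 hm2
        have t3 := time3 z m (J - 1) (by omega) (by omega)
        exact (h4 (g^[m] z) hm1 hm2 (g^[J - 1] z) t3 a1 haO x hx).2
          ⟨by linarith, by linarith⟩)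
    (by
      have hyJ : b1 ∈ ((y (J - 1)).1 : Set M) := by
        rw [hy1 (J - 1) (by omega)]
        have : N' + ((J - 1 : ℕ) : ℤ) = N - 1 := by
          rw [Nat.cast_sub hJ1]; push_cast; linarith
        rw [this]
        exact hbL
      obtain ⟨z, hz, hz2⟩ := near2 (J - 1) b1 hyJ
      refine ⟨z, hz, ?_⟩
      obtain ⟨m, hm1, hm2, h | h⟩ := hcov z hz
      · exfalso
        obtain ⟨x, hx, hx2⟩ := h
        obtain ⟨t1, t2⟩ := time2 z (J - 1) m b1 hbU hbI hz2 hm1 hm2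
        have t3 := time3 z m (J - 1) (by omega) (by omega)
        exact (h4 (g^[m] z) hm1 hm2 (g^[J - 1] z) t3 x hx b1 hbO).1
          ⟨by linarith, by linarith⟩
      · obtain ⟨x, hx, hx2⟩ := h
        exact hin _ z hz m hm1 hm2 x hx hx2)
  obtain ⟨z, hz, hzA, hzB⟩ := h7
  obtain ⟨n, hn1, hn2, x, hx, hx2⟩ := hout _ hAne z hzA
  obtain ⟨m, hm1, hm2, x', hx', hx2'⟩ := hout _ hBne z hzB
  have t3 := time3 z n m (time1 z n m hn2 hm1) (time1 z m n hm2 hn1)
  exact (h4 (g^[n] z) hn1 hn2 (g^[m] z) t3 x hx x' hx').1 ⟨hx2, hx2'⟩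

end Pool.Agent.Q62.MS
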